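import Mathlib

/-!
# MP_b0e20b_ag, project F (flags): definitions

`Ω` is a finite set of elements, `Λ` a finite set of unknowns, `Ρ` a finite set of relations. To every
element belong a sequence `z E` of complex numbers, a vector `vec E : Ρ → ℤ` (the vectors satisfy
the linear relations `∑ E, z E n * vec E l = 0`) and an exponent vector `ex E : Λ → ℤ`
(`z E n = κ E n * ω n ^ h E * ∏ l, x l n ^ ex E l`, `κ E n` real). All limits are taken along an
ultrafilter.
-/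

set_option autoImplicit false

open scoped BigOperators Topology
open Filter

namespace Pool.Agent.MPb0eF

/-- The ultrafilter along which all limits are taken. -/
noncomputable abbrev uf : Filter ℕ := (Filter.hyperfilter ℕ : Filter ℕ)

/-- The elements with the same level have the same size, elements with larger level are smaller;
`ζ` are the relative leading coefficients. -/
structure IsFlag {Ω : Type} (z : Ω → ℕ → ℂ) (lev : Ω → ℕ) (ζ : Ω → ℂ) : Prop where
  z0 : ∀ E, ∀ᶠ n in uf, z E n ≠ 0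
  ζ0 : ∀ E, ζ E ≠ 0
  sim : ∀ E E', lev E = lev E' → Tendsto (fun n => z E' n / z E n) uf (𝓝 (ζ E' / ζ E))
  dom : ∀ E E', lev E < lev E' → Tendsto (fun n => z E' n / z E n) uf (𝓝 0)

/-- The value of the linear form `φ` at the vector `v`. -/
def dot {Ρ : Type} [Fintype Ρ] (φ : Ρ → ℚ) (v : Ρ → ℤ) : ℚ := ∑ l, φ l * v l

/-- The coefficients `c` of the elements of level `j` give a relation modulo the span of the vectors
of smaller level. -/
def InR {Ω Ρ : Type} [Fintype Ω] [Fintype Ρ] (vec : Ω → Ρ → ℤ) (lev : Ω → ℕ) (j : ℕ)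
    (c : Ω → ℂ) : Prop :=
  ∀ φ : Ρ → ℚ, (∀ E, lev E < j → dot φ (vec E) = 0) →
    ∑ E, (if lev E = j then c E * ((dot φ (vec E) : ℚ) : ℂ) else 0) = 0

/-- The sum of the coefficients `c` over every level is zero. -/
def BSum {Ω R : Type} [Fintype Ω] [AddCommMonoid R] (lev : Ω → ℕ) (c : Ω → R) : Prop :=
  ∀ j, ∑ E, (if lev E = j then c E else 0) = 0

/-- The relation of every level is unique up to a factor. -/
def Uq {Ω Ρ : Type} [Fintype Ω] [Fintype Ρ] (vec : Ω → Ρ → ℤ) (lev : Ω → ℕ) (ζ : Ω → ℂ) : Prop :=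
  ∀ j, ∀ c : Ω → ℂ, InR vec lev j c → ∃ t : ℂ, ∀ E, lev E = j → c E = t * ζ E

/-- The differences of the exponents inside the levels span everything (over the rationals). -/
def Sp {Ω Λ : Type} [Fintype Ω] (ex : Ω → Λ → ℤ) (lev : Ω → ℕ) : Prop :=
  ∀ v : Λ → ℚ, ∃ c : Ω → ℚ, BSum lev c ∧ ∀ l, ∑ E, c E * ex E l = v l

/-- The exponents of the elements are as prescribed. -/
structure Mon {Ω Λ : Type} [Fintype Λ] (z : Ω → ℕ → ℂ) (ω : ℕ → ℝ) (h : Ω → ℝ) (x : Λ → ℕ → ℂ)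
    (ex : Ω → Λ → ℤ) (κ : Ω → ℕ → ℝ) (k : Ω → ℝ) : Prop where
  pos : ∀ n, 0 < ω n
  top : Tendsto ω uf atTop
  x0 : ∀ l, ∀ᶠ n in uf, x l n ≠ 0
  k0 : ∀ E, k E ≠ 0
  lim : ∀ E, Tendsto (κ E) uf (𝓝 (k E))
  eq : ∀ E, ∀ᶠ n in uf,
    z E n = (κ E n : ℂ) * ((ω n ^ h E : ℝ) : ℂ) * ∏ l, x l n ^ ex E l

/-- The heights are generic: there is no integral affine relation between the pairs of height and
exponent. -/
def Gen {Ω Λ : Type} [Fintype Ω] (h : Ω → ℝ) (ex : Ω → Λ → ℤ) : Prop :=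
  ∀ c : Ω → ℤ, ∑ E, c E = 0 → (∀ l, ∑ E, c E * ex E l = 0) → ∑ E, (c E : ℝ) * h E = 0 → c = 0

/-- The lattice condition for the unknown `l`: `x l` or its square is determined by the ratios inside
the levels, in the second case the square is positive. -/
def LC {Ω Λ : Type} [Fintype Ω] [DecidableEq Λ] (ex : Ω → Λ → ℤ) (lev : Ω → ℕ) (ζ : Ω → ℂ)
    (k : Ω → ℝ) (l : Λ) : Prop :=
  (∃ c : Ω → ℤ, BSum lev c ∧ ∀ l', ∑ E, c E * ex E l' = if l' = l then 1 else 0) ∨
    ∃ c : Ω → ℤ, BSum lev c ∧ (∀ l', ∑ E, c E * ex E l' = if l' = l then 2 else 0) ∧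
      ∃ r : ℝ, 0 < r ∧ ∏ E, (ζ E / (k E : ℂ)) ^ c E = (r : ℂ)

/-- The value of the element `E` for the growth exponents `w` of the unknowns. -/
def val {Ω Λ : Type} [Fintype Λ] (h : Ω → ℝ) (ex : Ω → Λ → ℤ) (w : Λ → ℝ) (E : Ω) : ℝ :=
  h E + ∑ l, (ex E l : ℝ) * w l

/-- The levels are the levels of the values for the growth exponents `w`. -/
def Lev {Ω Λ : Type} [Fintype Λ] (h : Ω → ℝ) (ex : Ω → Λ → ℤ) (w : Λ → ℝ) (lev : Ω → ℕ) : Prop :=
  (∀ E E', lev E = lev E' → val h ex w E = val h ex w E') ∧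
    ∀ E E', lev E < lev E' → val h ex w E' < val h ex w E

/-- The combinatorial condition on heights and exponents: for every possible flag the lattice
condition holds for all unknowns. -/
def CC {Ω Λ Ρ : Type} [Fintype Ω] [Fintype Λ] [Fintype Ρ] [DecidableEq Λ] (vec : Ω → Ρ → ℤ)
    (ex : Ω → Λ → ℤ) (h : Ω → ℝ) (k : Ω → ℝ) : Prop :=
  ∀ (w : Λ → ℝ) (lev : Ω → ℕ) (ζ : Ω → ℂ), Lev h ex w lev → (∀ E, ζ E ≠ 0) →
    (∀ j, InR vec lev j ζ) → Uq vec lev ζ → Sp ex lev → ∀ l, LC ex lev ζ k l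

end Pool.Agent.MPb0eF
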