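import Pool.Agent.Lib.MP_b0e20b_ag_Q.BDefs
import Pool.Agent.Lib.MP_b0e20b_ag_F.Defs

/-!
# MP_b0e20b_ag, project F: the critical system in the form of project F

The unknowns are the coordinates `x k` (`k : κ`) and `s i = 1 + ∑ (coordinates of block i)²`
(`i : Fin d`). The elements are the nonempty monomials `S`, `t k = x k ^ 2 * ∏ j ≠ bl k, s j`,
`t' i = ∏ j ≠ i, s j`, and `p = ∏ j, s j`. The relations are
`∑ S ∋ k, c S * x ^ S = t k` and `t' i + ∑ k in block i, t k = p`.
-/

set_option autoImplicit false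

open scoped BigOperators Topology
open Filter

namespace Pool.Agent.MPb0eF

open MPb0eQ (Sct dS sq PA G)

variable {κ : Type} [Fintype κ] [DecidableEq κ] {d : ℕ} (bl : κ → Fin d)

/-- The nonempty monomials. -/
abbrev NS : Type := {S : Sct bl // S.1.Nonempty}

/-- The elements. -/
abbrev El : Type := NS bl ⊕ κ ⊕ Fin d ⊕ Unit

/-- The unknowns and the relations. -/
abbrev Un (κ : Type) (d : ℕ) : Type := κ ⊕ Fin d

/-- The vectors of the elements. -/
def vF : El bl → Un κ d → ℤ
  | .inl S, .inl k => if k ∈ S.1.1 then 1 else 0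
  | .inl _, .inr _ => 0
  | .inr (.inl k), .inl k' => if k' = k then -1 else 0
  | .inr (.inl k), .inr i => if i = bl k then 1 else 0
  | .inr (.inr (.inl _)), .inl _ => 0
  | .inr (.inr (.inl i)), .inr j => if j = i then 1 else 0
  | .inr (.inr (.inr _)), .inl _ => 0
  | .inr (.inr (.inr _)), .inr _ => -1

/-- The exponents of the elements. -/
def eF : El bl → Un κ d → ℤ
  | .inl S, .inl k => if k ∈ S.1.1 then 1 else 0
  | .inl _, .inr _ => 0
  | .inr (.inl k), .inl k' => if k' = k then 2 else 0
  | .inr (.inl k), .inr i => if i = bl k then 0 else 1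
  | .inr (.inr (.inl _)), .inl _ => 0
  | .inr (.inr (.inl i)), .inr j => if j = i then 0 else 1
  | .inr (.inr (.inr _)), .inl _ => 0
  | .inr (.inr (.inr _)), .inr _ => 1

/-- The heights of the elements. -/
def hF (h : NS bl → ℝ) : El bl → ℝ
  | .inl S => h S
  | .inr _ => 0

/-- The leading coefficients of the elements. -/
def kF (k : NS bl → ℝ) : El bl → ℝ
  | .inl S => k S
  | .inr _ => 1

/-- The values of the elements. -/
noncomputable def zF (c : Sct bl → ℂ) (x : κ → ℂ) : El bl → ℂ
  | .inl S => c S.1 * ∏ k ∈ S.1.1, x k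
  | .inr (.inl k) => x k ^ 2 * PA bl x {bl k}
  | .inr (.inr (.inl i)) => PA bl x {i}
  | .inr (.inr (.inr _)) => ∏ i, sq bl x i

/-- The unknowns of a point. -/
noncomputable def yF (x : κ → ℂ) : Un κ d → ℂ
  | .inl k => x k
  | .inr i => sq bl x i

variable {bl}

/-- The sum over the elements. -/
private theorem Sys_sum {R : Type} [AddCommMonoid R] (f : El bl → R) :
    ∑ E, f E = ∑ S, f (.inl S) + (∑ k, f (.inr (.inl k)) +
      (∑ i, f (.inr (.inr (.inl i))) + f (.inr (.inr (.inr ()))))) := by
  rw [Fintype.sum_sum_type, Fintype.sum_sum_type, Fintype.sum_sum_type]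
  have h : ∑ u : Unit, f (.inr (.inr (.inr u))) = f (.inr (.inr (.inr ()))) :=
    Fintype.sum_unique _
  rw [h]

private theorem Sys_sumNS {R : Type} [AddCommMonoid R] (f : Sct bl → R) :
    ∑ S : NS bl, f S.1 = ∑ s : Sct bl, if s.1.Nonempty then f s else 0 := by
  rw [← Finset.sum_filter]
  exact (Finset.sum_subtype _ (fun s => by simp) f).symm

omit [DecidableEq κ] in
private theorem Sys_PA {R : Type} [CommRing R] (x : κ → R) (i : Fin d) :
    ∏ j, sq bl x j = sq bl x i * PA bl x {i} :=
  Fintype.prod_eq_mul_prod_compl i _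

/-- The relations. Proof: `G bl c x k = 0`, multiplied by `x k`, and the definition of `sq`. -/
theorem relF {c : Sct bl → ℂ} {x : κ → ℂ} (h : G bl c x = 0) (l : Un κ d) :
    ∑ E, zF bl c x E * (vF bl E l : ℂ) = 0 := by
  rw [Sys_sum]
  rcases l with k | i
  · have h1 : x k * G bl c x k = 0 := by
      rw [h]
      exact mul_zero _
    have h2 : x k * dS bl c x {k} =
        ∑ S : NS bl, zF bl c x (.inl S) * ((vF bl (.inl S) (.inl k) : ℤ) : ℂ) := by
      have h3 := Sys_sumNS (bl := bl) (fun s : Sct bl =>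
        (c s * ∏ l ∈ s.1, x l) * (((if k ∈ s.1 then 1 else 0 : ℤ)) : ℂ))
      have h4 : ∑ S : NS bl, zF bl c x (.inl S) * ((vF bl (.inl S) (.inl k) : ℤ) : ℂ) =
          ∑ S : NS bl, (c S.1 * ∏ l ∈ S.1.1, x l) *
            (((if k ∈ S.1.1 then 1 else 0 : ℤ)) : ℂ) := rfl
      rw [h4, h3]
      unfold dS
      rw [Finset.mul_sum]
      refine Finset.sum_congr rfl fun s _ => ?_
      by_cases hk : k ∈ s.1
      · rw [if_pos (Finset.singleton_subset_iff.2 hk), if_pos ⟨k, hk⟩, if_pos hk, Int.cast_one,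
          mul_one, ← Finset.mul_prod_erase _ _ hk, Finset.sdiff_singleton_eq_erase]
        ring
      · rw [if_neg (fun h5 => hk (Finset.singleton_subset_iff.1 h5)), if_neg hk, Int.cast_zero,
          mul_zero, mul_zero, ite_self]
    rw [← h2]
    have h5 : ∑ k', zF bl c x (.inr (.inl k')) * ((vF bl (.inr (.inl k')) (.inl k) : ℤ) : ℂ) =
        -(x k ^ 2 * PA bl x {bl k}) := by
      rw [Finset.sum_eq_single k]
      · have h6 : vF bl (.inr (.inl k)) (.inl k) = -1 := if_pos rfl
        rw [h6]
        push_cast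
        change x k ^ 2 * PA bl x {bl k} * (-1) = _
        ring
      · intro b _ hb
        have h6 : vF bl (.inr (.inl b)) (.inl k) = 0 := if_neg (fun h7 => hb h7.symm)
        rw [h6, Int.cast_zero, mul_zero]
      · intro h6
        exact absurd (Finset.mem_univ k) h6
    have h6 : ∑ i, zF bl c x (.inr (.inr (.inl i))) *
        ((vF bl (.inr (.inr (.inl i))) (.inl k) : ℤ) : ℂ) = 0 := by
      refine Finset.sum_eq_zero fun i _ => ?_
      have h7 : vF bl (.inr (.inr (.inl i))) (.inl k) = 0 := rfl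
      rw [h7, Int.cast_zero, mul_zero]
    have h7 : zF bl c x (.inr (.inr (.inr ()))) *
        ((vF bl (.inr (.inr (.inr ()))) (.inl k) : ℤ) : ℂ) = 0 := by
      have h8 : vF bl (.inr (.inr (.inr ()))) (.inl k) = 0 := rfl
      rw [h8, Int.cast_zero, mul_zero]
    rw [h5, h6, h7]
    unfold G at h1
    linear_combination -h1
  · have h4 : ∑ S : NS bl, zF bl c x (.inl S) * ((vF bl (.inl S) (.inr i) : ℤ) : ℂ) = 0 := by
      refine Finset.sum_eq_zero fun S _ => ?_
      have h7 : vF bl (.inl S) (.inr i) = 0 := rfl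
      rw [h7, Int.cast_zero, mul_zero]
    have h5 : ∑ k, zF bl c x (.inr (.inl k)) * ((vF bl (.inr (.inl k)) (.inr i) : ℤ) : ℂ) =
        (∑ k, if bl k = i then x k ^ 2 else 0) * PA bl x {i} := by
      rw [Finset.sum_mul]
      refine Finset.sum_congr rfl fun k _ => ?_
      have h6 : vF bl (.inr (.inl k)) (.inr i) = if i = bl k then 1 else 0 := rfl
      have h7 : zF bl c x (.inr (.inl k)) = x k ^ 2 * PA bl x {bl k} := rfl
      rw [h6, h7]
      by_cases hk : bl k = i
      · rw [if_pos hk, if_pos hk.symm, hk, Int.cast_one, mul_one]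
      · rw [if_neg hk, if_neg (fun h8 => hk h8.symm), Int.cast_zero, mul_zero, zero_mul]
    have h6 : ∑ j, zF bl c x (.inr (.inr (.inl j))) *
        ((vF bl (.inr (.inr (.inl j))) (.inr i) : ℤ) : ℂ) = PA bl x {i} := by
      rw [Finset.sum_eq_single i]
      · have h7 : vF bl (.inr (.inr (.inl i))) (.inr i) = 1 := if_pos rfl
        rw [h7, Int.cast_one, mul_one]
        rfl
      · intro b _ hb
        have h7 : vF bl (.inr (.inr (.inl b))) (.inr i) = 0 := if_neg (fun h8 => hb h8.symm)
        rw [h7, Int.cast_zero, mul_zero]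
      · intro h7
        exact absurd (Finset.mem_univ i) h7
    have h7 : zF bl c x (.inr (.inr (.inr ()))) *
        ((vF bl (.inr (.inr (.inr ()))) (.inr i) : ℤ) : ℂ) = -∏ j, sq bl x j := by
      have h8 : vF bl (.inr (.inr (.inr ()))) (.inr i) = -1 := rfl
      rw [h8]
      push_cast
      change (∏ j, sq bl x j) * (-1) = _
      ring
    rw [h4, h5, h6, h7, Sys_PA x i]
    unfold MPb0eQ.sq
    ring

/-- The elements are monomials in the unknowns. -/
theorem monF {c : Sct bl → ℂ} {x : κ → ℂ} (h0 : ∀ l, yF bl x l ≠ 0) (E : El bl) :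
    zF bl c x E = (match E with
      | .inl S => c S.1
      | .inr _ => 1) * ∏ l, yF bl x l ^ eF bl E l := by
  rw [Fintype.prod_sum_type]
  rcases E with S | k | i | u
  · have h1 : ∏ k, yF bl x (.inl k) ^ eF bl (.inl S) (.inl k) = ∏ k ∈ S.1.1, x k := by
      have h0 : ∏ k, (if k ∈ S.1.1 then x k else 1) = ∏ k ∈ S.1.1, x k := by
        rw [Finset.prod_ite_mem, Finset.univ_inter]
      rw [← h0]
      refine Finset.prod_congr rfl fun k _ => ?_
      have h2 : eF bl (.inl S) (.inl k) = if k ∈ S.1.1 then 1 else 0 := rfl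
      have h3 : yF bl x (.inl k) = x k := rfl
      rw [h2, h3]
      by_cases hk : k ∈ S.1.1
      · rw [if_pos hk, if_pos hk, zpow_one]
      · rw [if_neg hk, if_neg hk, zpow_zero]
    have h2 : ∏ i, yF bl x (.inr i) ^ eF bl (.inl S) (.inr i) = 1 := by
      refine Finset.prod_eq_one fun i _ => ?_
      have h3 : eF bl (.inl S) (.inr i) = 0 := rfl
      rw [h3, zpow_zero]
    rw [h1, h2, mul_one]
    rfl
  · have h1 : ∏ k', yF bl x (.inl k') ^ eF bl (.inr (.inl k)) (.inl k') = x k ^ 2 := by
      rw [Finset.prod_eq_single k]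
      · have h2 : eF bl (.inr (.inl k)) (.inl k) = 2 := if_pos rfl
        have h3 : yF bl x (.inl k) = x k := rfl
        rw [h2, h3]
        exact zpow_natCast (x k) 2
      · intro b _ hb
        have h2 : eF bl (.inr (.inl k)) (.inl b) = 0 := if_neg hb
        rw [h2, zpow_zero]
      · intro h2
        exact absurd (Finset.mem_univ k) h2
    have h2 : ∏ i, yF bl x (.inr i) ^ eF bl (.inr (.inl k)) (.inr i) = PA bl x {bl k} := by
      rw [Fintype.prod_eq_mul_prod_compl (bl k)]
      have h3 : eF bl (.inr (.inl k)) (.inr (bl k)) = 0 := if_pos rfl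
      rw [h3, zpow_zero, one_mul]
      refine Finset.prod_congr rfl fun i hi => ?_
      rw [Finset.mem_compl, Finset.mem_singleton] at hi
      have h4 : eF bl (.inr (.inl k)) (.inr i) = 1 := if_neg hi
      rw [h4, zpow_one]
      rfl
    rw [h1, h2, one_mul]
    rfl
  · have h1 : ∏ k, yF bl x (.inl k) ^ eF bl (.inr (.inr (.inl i))) (.inl k) = 1 := by
      refine Finset.prod_eq_one fun k _ => ?_
      have h3 : eF bl (.inr (.inr (.inl i))) (.inl k) = 0 := rfl
      rw [h3, zpow_zero]
    have h2 : ∏ j, yF bl x (.inr j) ^ eF bl (.inr (.inr (.inl i))) (.inr j) = PA bl x {i} := by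
      rw [Fintype.prod_eq_mul_prod_compl i]
      have h3 : eF bl (.inr (.inr (.inl i))) (.inr i) = 0 := if_pos rfl
      rw [h3, zpow_zero, one_mul]
      refine Finset.prod_congr rfl fun j hj => ?_
      rw [Finset.mem_compl, Finset.mem_singleton] at hj
      have h4 : eF bl (.inr (.inr (.inl i))) (.inr j) = 1 := if_neg hj
      rw [h4, zpow_one]
      rfl
    rw [h1, h2, one_mul, one_mul]
    rfl
  · have h1 : ∏ k, yF bl x (.inl k) ^ eF bl (.inr (.inr (.inr u))) (.inl k) = 1 := by
      refine Finset.prod_eq_one fun k _ => ?_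
      have h3 : eF bl (.inr (.inr (.inr u))) (.inl k) = 0 := rfl
      rw [h3, zpow_zero]
    have h2 : ∏ j, yF bl x (.inr j) ^ eF bl (.inr (.inr (.inr u))) (.inr j) =
        ∏ j, sq bl x j := by
      refine Finset.prod_congr rfl fun j _ => ?_
      have h4 : eF bl (.inr (.inr (.inr u))) (.inr j) = 1 := rfl
      rw [h4, zpow_one]
      rfl
    rw [h1, h2, one_mul, one_mul]
    rfl

/-- The vectors span. Proof: the monomials `{k}` and the elements `t' i`. -/
theorem spanF (φ : Un κ d → ℚ) (h : ∀ E, dot φ (vF bl E) = 0) : φ = 0 := by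
  funext l
  rcases l with k | i
  · have h1 := h (.inl ⟨⟨{k}, fun a ha b hb _ => by
      rw [Finset.mem_singleton] at ha hb
      rw [ha, hb]⟩, Finset.singleton_nonempty k⟩)
    unfold dot at h1
    rw [Finset.sum_eq_single (Sum.inl k)] at h1
    · have h2 : vF bl (.inl ⟨⟨{k}, fun a ha b hb _ => by
        rw [Finset.mem_singleton] at ha hb
        rw [ha, hb]⟩, Finset.singleton_nonempty k⟩) (.inl k) = 1 :=
        if_pos (Finset.mem_singleton_self k)
      rw [h2, Int.cast_one, mul_one] at h1
      exact h1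
    · rintro (b | b) _ hb
      · have h2 : vF bl (.inl ⟨⟨{k}, fun a ha b hb _ => by
          rw [Finset.mem_singleton] at ha hb
          rw [ha, hb]⟩, Finset.singleton_nonempty k⟩) (.inl b) = 0 :=
          if_neg (fun h3 => hb (by rw [Finset.mem_singleton.1 h3]))
        rw [h2, Int.cast_zero, mul_zero]
      · have h2 : vF bl (.inl ⟨⟨{k}, fun a ha b hb _ => by
          rw [Finset.mem_singleton] at ha hb
          rw [ha, hb]⟩, Finset.singleton_nonempty k⟩) (.inr b) = 0 := rfl
        rw [h2, Int.cast_zero, mul_zero]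
    · intro h2
      exact absurd (Finset.mem_univ _) h2
  · have h1 := h (.inr (.inr (.inl i)))
    unfold dot at h1
    rw [Finset.sum_eq_single (Sum.inr i)] at h1
    · have h2 : vF bl (.inr (.inr (.inl i))) (.inr i) = 1 := if_pos rfl
      rw [h2, Int.cast_one, mul_one] at h1
      exact h1
    · rintro (b | b) _ hb
      · have h2 : vF bl (.inr (.inr (.inl i))) (.inl b) = 0 := rfl
        rw [h2, Int.cast_zero, mul_zero]
      · have h2 : vF bl (.inr (.inr (.inl i))) (.inr b) = 0 :=
          if_neg (fun h3 => hb (by rw [h3]))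
        rw [h2, Int.cast_zero, mul_zero]
    · intro h2
      exact absurd (Finset.mem_univ _) h2

/-- Generic heights. Proof: the coefficients of the monomials vanish by `hh`; the exponents of
`t k`, `t' i` and `p` are affinely independent. -/
theorem genF {h : NS bl → ℝ} (hh : ∀ c : NS bl → ℤ, ∑ S, (c S : ℝ) * h S = 0 → c = 0) :
    Gen (hF bl h) (eF bl) := by
  intro c hc he hH
  -- the coefficients of the monomials
  have h1 : (fun S : NS bl => c (.inl S)) = 0 := by
    apply hh
    rw [Sys_sum] at hH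
    have h2 : ∑ k, (c (.inr (.inl k)) : ℝ) * hF bl h (.inr (.inl k)) = 0 :=
      Finset.sum_eq_zero fun k _ => mul_zero _
    have h3 : ∑ i, (c (.inr (.inr (.inl i))) : ℝ) * hF bl h (.inr (.inr (.inl i))) = 0 :=
      Finset.sum_eq_zero fun k _ => mul_zero _
    have h4 : (c (.inr (.inr (.inr ()))) : ℝ) * hF bl h (.inr (.inr (.inr ()))) = 0 :=
      mul_zero _
    rw [h2, h3, h4, add_zero, add_zero, add_zero] at hH
    exact hH
  have h1' : ∀ S : NS bl, c (.inl S) = 0 := fun S => congrFun h1 S
  have h2 : ∀ k, c (.inr (.inl k)) = 0 := by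
    intro k
    have h3 := he (.inl k)
    rw [Sys_sum] at h3
    have h4 : ∑ S, c (.inl S) * eF bl (.inl S) (.inl k) = 0 :=
      Finset.sum_eq_zero fun S _ => by rw [h1' S, zero_mul]
    have h5 : ∑ k', c (.inr (.inl k')) * eF bl (.inr (.inl k')) (.inl k) =
        c (.inr (.inl k)) * 2 := by
      rw [Finset.sum_eq_single k]
      · have h6 : eF bl (.inr (.inl k)) (.inl k) = 2 := if_pos rfl
        rw [h6]
      · intro b _ hb
        have h6 : eF bl (.inr (.inl b)) (.inl k) = 0 := if_neg (fun h7 => hb h7.symm)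
        rw [h6, mul_zero]
      · intro h6
        exact absurd (Finset.mem_univ k) h6
    have h6 : ∑ i, c (.inr (.inr (.inl i))) * eF bl (.inr (.inr (.inl i))) (.inl k) = 0 :=
      Finset.sum_eq_zero fun i _ => mul_zero _
    have h7 : c (.inr (.inr (.inr ()))) * eF bl (.inr (.inr (.inr ()))) (.inl k) = 0 :=
      mul_zero _
    rw [h4, h5, h6, h7] at h3
    omega
  -- the sum of the coefficients
  have h3 : ∑ i, c (.inr (.inr (.inl i))) + c (.inr (.inr (.inr ()))) = 0 := by
    rw [Sys_sum] at hc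
    rw [Finset.sum_eq_zero (fun S _ => h1' S), Finset.sum_eq_zero (fun k _ => h2 k), zero_add,
      zero_add] at hc
    exact hc
  have h4 : ∀ j, c (.inr (.inr (.inl j))) = 0 := by
    intro j
    have h5 := he (.inr j)
    rw [Sys_sum] at h5
    have h6 : ∑ S, c (.inl S) * eF bl (.inl S) (.inr j) = 0 :=
      Finset.sum_eq_zero fun S _ => by rw [h1' S, zero_mul]
    have h7 : ∑ k', c (.inr (.inl k')) * eF bl (.inr (.inl k')) (.inr j) = 0 :=
      Finset.sum_eq_zero fun k _ => by rw [h2 k, zero_mul]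
    have h8 : ∑ i, c (.inr (.inr (.inl i))) * eF bl (.inr (.inr (.inl i))) (.inr j) =
        ∑ i, c (.inr (.inr (.inl i))) - c (.inr (.inr (.inl j))) := by
      rw [Fintype.sum_eq_add_sum_compl j (fun i => c (.inr (.inr (.inl i)))),
        Fintype.sum_eq_add_sum_compl j]
      have h9 : eF bl (.inr (.inr (.inl j))) (.inr j) = 0 := if_pos rfl
      rw [h9, mul_zero, zero_add, add_sub_cancel_left]
      refine Finset.sum_congr rfl fun i hi => ?_
      rw [Finset.mem_compl, Finset.mem_singleton] at hi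
      have h10 : eF bl (.inr (.inr (.inl i))) (.inr j) = 1 := if_neg (fun h11 => hi h11.symm)
      rw [h10, mul_one]
    have h9 : c (.inr (.inr (.inr ()))) * eF bl (.inr (.inr (.inr ()))) (.inr j) =
        c (.inr (.inr (.inr ()))) := mul_one _
    rw [h6, h7, h8, h9] at h5
    omega
  have h5 : c (.inr (.inr (.inr ()))) = 0 := by
    rw [Finset.sum_eq_zero (fun i _ => h4 i), zero_add] at h3
    exact h3
  funext E
  rcases E with S | k | i | u
  · exact h1' S
  · exact h2 k
  · exact h4 i
  · exact h5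

end Pool.Agent.MPb0eF
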