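import Pool.Agent.Lib.MP_b0e20b_ag_F.Defs

/-!
# MP_b0e20b_ag, project F: the count (linear algebra)
-/

set_option autoImplicit false

open scoped BigOperators Topology

namespace Pool.Agent.MPb0eF

variable {Ω Λ Ρ : Type} [Fintype Ω] [Fintype Λ] [Fintype Ρ] {vec : Ω → Ρ → ℤ} {ex : Ω → Λ → ℤ}
  {lev : Ω → ℕ} {ζ : Ω → ℂ}

/-- The forms vanishing on the vectors of level `< j`. -/
def FJ (vec : Ω → Ρ → ℤ) (lev : Ω → ℕ) (j : ℕ) : Submodule ℚ (Ρ → ℚ) where
  carrier := {φ | ∀ E, lev E < j → dot φ (vec E) = 0}
  add_mem' := by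
    intro a b ha hb E hE
    have h1 := ha E hE
    have h2 := hb E hE
    simp only [dot, Pi.add_apply, add_mul, Finset.sum_add_distrib] at *
    rw [h1, h2, add_zero]
  zero_mem' := by
    intro E _
    simp [dot]
  smul_mem' := by
    intro r a ha E hE
    have h1 := ha E hE
    simp only [dot, Pi.smul_apply, smul_eq_mul, mul_assoc, ← Finset.mul_sum] at *
    rw [h1, mul_zero]

omit [Fintype Ω] in
theorem mem_FJ {j : ℕ} {φ : Ρ → ℚ} :
    φ ∈ FJ vec lev j ↔ ∀ E, lev E < j → dot φ (vec E) = 0 := Iff.rfl

/-- The values of the forms on the vectors of level `j`. -/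
def RJ (vec : Ω → Ρ → ℤ) (lev : Ω → ℕ) (j : ℕ) : (Ρ → ℚ) →ₗ[ℚ] ({E // lev E = j} → ℚ) where
  toFun φ := fun E => dot φ (vec E.1)
  map_add' := by
    intro a b
    funext E
    simp [dot, add_mul, Finset.sum_add_distrib]
  map_smul' := by
    intro r a
    funext E
    simp [dot, mul_assoc, Finset.mul_sum]

omit [Fintype Ω] in
theorem RJ_apply {j : ℕ} (φ : Ρ → ℚ) (E : {E // lev E = j}) :
    RJ vec lev j φ E = dot φ (vec E.1) := rfl

omit [Fintype Ω] in
theorem step (j : ℕ) : Module.finrank ℚ (FJ vec lev j) =
    Module.finrank ℚ ((FJ vec lev j).map (RJ vec lev j)) +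
      Module.finrank ℚ (FJ vec lev (j + 1)) := by
  have h := LinearMap.finrank_range_add_finrank_ker ((RJ vec lev j).domRestrict (FJ vec lev j))
  have h1 : LinearMap.range ((RJ vec lev j).domRestrict (FJ vec lev j)) =
      (FJ vec lev j).map (RJ vec lev j) := LinearMap.range_domRestrict _ _
  have h2 : LinearMap.ker ((RJ vec lev j).domRestrict (FJ vec lev j)) =
      (FJ vec lev (j + 1)).comap (FJ vec lev j).subtype := by
    ext φ
    simp only [LinearMap.mem_ker, Submodule.mem_comap, Submodule.subtype_apply, mem_FJ]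
    constructor
    · intro h3 E hE
      rcases Nat.lt_succ_iff_lt_or_eq.1 hE with h4 | h4
      · exact φ.2 E h4
      · exact congrFun h3 ⟨E, h4⟩
    · intro h3
      funext E
      exact h3 E.1 (by rw [E.2]; exact Nat.lt_succ_self j)
  have h3 : FJ vec lev (j + 1) ≤ FJ vec lev j := by
    intro φ hφ E hE
    exact hφ E (Nat.lt_succ_of_lt hE)
  rw [h1, h2, LinearEquiv.finrank_eq (Submodule.comapSubtypeEquivOfLe h3)] at h
  exact h.symm

theorem pair_zero {j : ℕ} {c : Ω → ℂ} (hc : InR vec lev j c) {b : {E // lev E = j} → ℚ}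
    (hb : b ∈ (FJ vec lev j).map (RJ vec lev j)) :
    ∑ E : {E // lev E = j}, c E.1 * (b E : ℂ) = 0 := by
  classical
  obtain ⟨φ, hφ, rfl⟩ := hb
  have h := hc φ hφ
  rw [← Finset.sum_filter] at h
  rw [Finset.sum_subtype (Finset.univ.filter (fun E => lev E = j)) (p := fun E => lev E = j)
    (by simp) (fun E => c E * ((dot φ (vec E) : ℚ) : ℂ))] at h
  exact h

theorem finrank_B_le (hζ : ∀ E, ζ E ≠ 0) (hR : ∀ j, InR vec lev j ζ) (j : ℕ) :
    Module.finrank ℚ ((FJ vec lev j).map (RJ vec lev j)) ≤
      Fintype.card {E // lev E = j} - 1 := by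
  classical
  by_cases hne : Nonempty {E // lev E = j}
  · obtain ⟨E₀⟩ := hne
    have hlt : (FJ vec lev j).map (RJ vec lev j) < ⊤ := by
      rw [lt_top_iff_ne_top]
      intro htop
      have hm : (Pi.single E₀ 1 : {E // lev E = j} → ℚ) ∈ (FJ vec lev j).map (RJ vec lev j) := by
        rw [htop]; trivial
      have h := pair_zero (hR j) hm
      rw [Finset.sum_eq_single E₀] at h
      · simp at h
        exact hζ _ h
      · intro E _ hE
        simp [Pi.single_eq_of_ne hE]
      · intro hE
        exact absurd (Finset.mem_univ _) hE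
    have h := Submodule.finrank_lt hlt.ne
    rw [Module.finrank_fintype_fun_eq_card] at h
    omega
  · have : IsEmpty {E // lev E = j} := not_nonempty_iff.1 hne
    have h : Module.finrank ℚ ((FJ vec lev j).map (RJ vec lev j)) ≤
        Module.finrank ℚ ({E // lev E = j} → ℚ) := Submodule.finrank_le _
    rw [Module.finrank_fintype_fun_eq_card, Fintype.card_eq_zero] at h
    omega

/-- The coefficients with sum zero over every level. -/
def CS (lev : Ω → ℕ) : Submodule ℚ (Ω → ℚ) where
  carrier := {c | BSum lev c}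
  add_mem' := by
    intro a b ha hb j
    have h1 := ha j
    have h2 := hb j
    have : ∀ E, (if lev E = j then (a + b) E else 0) =
        (if lev E = j then a E else 0) + (if lev E = j then b E else 0) := by
      intro E; split_ifs <;> simp
    simp only [this, Finset.sum_add_distrib, h1, h2, add_zero]
  zero_mem' := by
    intro j
    simp
  smul_mem' := by
    intro r a ha j
    have h1 := ha j
    have : ∀ E, (if lev E = j then (r • a) E else 0) =
        r * (if lev E = j then a E else 0) := by
      intro E; split_ifs <;> simp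
    simp only [this, ← Finset.mul_sum, h1, mul_zero]

theorem mem_CS {c : Ω → ℚ} : c ∈ CS lev ↔ BSum lev c := Iff.rfl

theorem clear (c : Ω → ℚ) : ∃ (D : ℤ) (m : Ω → ℤ), D ≠ 0 ∧ ∀ E, (D : ℚ) * c E = m E := by
  classical
  refine ⟨∏ E, ((c E).den : ℤ), fun E => (∏ E' ∈ Finset.univ.erase E, ((c E').den : ℤ)) *
    (c E).num, ?_, ?_⟩
  · rw [Finset.prod_ne_zero_iff]
    intro E _
    exact_mod_cast (c E).den_nz
  · intro E
    rw [← Finset.mul_prod_erase Finset.univ _ (Finset.mem_univ E)]
    push_cast
    have h := Rat.den_mul_eq_num (c E)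
    rw [mul_comm ((c E).den : ℚ), mul_assoc, h]

omit [Fintype Λ] in
theorem ind_rat (hind : ∀ c : Ω → ℤ, BSum lev c → (∀ l, ∑ E, c E * ex E l = 0) → c = 0)
    (c : Ω → ℚ) (hc : BSum lev c) (he : ∀ l, ∑ E, c E * (ex E l : ℚ) = 0) : c = 0 := by
  obtain ⟨D, m, hD, hm⟩ := clear c
  have h : m = 0 := by
    apply hind
    · intro j
      have h1 := hc j
      have h2 : ((∑ E, (if lev E = j then m E else 0) : ℤ) : ℚ) = 0 := by
        push_cast
        calc ∑ E, (if lev E = j then (m E : ℚ) else 0)
            = ∑ E, (D : ℚ) * (if lev E = j then c E else 0) := by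
              apply Finset.sum_congr rfl
              intro E _
              split_ifs
              · rw [hm]
              · rw [mul_zero]
          _ = 0 := by rw [← Finset.mul_sum, h1, mul_zero]
      exact_mod_cast h2
    · intro l
      have h2 : ((∑ E, m E * ex E l : ℤ) : ℚ) = 0 := by
        push_cast
        calc ∑ E, (m E : ℚ) * (ex E l : ℚ)
            = ∑ E, (D : ℚ) * (c E * (ex E l : ℚ)) := by
              apply Finset.sum_congr rfl
              intro E _
              rw [← hm, mul_assoc]
          _ = 0 := by rw [← Finset.mul_sum, he l, mul_zero]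
      exact_mod_cast h2
  funext E
  have h1 := hm E
  rw [h] at h1
  have h2 : (D : ℚ) ≠ 0 := by exact_mod_cast hD
  simpa [h2] using h1

theorem finrank_CS_ge : Fintype.card Ω - (Finset.univ.image lev).card ≤
    Module.finrank ℚ (CS lev) := by
  classical
  let s : (Ω → ℚ) →ₗ[ℚ] ({j // j ∈ Finset.univ.image lev} → ℚ) :=
    { toFun := fun c j => ∑ E, (if lev E = j.1 then c E else 0)
      map_add' := by
        intro a b
        funext j
        have : ∀ E, (if lev E = j.1 then (a + b) E else 0) =
            (if lev E = j.1 then a E else 0) + (if lev E = j.1 then b E else 0) := by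
          intro E; split_ifs <;> simp
        calc ∑ E, (if lev E = j.1 then (a + b) E else 0)
            = ∑ E, ((if lev E = j.1 then a E else 0) + (if lev E = j.1 then b E else 0)) :=
              Finset.sum_congr rfl fun E _ => this E
          _ = _ := by rw [Finset.sum_add_distrib]; rfl
      map_smul' := by
        intro r a
        funext j
        have : ∀ E, (if lev E = j.1 then (r • a) E else 0) =
            r * (if lev E = j.1 then a E else 0) := by
          intro E; split_ifs <;> simp
        calc ∑ E, (if lev E = j.1 then (r • a) E else 0)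
            = ∑ E, r * (if lev E = j.1 then a E else 0) :=
              Finset.sum_congr rfl fun E _ => this E
          _ = _ := by rw [← Finset.mul_sum]; rfl }
  have hker : LinearMap.ker s = CS lev := by
    ext c
    rw [LinearMap.mem_ker, mem_CS]
    constructor
    · intro h j
      by_cases hj : j ∈ Finset.univ.image lev
      · exact congrFun h ⟨j, hj⟩
      · apply Finset.sum_eq_zero
        intro E _
        rw [if_neg]
        intro hE
        exact hj (Finset.mem_image.2 ⟨E, Finset.mem_univ _, hE⟩)
    · intro h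
      funext j
      exact h j.1
  have h := LinearMap.finrank_range_add_finrank_ker s
  have h1 : Module.finrank ℚ (LinearMap.range s) ≤
      Module.finrank ℚ ({j // j ∈ Finset.univ.image lev} → ℚ) := Submodule.finrank_le _
  rw [Module.finrank_fintype_fun_eq_card, Fintype.card_coe] at h1
  rw [hker, Module.finrank_fintype_fun_eq_card] at h
  omega

theorem card_sum {J : ℕ} (hJ : ∀ E, lev E < J) :
    ∑ j ∈ Finset.range J, (Fintype.card {E // lev E = j} - 1) =
      Fintype.card Ω - (Finset.univ.image lev).card := by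
  classical
  have hsub : Finset.univ.image lev ⊆ Finset.range J := by
    intro j hj
    obtain ⟨E, _, rfl⟩ := Finset.mem_image.1 hj
    exact Finset.mem_range.2 (hJ E)
  rw [← Finset.sum_subset hsub]
  · have h1 : ∀ j ∈ Finset.univ.image lev, 1 ≤ Fintype.card {E // lev E = j} := by
      intro j hj
      obtain ⟨E, _, hE⟩ := Finset.mem_image.1 hj
      exact Fintype.card_pos_iff.2 ⟨⟨E, hE⟩⟩
    rw [Finset.sum_tsub_distrib _ h1, Finset.sum_const, smul_eq_mul, mul_one]
    congr 1
    have h2 := Finset.card_eq_sum_card_image lev (Finset.univ : Finset Ω)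
    rw [Finset.card_univ] at h2
    rw [h2]
    apply Finset.sum_congr rfl
    intro j _
    rw [Fintype.card_subtype]
  · intro j _ hj
    have : IsEmpty {E // lev E = j} := by
      constructor
      rintro ⟨E, hE⟩
      exact hj (Finset.mem_image.2 ⟨E, Finset.mem_univ _, hE⟩)
    rw [Fintype.card_eq_zero]
    rfl

omit [Fintype Ω] in
theorem telescope (J : ℕ) : Module.finrank ℚ (FJ vec lev 0) =
    ∑ j ∈ Finset.range J, Module.finrank ℚ ((FJ vec lev j).map (RJ vec lev j)) +
      Module.finrank ℚ (FJ vec lev J) := by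
  induction J with
  | zero => simp
  | succ J ih =>
    rw [ih, Finset.sum_range_succ, step J]
    ring

/-- The count. Proof: let `F j` be the space of the `φ : Ρ → ℚ` which vanish on the vectors of
level `< j`, `B j` the image of `F j` under `φ ↦ (dot φ (vec E))`, `E` of level `j`:
`dim B j = dim F j - dim F (j + 1)`, so `∑ dim B j = card Ρ` (`hspan`). `ζ` is orthogonal to `B j`
and nonzero, so `dim B j ≤ card (level j) - 1` for the nonempty levels. By `hind` (which holds for
rational `c` as well) the space of the `c` with `BSum lev c` injects into `Λ → ℚ`, so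
`∑ (card (level j) - 1) ≤ card Λ` (sum over the nonempty levels). So there is equality everywhere:
`Sp`, and `B j` is a hyperplane, so everything orthogonal to it is a multiple of `ζ`: `Uq`. -/
theorem cnt (hcard : Fintype.card Λ ≤ Fintype.card Ρ) (hζ : ∀ E, ζ E ≠ 0)
    (hR : ∀ j, InR vec lev j ζ) (hspan : ∀ φ : Ρ → ℚ, (∀ E, dot φ (vec E) = 0) → φ = 0)
    (hind : ∀ c : Ω → ℤ, BSum lev c → (∀ l, ∑ E, c E * ex E l = 0) → c = 0) :
    Fintype.card Λ = Fintype.card Ρ ∧ Uq vec lev ζ ∧ Sp ex lev := by
  classical
  -- the number of levels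
  obtain ⟨J, hJ⟩ : ∃ J : ℕ, ∀ E, lev E < J :=
    ⟨(Finset.univ.sup lev) + 1, fun E => Nat.lt_succ_of_le (Finset.le_sup (Finset.mem_univ E))⟩
  have hF0 : FJ vec lev 0 = ⊤ := by
    rw [eq_top_iff]
    intro φ _ E hE
    exact absurd hE (Nat.not_lt_zero _)
  have hFJ : FJ vec lev J = ⊥ := by
    rw [eq_bot_iff]
    intro φ hφ
    rw [Submodule.mem_bot]
    exact hspan φ fun E => hφ E (hJ E)
  have hT := telescope (vec := vec) (lev := lev) J
  rw [hF0, hFJ, finrank_bot, finrank_top, Module.finrank_fintype_fun_eq_card, add_zero] at hT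
  have hle : ∀ j ∈ Finset.range J, Module.finrank ℚ ((FJ vec lev j).map (RJ vec lev j)) ≤
      Fintype.card {E // lev E = j} - 1 := fun j _ => finrank_B_le hζ hR j
  have hsle := Finset.sum_le_sum hle
  -- the map to the exponents
  let g : (Ω → ℚ) →ₗ[ℚ] (Λ → ℚ) :=
    { toFun := fun c l => ∑ E, c E * (ex E l : ℚ)
      map_add' := by
        intro a b
        funext l
        simp [add_mul, Finset.sum_add_distrib]
      map_smul' := by
        intro r a
        funext l
        simp [mul_assoc, Finset.mul_sum] }
  let g' : CS lev →ₗ[ℚ] (Λ → ℚ) := g.domRestrict (CS lev)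
  have hinj : Function.Injective g' := by
    rw [← LinearMap.ker_eq_bot, eq_bot_iff]
    intro c hc
    rw [LinearMap.mem_ker] at hc
    rw [Submodule.mem_bot]
    have h := ind_rat hind c.1 c.2 (fun l => congrFun hc l)
    exact Subtype.ext h
  have h1 := LinearMap.finrank_le_finrank_of_injective hinj
  rw [Module.finrank_fintype_fun_eq_card] at h1
  have h2 := finrank_CS_ge (lev := lev)
  rw [← card_sum hJ] at h2
  have hcards : Fintype.card Λ = Fintype.card Ρ := by omega
  refine ⟨hcards, ?_, ?_⟩
  · -- uniqueness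
    have heq : ∑ j ∈ Finset.range J, Module.finrank ℚ ((FJ vec lev j).map (RJ vec lev j)) =
        ∑ j ∈ Finset.range J, (Fintype.card {E // lev E = j} - 1) := by omega
    have heq' := (Finset.sum_eq_sum_iff_of_le hle).1 heq
    intro j c hc
    by_cases hne : Nonempty {E // lev E = j}
    · obtain ⟨E₀, hE₀⟩ := hne
      refine ⟨c E₀ / ζ E₀, ?_⟩
      intro E hE
      by_cases hEE : E = E₀
      · subst hEE
        field_simp [hζ E]
      -- the quotient is one dimensional
      have hjJ : j ∈ Finset.range J := Finset.mem_range.2 (hE ▸ hJ E)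
      have hB := heq' j hjJ
      have hcpos : 0 < Fintype.card {E // lev E = j} := Fintype.card_pos_iff.2 ⟨⟨E₀, hE₀⟩⟩
      have hq := Submodule.finrank_quotient_add_finrank ((FJ vec lev j).map (RJ vec lev j))
      rw [Module.finrank_fintype_fun_eq_card] at hq
      have hq1 : Module.finrank ℚ (({E // lev E = j} → ℚ) ⧸
          ((FJ vec lev j).map (RJ vec lev j))) = 1 := by omega
      obtain ⟨v, hv, hall⟩ := finrank_eq_one_iff'.1 hq1
      obtain ⟨a, ha⟩ := hall (Submodule.Quotient.mk (Pi.single ⟨E, hE⟩ 1))
      obtain ⟨b, hb⟩ := hall (Submodule.Quotient.mk (Pi.single ⟨E₀, hE₀⟩ 1))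
      have hmem : b • (Pi.single ⟨E, hE⟩ 1 : {E // lev E = j} → ℚ) -
          a • (Pi.single ⟨E₀, hE₀⟩ 1 : {E // lev E = j} → ℚ) ∈
            (FJ vec lev j).map (RJ vec lev j) := by
        rw [← Submodule.Quotient.mk_eq_zero, Submodule.Quotient.mk_sub,
          Submodule.Quotient.mk_smul, Submodule.Quotient.mk_smul, ← ha, ← hb, smul_smul,
          smul_smul, mul_comm, sub_self]
      have hev : ∀ c' : Ω → ℂ, InR vec lev j c' → (b : ℂ) * c' E = (a : ℂ) * c' E₀ := by
        intro c' hc'
        have h := pair_zero hc' hmem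
        have hsum : ∑ E' : {E // lev E = j}, c' E'.1 *
            (((b • (Pi.single ⟨E, hE⟩ 1 : {E // lev E = j} → ℚ) -
              a • (Pi.single ⟨E₀, hE₀⟩ 1 : {E // lev E = j} → ℚ)) E' : ℚ) : ℂ) =
            (b : ℂ) * c' E - (a : ℂ) * c' E₀ := by
          have : ∀ E' : {E // lev E = j}, c' E'.1 *
            (((b • (Pi.single ⟨E, hE⟩ 1 : {E // lev E = j} → ℚ) -
              a • (Pi.single ⟨E₀, hE₀⟩ 1 : {E // lev E = j} → ℚ)) E' : ℚ) : ℂ) =
              (if E' = ⟨E, hE⟩ then (b : ℂ) * c' E else 0) -
                (if E' = ⟨E₀, hE₀⟩ then (a : ℂ) * c' E₀ else 0) := by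
            intro E'
            by_cases h1 : E' = ⟨E, hE⟩
            · by_cases h2 : E' = ⟨E₀, hE₀⟩
              · exfalso
                rw [h1] at h2
                exact hEE (congrArg Subtype.val h2)
              · subst h1
                simp [h2]
                ring
            · by_cases h2 : E' = ⟨E₀, hE₀⟩
              · subst h2
                simp [h1]
                ring
              · simp [h1, h2]
          simp only [this, Finset.sum_sub_distrib, Finset.sum_ite_eq', Finset.mem_univ, if_true]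
        rw [hsum] at h
        exact sub_eq_zero.1 h
      have hz := hev ζ (hR j)
      have hc1 := hev c hc
      have hb0 : (b : ℂ) ≠ 0 := by
        intro h0
        rw [h0, zero_mul] at hz
        have ha0 : (a : ℂ) = 0 := by
          rcases mul_eq_zero.1 hz.symm with h | h
          · exact h
          · exact absurd h (hζ E₀)
        have hb1 : b = 0 := by exact_mod_cast h0
        have hm0 : (Pi.single ⟨E₀, hE₀⟩ 1 : {E // lev E = j} → ℚ) ∈
            (FJ vec lev j).map (RJ vec lev j) := by
          rw [← Submodule.Quotient.mk_eq_zero, ← hb, hb1, zero_smul]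
        have h := pair_zero (hR j) hm0
        rw [Finset.sum_eq_single ⟨E₀, hE₀⟩] at h
        · simp at h
          exact hζ _ h
        · intro E' _ hE'
          simp [Pi.single_eq_of_ne hE']
        · intro hE'
          exact absurd (Finset.mem_univ _) hE'
      have hζ0 := hζ E₀
      rw [div_mul_eq_mul_div, eq_div_iff hζ0]
      apply mul_left_cancel₀ hb0
      calc (b : ℂ) * (c E * ζ E₀) = ((b : ℂ) * c E) * ζ E₀ := by ring
        _ = c E₀ * ((a : ℂ) * ζ E₀) := by rw [hc1]; ring
        _ = c E₀ * ((b : ℂ) * ζ E) := by rw [hz]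
        _ = (b : ℂ) * (c E₀ * ζ E) := by ring
    · refine ⟨0, ?_⟩
      intro E hE
      exact absurd ⟨⟨E, hE⟩⟩ hne
  · -- spanning
    have hfr : Module.finrank ℚ (CS lev) = Module.finrank ℚ (Λ → ℚ) := by
      rw [Module.finrank_fintype_fun_eq_card]
      omega
    have hsurj := (LinearMap.injective_iff_surjective_of_finrank_eq_finrank hfr).1 hinj
    intro v
    obtain ⟨c, hc⟩ := hsurj v
    exact ⟨c.1, c.2, fun l => congrFun hc l⟩

end Pool.Agent.MPb0eF
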