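import Pool.Agent.Lib.MP_b0e20b_ag_F.Ind
import Pool.Agent.Lib.MP_b0e20b_ag_F.Cnt

/-!
# MP_b0e20b_ag, project F: the growth exponents
-/

set_option autoImplicit false

open scoped BigOperators Topology
open Filter

namespace Pool.Agent.MPb0eF

variable {Ω Λ : Type} [Fintype Ω] [Fintype Λ] {z : Ω → ℕ → ℂ} {lev : Ω → ℕ} {ζ : Ω → ℂ}
  {ω : ℕ → ℝ} {h : Ω → ℝ} {x : Λ → ℕ → ℂ} {ex : Ω → Λ → ℤ} {κ : Ω → ℕ → ℝ} {k : Ω → ℝ}

/-- The exponents of the monomials with coefficients of sum zero in every level vanish in the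
limit. -/
theorem logs (hf : IsFlag z lev ζ) (hm : Mon z ω h x ex κ k) {c : Ω → ℤ} (hc : BSum lev c) :
    Tendsto (fun n => (∑ E, (c E : ℝ) * h E) +
      ∑ l, ((∑ E, c E * ex E l : ℤ) : ℝ) * (Real.log ‖x l n‖ / Real.log (ω n))) uf (𝓝 0) := by
  have h1 := (mon_lim hf hm hc).norm
  have hr : ‖∏ E, (ζ E / (k E : ℂ)) ^ c E‖ ≠ 0 := by
    rw [norm_ne_zero_iff, Finset.prod_ne_zero_iff]
    intro E _
    exact zpow_ne_zero _ (div_ne_zero (hf.ζ0 E) (by exact_mod_cast hm.k0 E))
  have h2 := (Real.continuousAt_log hr).tendsto.comp h1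
  have h3 : Tendsto (fun n => Real.log (ω n)) uf atTop := Real.tendsto_log_atTop.comp hm.top
  have h4 := h2.div_atTop h3
  refine h4.congr' ?_
  have h5 : ∀ᶠ n in uf, ∀ l, x l n ≠ 0 := eventually_all.2 hm.x0
  filter_upwards [h5, h3.eventually_gt_atTop 0] with n hn hl
  have h6 : ∀ l ∈ Finset.univ, ‖x l n ^ (∑ E, c E * ex E l)‖ ≠ 0 := by
    intro l _
    rw [norm_ne_zero_iff]
    exact zpow_ne_zero _ (hn l)
  have h7 : (0 : ℝ) < ω n ^ (∑ E, (c E : ℝ) * h E) := Real.rpow_pos_of_pos (hm.pos n) _
  simp only [Function.comp_apply, norm_mul, norm_prod]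
  rw [Complex.norm_real, Real.norm_of_nonneg h7.le, Real.log_mul h7.ne'
    (Finset.prod_ne_zero_iff.2 h6), Real.log_rpow (hm.pos n), Real.log_prod h6, add_div,
    mul_div_assoc, div_self hl.ne', mul_one, Finset.sum_div]
  congr 1
  apply Finset.sum_congr rfl
  intro l _
  rw [norm_zpow, Real.log_zpow, mul_div_assoc]

/-- The growth exponents exist. Proof: by `Sp` (clear the denominators) and `mon_lim` the quotient
`log ‖x l n‖ / log ω n` converges to a number `w l`; so `log ‖z E n‖ / log ω n` converges to
`val h ex w E`. The ratios `z E' / z E` inside a level have exponent zero. For `lev E < lev E'` the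
exponent of `z E' / z E` is `≤ 0`, and equality is excluded by `Gen`: by `Sp` there are a positive
integer `m` and `c : Ω → ℤ` with `BSum lev c` and `∑ c E * ex E l = m * (ex E' l - ex E l)`; then
`c - m * (δ E' - δ E)` is a relation as in `Gen`, so it is zero, but `BSum lev c` and
`lev E ≠ lev E'`. -/
theorem exists_w (hf : IsFlag z lev ζ) (hm : Mon z ω h x ex κ k) (hS : Sp ex lev)
    (hg : Gen h ex) : ∃ w : Λ → ℝ, Lev h ex w lev := by
  classical
  have hω : Tendsto (fun n => Real.log (ω n)) uf atTop := Real.tendsto_log_atTop.comp hm.top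
  -- integral coefficients
  have hint : ∀ v : Λ → ℚ, ∃ (D : ℤ) (c : Ω → ℤ), D ≠ 0 ∧ BSum lev c ∧
      ∀ l, ((∑ E, c E * ex E l : ℤ) : ℚ) = D * v l := by
    intro v
    obtain ⟨c, hc, hv⟩ := hS v
    obtain ⟨D, m, hD, hm'⟩ := clear c
    refine ⟨D, m, hD, ?_, ?_⟩
    · intro j
      have h1 := hc j
      have h2 : ((∑ E, (if lev E = j then m E else 0) : ℤ) : ℚ) = 0 := by
        push_cast
        calc ∑ E, (if lev E = j then (m E : ℚ) else 0)
            = ∑ E, (D : ℚ) * (if lev E = j then c E else 0) := by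
              apply Finset.sum_congr rfl
              intro E _
              split_ifs
              · rw [hm']
              · rw [mul_zero]
          _ = 0 := by rw [← Finset.mul_sum, h1, mul_zero]
      exact_mod_cast h2
    · intro l
      push_cast
      rw [← hv l, Finset.mul_sum]
      apply Finset.sum_congr rfl
      intro E _
      rw [← hm', mul_assoc]
  -- the growth exponents
  have hw : ∀ l, ∃ w : ℝ, Tendsto (fun n => Real.log ‖x l n‖ / Real.log (ω n)) uf (𝓝 w) := by
    intro l
    obtain ⟨D, c, hD, hc, hv⟩ := hint (fun l' => if l' = l then 1 else 0)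
    have h1 := logs hf hm hc
    have hD' : (D : ℝ) ≠ 0 := by exact_mod_cast hD
    have h2 : ∀ n, (∑ E, (c E : ℝ) * h E) +
        ∑ l', ((∑ E, c E * ex E l' : ℤ) : ℝ) * (Real.log ‖x l' n‖ / Real.log (ω n)) =
        (∑ E, (c E : ℝ) * h E) + D * (Real.log ‖x l n‖ / Real.log (ω n)) := by
      intro n
      congr 1
      rw [Finset.sum_eq_single l]
      · have h3 : (∑ E, c E * ex E l : ℤ) = D := by
          have := hv l
          simp only [if_true, mul_one] at this
          exact_mod_cast this
        rw [h3]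
      · intro l' _ hl'
        have h3 : (∑ E, c E * ex E l' : ℤ) = 0 := by
          have := hv l'
          rw [if_neg hl', mul_zero] at this
          exact_mod_cast this
        rw [h3]
        simp
      · intro hl
        exact absurd (Finset.mem_univ _) hl
    simp only [h2] at h1
    refine ⟨(0 - ∑ E, (c E : ℝ) * h E) / D, ?_⟩
    have h4 := (h1.sub_const (∑ E, (c E : ℝ) * h E)).div_const (D : ℝ)
    refine h4.congr fun n => ?_
    rw [add_sub_cancel_left, mul_div_cancel_left₀ _ hD']
  choose w hw using hw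
  refine ⟨w, ?_⟩
  -- the relation of the values
  have hval : ∀ c : Ω → ℤ, BSum lev c → ∑ E, (c E : ℝ) * h E +
      ∑ l, ((∑ E, c E * ex E l : ℤ) : ℝ) * w l = 0 := by
    intro c hc
    have h1 := logs hf hm hc
    have h2 : Tendsto (fun n => (∑ E, (c E : ℝ) * h E) +
      ∑ l, ((∑ E, c E * ex E l : ℤ) : ℝ) * (Real.log ‖x l n‖ / Real.log (ω n))) uf
        (𝓝 ((∑ E, (c E : ℝ) * h E) + ∑ l, ((∑ E, c E * ex E l : ℤ) : ℝ) * w l)) := by
      refine tendsto_const_nhds.add (tendsto_finsetSum _ fun l _ => ?_)
      exact (hw l).const_mul _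
    exact tendsto_nhds_unique h2 h1
  -- the growth of the elements
  have hz : ∀ E, Tendsto (fun n => Real.log ‖z E n‖ / Real.log (ω n)) uf (𝓝 (val h ex w E)) := by
    intro E
    have hk : Tendsto (fun n => Real.log ‖κ E n‖) uf (𝓝 (Real.log ‖k E‖)) :=
      (Real.continuousAt_log (norm_ne_zero_iff.2 (hm.k0 E))).tendsto.comp (hm.lim E).norm
    have hk' := hk.div_atTop hω
    have hs : Tendsto (fun n => Real.log ‖κ E n‖ / Real.log (ω n) + (h E +
        ∑ l, (ex E l : ℝ) * (Real.log ‖x l n‖ / Real.log (ω n)))) uf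
        (𝓝 (0 + (h E + ∑ l, (ex E l : ℝ) * w l))) := by
      refine hk'.add (tendsto_const_nhds.add (tendsto_finsetSum _ fun l _ => ?_))
      exact (hw l).const_mul _
    rw [zero_add] at hs
    refine hs.congr' ?_
    have h5 : ∀ᶠ n in uf, ∀ l, x l n ≠ 0 := eventually_all.2 hm.x0
    have h6 : ∀ᶠ n in uf, κ E n ≠ 0 := (hm.lim E).eventually_ne (hm.k0 E)
    filter_upwards [h5, h6, hω.eventually_gt_atTop 0, hm.eq E] with n hn hκ hl he
    have h8 : ∀ l ∈ Finset.univ, ‖x l n ^ ex E l‖ ≠ 0 := by
      intro l _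
      rw [norm_ne_zero_iff]
      exact zpow_ne_zero _ (hn l)
    have h7 : (0 : ℝ) < ω n ^ h E := Real.rpow_pos_of_pos (hm.pos n) _
    rw [he, norm_mul, norm_mul, norm_prod, Complex.norm_real, Complex.norm_real,
      Real.norm_of_nonneg h7.le, Real.log_mul (mul_ne_zero (norm_ne_zero_iff.2 hκ) h7.ne')
      (Finset.prod_ne_zero_iff.2 h8), Real.log_mul (norm_ne_zero_iff.2 hκ) h7.ne',
      Real.log_rpow (hm.pos n), Real.log_prod h8, add_div, add_div, mul_div_assoc (h E),
      div_self hl.ne', mul_one, add_assoc, Finset.sum_div]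
    congr 2
    apply Finset.sum_congr rfl
    intro l _
    rw [norm_zpow, Real.log_zpow, mul_div_assoc]
  constructor
  · intro E E' hE
    have hl : Tendsto (fun n => Real.log ‖z E' n / z E n‖ / Real.log (ω n)) uf (𝓝 0) := by
      have h1 : ‖ζ E' / ζ E‖ ≠ 0 := norm_ne_zero_iff.2 (div_ne_zero (hf.ζ0 E') (hf.ζ0 E))
      exact ((Real.continuousAt_log h1).tendsto.comp (hf.sim E E' hE).norm).div_atTop hω
    have hd := (hz E').sub (hz E)
    have : Tendsto (fun n => Real.log ‖z E' n / z E n‖ / Real.log (ω n)) uf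
        (𝓝 (val h ex w E' - val h ex w E)) := by
      refine hd.congr' ?_
      filter_upwards [hf.z0 E, hf.z0 E'] with n h1 h2
      rw [norm_div, Real.log_div (norm_ne_zero_iff.2 h2) (norm_ne_zero_iff.2 h1), sub_div]
    have := tendsto_nhds_unique this hl
    linarith
  · intro E E' hE
    have hle : val h ex w E' ≤ val h ex w E := by
      have hd := (hz E').sub (hz E)
      have h1 : ∀ᶠ n in uf, Real.log ‖z E' n‖ / Real.log (ω n) -
          Real.log ‖z E n‖ / Real.log (ω n) ≤ 0 := by
        have h2 : ∀ᶠ n in uf, ‖z E' n / z E n‖ < 1 := by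
          have h20 := (hf.dom E E' hE).norm
          rw [norm_zero] at h20
          exact h20.eventually_lt_const one_pos
        filter_upwards [h2, hω.eventually_gt_atTop 0, hf.z0 E, hf.z0 E'] with n h3 h4 h5 h6
        rw [← sub_div, ← Real.log_div (norm_ne_zero_iff.2 h6) (norm_ne_zero_iff.2 h5),
          ← norm_div]
        exact div_nonpos_of_nonpos_of_nonneg (Real.log_nonpos (norm_nonneg _) h3.le) h4.le
      have h7 := le_of_tendsto hd h1
      linarith
    rcases hle.lt_or_eq with hlt | heq
    · exact hlt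
    exfalso
    obtain ⟨D, c, hD, hc, hv⟩ := hint (fun l => (ex E' l : ℚ) - ex E l)
    have hEE : E ≠ E' := by
      rintro rfl
      exact lt_irrefl _ hE
    have hv' : ∀ l, ∑ E'', c E'' * ex E'' l = D * (ex E' l - ex E l) := by
      intro l
      have := hv l
      exact_mod_cast this
    -- the relation
    have hδ : ∀ f : Ω → ℤ, ∑ E'', (D * ((if E'' = E' then 1 else 0) -
        (if E'' = E then 1 else 0))) * f E'' = D * (f E' - f E) := by
      intro f
      simp only [mul_assoc, ← Finset.mul_sum, sub_mul, Finset.sum_sub_distrib, ite_mul, one_mul,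
        zero_mul, Finset.sum_ite_eq', Finset.mem_univ, if_true]
    have hsum : ∑ E'', c E'' = 0 := by
      have h1 : ∑ j ∈ Finset.univ.image lev, ∑ E'', (if lev E'' = j then c E'' else 0) =
          ∑ E'', c E'' := by
        rw [Finset.sum_comm]
        apply Finset.sum_congr rfl
        intro E'' _
        rw [Finset.sum_ite_eq, if_pos (Finset.mem_image_of_mem _ (Finset.mem_univ _))]
      rw [← h1]
      exact Finset.sum_eq_zero fun j _ => hc j
    have hgen := hg (fun E'' => c E'' - D * ((if E'' = E' then 1 else 0) -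
        (if E'' = E then 1 else 0))) ?_ ?_ ?_
    · have h1 : ∀ E'', c E'' = D * ((if E'' = E' then 1 else 0) -
          (if E'' = E then 1 else 0)) := fun E'' => sub_eq_zero.1 (congrFun hgen E'')
      have h2 := hc (lev E')
      rw [Finset.sum_eq_single E'] at h2
      · rw [if_pos rfl, h1 E', if_pos rfl, if_neg hEE.symm] at h2
        apply hD
        linarith
      · intro E'' _ hE''
        split_ifs with h3
        · rw [h1 E'', if_neg hE'', if_neg]
          · ring
          · rintro rfl
            exact absurd h3 hE.ne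
        · rfl
      · intro h3
        exact absurd (Finset.mem_univ _) h3
    · have h1 := hδ (fun _ => 1)
      simp only [mul_one] at h1
      rw [Finset.sum_sub_distrib, hsum, h1]
      ring
    · intro l
      have h1 := hδ (fun E'' => ex E'' l)
      calc ∑ E'', (c E'' - D * ((if E'' = E' then 1 else 0) -
            (if E'' = E then 1 else 0))) * ex E'' l
          = ∑ E'', c E'' * ex E'' l - ∑ E'', (D * ((if E'' = E' then 1 else 0) -
            (if E'' = E then 1 else 0))) * ex E'' l := by
            rw [← Finset.sum_sub_distrib]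
            apply Finset.sum_congr rfl
            intro E'' _
            ring
        _ = 0 := by rw [h1, hv' l]; ring
    · have h1 := hval c hc
      have h2 : ∀ E'' : Ω, ((c E'' - D * ((if E'' = E' then 1 else 0) -
          (if E'' = E then 1 else 0)) : ℤ) : ℝ) * h E'' = (c E'' : ℝ) * h E'' -
          ((if E'' = E' then (D : ℝ) * h E' else 0) - (if E'' = E then (D : ℝ) * h E else 0)) := by
        intro E''
        push_cast
        by_cases h3 : E'' = E'
        · subst h3
          simp [hEE.symm]
          ring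
        · by_cases h4 : E'' = E
          · subst h4
            simp [hEE]
            ring
          · simp [h3, h4]
      simp only [h2, Finset.sum_sub_distrib, Finset.sum_ite_eq', Finset.mem_univ, if_true]
      have h3 : ∑ l, ((∑ E'', c E'' * ex E'' l : ℤ) : ℝ) * w l =
          (D : ℝ) * (∑ l, (ex E' l : ℝ) * w l - ∑ l, (ex E l : ℝ) * w l) := by
        rw [← Finset.sum_sub_distrib, Finset.mul_sum]
        apply Finset.sum_congr rfl
        intro l _
        rw [hv' l]
        push_cast
        ring
      have h4 : (D : ℝ) * (h E' - h E) =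
          -((D : ℝ) * (∑ l, (ex E' l : ℝ) * w l - ∑ l, (ex E l : ℝ) * w l)) := by
        have : h E' - h E = -(∑ l, (ex E' l : ℝ) * w l - ∑ l, (ex E l : ℝ) * w l) := by
          simp only [val] at heq
          linarith
        rw [this]
        ring
      rw [h3] at h1
      linarith

end Pool.Agent.MPb0eF
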