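import Pool.Agent.Lib.MP_b0e20b_ag_F.Defs

/-!
# MP_b0e20b_ag, project F: the relations of the levels
-/

set_option autoImplicit false

open scoped BigOperators Topology
open Filter

namespace Pool.Agent.MPb0eF

variable {Ω Ρ : Type} [Fintype Ω] [Fintype Ρ] {z : Ω → ℕ → ℂ} {lev : Ω → ℕ} {ζ : Ω → ℂ}
  {vec : Ω → Ρ → ℤ}

/-- The relation of the level `j`. Proof: apply `φ` to the relation, divide by `z E₀`, `E₀` of level
`j` (if there is none there is nothing to prove), and take the limit: the terms of smaller level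
vanish, the ones of larger level tend to zero. -/
theorem inR_of (hf : IsFlag z lev ζ) {a : Ω → ℕ → ℂ} {α : Ω → ℂ}
    (ha : ∀ E, Tendsto (a E) uf (𝓝 (α E)))
    (hrel : ∀ᶠ n in uf, ∀ l, ∑ E, z E n * a E n * (vec E l : ℂ) = 0) (j : ℕ) :
    InR vec lev j fun E => ζ E * α E := by
  classical
  intro φ hφ
  by_cases hE : ∃ E₀, lev E₀ = j
  swap
  · refine Finset.sum_eq_zero fun E _ => ?_
    rw [if_neg]
    exact fun h => hE ⟨E, h⟩
  obtain ⟨E₀, hE₀⟩ := hE
  have h1 : ∀ᶠ n in uf, ∑ E, z E n / z E₀ n * a E n * ((dot φ (vec E) : ℚ) : ℂ) = 0 := by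
    filter_upwards [hrel] with n hn
    have h2 : ∑ l, (φ l : ℂ) * ∑ E, z E n * a E n * (vec E l : ℂ) = 0 :=
      Finset.sum_eq_zero fun l _ => by rw [hn l, mul_zero]
    have h3 : ∑ E, z E n * a E n * ((dot φ (vec E) : ℚ) : ℂ) = 0 := by
      rw [← h2]
      simp_rw [Finset.mul_sum]
      rw [Finset.sum_comm]
      refine Finset.sum_congr rfl fun E _ => ?_
      unfold dot
      push_cast
      rw [Finset.mul_sum]
      refine Finset.sum_congr rfl fun l _ => ?_
      ring
    have h4 : ∑ E, z E n / z E₀ n * a E n * ((dot φ (vec E) : ℚ) : ℂ) =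
        (z E₀ n)⁻¹ * ∑ E, z E n * a E n * ((dot φ (vec E) : ℚ) : ℂ) := by
      rw [Finset.mul_sum]
      refine Finset.sum_congr rfl fun E _ => ?_
      rw [div_eq_mul_inv]
      ring
    rw [h4, h3, mul_zero]
  have h2 : Tendsto (fun n => ∑ E, z E n / z E₀ n * a E n * ((dot φ (vec E) : ℚ) : ℂ)) uf
      (𝓝 (∑ E, if lev E = j then ζ E / ζ E₀ * α E * ((dot φ (vec E) : ℚ) : ℂ) else 0)) := by
    refine tendsto_finsetSum _ fun E _ => ?_
    rcases lt_trichotomy (lev E) j with h | h | h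
    · rw [if_neg h.ne, hφ E h]
      simp
    · rw [if_pos h]
      exact ((hf.sim E₀ E (hE₀.trans h.symm)).mul (ha E)).mul tendsto_const_nhds
    · rw [if_neg h.ne']
      have h3 := ((hf.dom E₀ E (hE₀.trans_lt h)).mul (ha E)).mul
        (tendsto_const_nhds (x := ((dot φ (vec E) : ℚ) : ℂ)))
      rw [zero_mul, zero_mul] at h3
      exact h3
  have h3 : (∑ E, if lev E = j then ζ E / ζ E₀ * α E * ((dot φ (vec E) : ℚ) : ℂ) else 0) = 0 :=
    tendsto_nhds_unique_of_eventuallyEq h2 tendsto_const_nhds h1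
  have h4 : (∑ E, (if lev E = j then ζ E * α E * ((dot φ (vec E) : ℚ) : ℂ) else 0)) =
      ζ E₀ * ∑ E, if lev E = j then ζ E / ζ E₀ * α E * ((dot φ (vec E) : ℚ) : ℂ) else 0 := by
    rw [Finset.mul_sum]
    refine Finset.sum_congr rfl fun E _ => ?_
    split_ifs
    · have := hf.ζ0 E₀
      field_simp
    · rw [mul_zero]
  change (∑ E, (if lev E = j then ζ E * α E * ((dot φ (vec E) : ℚ) : ℂ) else 0)) = 0
  rw [h4, h3, mul_zero]

/-- `inR_of` for `a = 1`. -/
theorem inR_self (hf : IsFlag z lev ζ)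
    (hrel : ∀ᶠ n in uf, ∀ l, ∑ E, z E n * (vec E l : ℂ) = 0) (j : ℕ) : InR vec lev j ζ := by
  have h := inR_of hf (a := fun _ _ => 1) (α := fun _ => 1) (fun _ => tendsto_const_nhds)
    (vec := vec) (by
      filter_upwards [hrel] with n hn l
      rw [← hn l]
      exact Finset.sum_congr rfl fun E _ => by rw [mul_one]) j
  simpa using h

/-- Conjugation (the values of the linear forms are rational). -/
theorem InR.conj {j : ℕ} {c : Ω → ℂ} (h : InR vec lev j c) :
    InR vec lev j fun E => starRingEnd ℂ (c E) := by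
  intro φ hφ
  have h1 := congrArg (starRingEnd ℂ) (h φ hφ)
  rw [map_sum, map_zero] at h1
  refine Eq.trans (Finset.sum_congr rfl fun E _ => ?_) h1
  split_ifs
  · rw [map_mul]
    congr 1
    exact (map_ratCast (starRingEnd ℂ) _).symm
  · rw [map_zero]

end Pool.Agent.MPb0eF
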