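import Pool.Agent.Lib.MP_b0e20b_ag_F.Ind
import Pool.Agent.Lib.MP_b0e20b_ag_F.Rel

/-!
# MP_b0e20b_ag, project F: reality of the leading parts
-/

set_option autoImplicit false

open scoped BigOperators Topology
open Filter

namespace Pool.Agent.MPb0eF

variable {Ω Λ Ρ : Type} [Fintype Ω] [Fintype Λ] [Fintype Ρ] {z : Ω → ℕ → ℂ} {lev : Ω → ℕ}
  {ζ : Ω → ℂ} {vec : Ω → Ρ → ℤ} {ex : Ω → Λ → ℤ} {ω : ℕ → ℝ} {h : Ω → ℝ} {x : Λ → ℕ → ℂ}
  {κ : Ω → ℕ → ℝ} {k : Ω → ℝ}

private theorem Rea_t (hζ : ∀ E, ζ E ≠ 0) (hU : Uq vec lev ζ) (hR : ∀ j, InR vec lev j ζ) :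
    ∃ t : ℕ → ℂ, ∀ E, starRingEnd ℂ (ζ E) = t (lev E) * ζ E ∧ t (lev E) ≠ 0 := by
  choose t ht using fun j => hU j _ (hR j).conj
  refine ⟨t, fun E => ?_⟩
  have h1 := ht (lev E) E rfl
  refine ⟨h1, fun h0 => hζ E ?_⟩
  rw [h0, zero_mul] at h1
  simpa using h1

private theorem Rea_zpow {ι : Type} (a : ℂ) (ha : a ≠ 0) (s : Finset ι) (f : ι → ℤ) :
    ∏ i ∈ s, a ^ f i = a ^ ∑ i ∈ s, f i := by
  classical
  induction s using Finset.induction_on with
  | empty => simp
  | insert i s hi ih =>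
    rw [Finset.prod_insert hi, Finset.sum_insert hi, ih, zpow_add₀ ha]

private theorem Rea_one {t : ℕ → ℂ} (ht : ∀ E, t (lev E) ≠ 0) {c : Ω → ℤ} (hc : BSum lev c) :
    ∏ E, t (lev E) ^ c E = 1 := by
  classical
  rw [← Finset.prod_fiberwise_of_maps_to (s := Finset.univ) (t := Finset.univ.image lev)
    (g := lev) (fun E _ => Finset.mem_image_of_mem _ (Finset.mem_univ E))]
  refine Finset.prod_eq_one fun j hj => ?_
  obtain ⟨E0, -, rfl⟩ := Finset.mem_image.1 hj
  have h1 : ∀ E ∈ Finset.univ.filter (fun E => lev E = lev E0),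
      t (lev E) ^ c E = t (lev E0) ^ c E := by
    intro E hE
    rw [(Finset.mem_filter.1 hE).2]
  rw [Finset.prod_congr rfl h1, Rea_zpow _ (ht E0), Finset.sum_filter, hc (lev E0), zpow_zero]

/-- The ratios inside the levels are real. Proof: `InR.conj` and `Uq`. -/
theorem ratio_real (hζ : ∀ E, ζ E ≠ 0) (hU : Uq vec lev ζ) (hR : ∀ j, InR vec lev j ζ) {E E' : Ω}
    (he : lev E = lev E') : starRingEnd ℂ (ζ E' / ζ E) = ζ E' / ζ E := by
  obtain ⟨t, ht⟩ := Rea_t hζ hU hR
  have h0 := (ht E').2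
  rw [map_div₀, (ht E).1, (ht E').1, he, mul_div_mul_left _ _ h0]

private theorem Rea_prod (hζ : ∀ E, ζ E ≠ 0) (hU : Uq vec lev ζ) (hR : ∀ j, InR vec lev j ζ)
    {c : Ω → ℤ} (hc : BSum lev c) :
    starRingEnd ℂ (∏ E, (ζ E / (k E : ℂ)) ^ c E) = ∏ E, (ζ E / (k E : ℂ)) ^ c E := by
  obtain ⟨t, ht⟩ := Rea_t hζ hU hR
  have h1 : ∀ E, starRingEnd ℂ ((ζ E / (k E : ℂ)) ^ c E) =
      t (lev E) ^ c E * (ζ E / (k E : ℂ)) ^ c E := by
    intro E
    rw [map_zpow₀, map_div₀, Complex.conj_ofReal, (ht E).1, mul_div_assoc, mul_zpow]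
  rw [map_prod, Finset.prod_congr rfl fun E _ => h1 E, Finset.prod_mul_distrib,
    Rea_one (fun E => (ht E).2) hc, one_mul]

/-- Reality of the leading parts. Proof: `mon_lim` for the coefficients `c` of `LC`; the limit is
real and nonzero by `ratio_real` (the product over a level with coefficient sum zero is a product of
ratios); in the first case `x l n * ω n ^ r` converges to a nonzero real number, in the second case
its square converges to a positive number. -/
theorem conj_lim [DecidableEq Λ] (hf : IsFlag z lev ζ) (hm : Mon z ω h x ex κ k)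
    (hU : Uq vec lev ζ) (hR : ∀ j, InR vec lev j ζ) {l : Λ} (hl : LC ex lev ζ k l) :
    Tendsto (fun n => starRingEnd ℂ (x l n) / x l n) uf (𝓝 1) := by
  rcases hl with ⟨c, hc, hex⟩ | ⟨c, hc, hex, r, hr, hT⟩
  · have h1 := mon_lim hf hm hc
    have hreal := Rea_prod (k := k) hf.ζ0 hU hR hc
    have hne : ∏ E, (ζ E / (k E : ℂ)) ^ c E ≠ 0 :=
      Finset.prod_ne_zero_iff.2 fun E _ => zpow_ne_zero _
        (div_ne_zero (hf.ζ0 E) (by exact_mod_cast hm.k0 E))
    generalize ∏ E, (ζ E / (k E : ℂ)) ^ c E = T at h1 hreal hne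
    have h2 := ((Complex.continuous_conj.tendsto T).comp h1).div h1 hne
    rw [hreal, div_self hne] at h2
    refine h2.congr fun n => ?_
    have h3 : ∏ l', x l' n ^ (∑ E, c E * ex E l') = x l n := by
      rw [Finset.prod_eq_single l]
      · rw [hex l, if_pos rfl, zpow_one]
      · intro l' _ hl'
        rw [hex l', if_neg hl', zpow_zero]
      · intro h'
        exact absurd (Finset.mem_univ l) h'
    have h4 : ((ω n ^ (∑ E, (c E : ℝ) * h E) : ℝ) : ℂ) ≠ 0 := by
      exact_mod_cast (Real.rpow_pos_of_pos (hm.pos n) _).ne'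
    simp only [Function.comp_apply, Pi.div_apply]
    rw [h3, map_mul, Complex.conj_ofReal, mul_div_mul_left _ _ h4]
  · have h1 := mon_lim hf hm hc
    rw [hT] at h1
    have hne : (r : ℂ) ≠ 0 := by exact_mod_cast hr.ne'
    have h2 := ((Complex.continuous_ofReal.tendsto _).comp h1.norm).div h1 hne
    have h5 : ((‖(r : ℂ)‖ : ℝ) : ℂ) / (r : ℂ) = 1 := by
      rw [Complex.norm_real, Real.norm_of_nonneg hr.le, div_self hne]
    rw [h5] at h2
    refine h2.congr' ?_
    filter_upwards [hm.x0 l] with n hn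
    have h3 : ∏ l', x l' n ^ (∑ E, c E * ex E l') = x l n ^ 2 := by
      rw [Finset.prod_eq_single l]
      · rw [hex l, if_pos rfl]
        norm_cast
      · intro l' _ hl'
        rw [hex l', if_neg hl', zpow_zero]
      · intro h'
        exact absurd (Finset.mem_univ l) h'
    have hω := Real.rpow_pos_of_pos (hm.pos n) (∑ E, (c E : ℝ) * h E)
    simp only [Function.comp_apply, Pi.div_apply]
    rw [h3]
    generalize ω n ^ (∑ E, (c E : ℝ) * h E) = a at hω
    have ha : (a : ℂ) ≠ 0 := by exact_mod_cast hω.ne'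
    have h6 : ((‖(a : ℂ) * x l n ^ 2‖ : ℝ) : ℂ) = (a : ℂ) * (starRingEnd ℂ (x l n) * x l n) := by
      rw [norm_mul, Complex.norm_real, Real.norm_of_nonneg hω.le, norm_pow, Complex.ofReal_mul,
        Complex.ofReal_pow, mul_comm (starRingEnd ℂ (x l n)), Complex.mul_conj,
        Complex.normSq_eq_norm_sq, Complex.ofReal_pow]
    rw [h6]
    field_simp

end Pool.Agent.MPb0eF
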