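import Pool.Agent.Lib.MP_b0e20b_ag_F.Ord
import Pool.Agent.Lib.MP_b0e20b_ag_F.Rel

/-!
# MP_b0e20b_ag, project F: rigidity
-/

set_option autoImplicit false

open scoped BigOperators Topology
open Filter

namespace Pool.Agent.MPb0eF

variable {Ω Λ Ρ : Type} [Fintype Ω] [Fintype Λ] [Fintype Ρ] {z : Ω → ℕ → ℂ} {lev : Ω → ℕ}
  {ζ : Ω → ℂ} {vec : Ω → Ρ → ℤ} {ex : Ω → Λ → ℤ}

/-- The derivative of a monomial at the point `1`. -/
private theorem rig_deriv (m : Λ → ℤ) :
    (fun x : Λ → ℂ => ∏ l, (1 + x l) ^ m l - 1 - ∑ l, (m l : ℂ) * x l) =o[𝓝 0]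
      fun x : Λ → ℂ => x := by
  classical
  have h1 : ∀ l ∈ (Finset.univ : Finset Λ), HasFDerivAt (fun x : Λ → ℂ => (1 + x l) ^ m l)
      ((m l : ℂ) • (ContinuousLinearMap.proj (R := ℂ) (φ := fun _ : Λ => ℂ) l)) 0 := by
    intro l _
    have h2 : HasFDerivAt (fun x : Λ → ℂ => 1 + x l)
        (ContinuousLinearMap.proj (R := ℂ) (φ := fun _ : Λ => ℂ) l) 0 :=
      (hasFDerivAt_apply l (0 : Λ → ℂ)).const_add 1
    have h3 : HasDerivAt (fun y : ℂ => y ^ m l) ((m l : ℂ) * 1 ^ (m l - 1))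
        (1 + (0 : Λ → ℂ) l) := by
      have h4 := hasDerivAt_zpow (m l) (1 : ℂ) (Or.inl one_ne_zero)
      simpa using h4
    have h5 := h3.comp_hasFDerivAt (0 : Λ → ℂ) h2
    simpa [Function.comp_def] using h5
  have h2 := HasFDerivAt.finsetProd (u := (Finset.univ : Finset Λ)) h1
  have h3 := h2.isLittleO
  refine (h3.congr ?_ ?_)
  · intro x
    simp
  · intro x
    simp

/-- The linear part of a monomial. -/
theorem mon_var (m : Λ → ℤ) {ε : Λ → ℕ → ℂ} (hε : ∀ l, Tendsto (ε l) uf (𝓝 0)) :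
    ∃ ρ : ℕ → ℂ, Tendsto ρ uf (𝓝 0) ∧ ∀ᶠ n in uf,
      ∏ l, (1 + ε l n) ^ m l - 1 =
        ∑ l, (m l : ℂ) * ε l n + ρ n * ((∑ l, ‖ε l n‖ : ℝ) : ℂ) := by
  have ht : Tendsto (fun n => fun l => ε l n) uf (𝓝 (0 : Λ → ℂ)) := by
    rw [tendsto_pi_nhds]
    exact fun l => hε l
  have h1 := (rig_deriv m).comp_tendsto ht
  have h2 : ((fun x : Λ → ℂ => x) ∘ fun n => fun l => ε l n) =O[uf]
      fun n => ((∑ l, ‖ε l n‖ : ℝ) : ℂ) := by
    refine Asymptotics.IsBigO.of_bound 1 (Eventually.of_forall fun n => ?_)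
    rw [one_mul, Complex.norm_real,
      Real.norm_of_nonneg (Finset.sum_nonneg fun _ _ => norm_nonneg _)]
    change ‖fun l => ε l n‖ ≤ _
    rw [pi_norm_le_iff_of_nonneg (Finset.sum_nonneg fun _ _ => norm_nonneg _)]
    intro l
    exact Finset.single_le_sum (f := fun l => ‖ε l n‖) (fun _ _ => norm_nonneg _)
      (Finset.mem_univ l)
  have h3 := (h1.trans_isBigO h2).tendsto_div_nhds_zero
  refine ⟨_, h3, Eventually.of_forall fun n => ?_⟩
  by_cases h0 : (∑ l, ‖ε l n‖ : ℝ) = 0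
  · have h4 : ∀ l, ε l n = 0 := by
      intro l
      rw [Finset.sum_eq_zero_iff_of_nonneg fun _ _ => norm_nonneg _] at h0
      exact norm_eq_zero.1 (h0 l (Finset.mem_univ l))
    simp [h4]
  · have h5 : ((∑ l, ‖ε l n‖ : ℝ) : ℂ) ≠ 0 := by exact_mod_cast h0
    rw [div_mul_cancel₀ _ h5]
    simp only [Function.comp_apply]
    ring

/-- Rigidity: two solutions with the same leading parts are equal; `ε l` is the relative difference
of the unknown `l`. Proof: otherwise `e = ∑ l, ‖ε l n‖` is nonzero (ultrafilter), `ε l / e`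
converges to `η l` with `∑ ‖η l‖ = 1`, the difference of the two relations divided by `e` gives by
`inR_of` (and `mon_var`) that `ζ E * ∑ l, ex E l * η l` is in `InR`, so by `Uq`
`∑ l, ex E l * η l` depends only on the level, and `Sp` gives `η = 0`. -/
theorem rig (hf : IsFlag z lev ζ) (hU : Uq vec lev ζ) (hS : Sp ex lev)
    (hrel : ∀ᶠ n in uf, ∀ l, ∑ E, z E n * (vec E l : ℂ) = 0) {ε : Λ → ℕ → ℂ}
    (hε : ∀ l, Tendsto (ε l) uf (𝓝 0))
    (hrel' : ∀ᶠ n in uf, ∀ l,
      ∑ E, z E n * (∏ l', (1 + ε l' n) ^ ex E l') * (vec E l : ℂ) = 0) :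
    ∀ᶠ n in uf, ∀ l, ε l n = 0 := by
  classical
  rcases Ultrafilter.em (Filter.hyperfilter ℕ) (fun n => ∀ l, ε l n = 0) with h | h
  · exact h
  exfalso
  have h' : ∀ᶠ n in uf, ¬ ∀ l, ε l n = 0 := h
  -- the size of the difference
  obtain ⟨e, he⟩ : ∃ e : ℕ → ℝ, e = fun n => ∑ l, ‖ε l n‖ := ⟨_, rfl⟩
  have he' : ∀ n, e n = ∑ l, ‖ε l n‖ := fun n => by rw [he]
  have hpos : ∀ᶠ n in uf, 0 < e n := by
    filter_upwards [h'] with n hn
    push Not at hn
    obtain ⟨l, hl⟩ := hn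
    rw [he']
    exact Finset.sum_pos' (fun _ _ => norm_nonneg _) ⟨l, Finset.mem_univ l, norm_pos_iff.2 hl⟩
  have hη : ∀ l, ∃ c : ℂ, Tendsto (fun n => ε l n / (e n : ℂ)) uf (𝓝 c) := by
    intro l
    refine bdd_lim (C := 1) ?_
    filter_upwards [hpos] with n hn
    rw [norm_div, Complex.norm_real, Real.norm_of_nonneg hn.le, div_le_one hn, he']
    exact Finset.single_le_sum (f := fun l => ‖ε l n‖) (fun _ _ => norm_nonneg _)
      (Finset.mem_univ l)
  choose η hη using hη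
  have hsum : ∑ l, ‖η l‖ = 1 := by
    have h1 : Tendsto (fun n => ∑ l, ‖ε l n / (e n : ℂ)‖) uf (𝓝 (∑ l, ‖η l‖)) :=
      tendsto_finsetSum _ fun l _ => (hη l).norm
    refine tendsto_nhds_unique h1 ((tendsto_const_nhds (x := (1 : ℝ))).congr' ?_)
    filter_upwards [hpos] with n hn
    have h2 : ∀ l, ‖ε l n / (e n : ℂ)‖ = ‖ε l n‖ / e n := by
      intro l
      rw [norm_div, Complex.norm_real, Real.norm_of_nonneg hn.le]
    rw [Finset.sum_congr rfl fun l _ => h2 l, ← Finset.sum_div, ← he', div_self hn.ne']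
  -- the limits of the coefficients
  obtain ⟨α, hα⟩ : ∃ α : Ω → ℂ, α = fun E => ∑ l, (ex E l : ℂ) * η l := ⟨_, rfl⟩
  have ha : ∀ E, Tendsto (fun n => (∏ l', (1 + ε l' n) ^ ex E l' - 1) / (e n : ℂ)) uf
      (𝓝 (α E)) := by
    intro E
    obtain ⟨ρ, hρ, h1⟩ := mon_var (ex E) hε
    have h2 : Tendsto (fun n => ∑ l, (ex E l : ℂ) * (ε l n / (e n : ℂ)) + ρ n) uf
        (𝓝 (α E + 0)) := by
      rw [hα]
      exact (tendsto_finsetSum _ fun l _ => (hη l).const_mul _).add hρ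
    rw [add_zero] at h2
    refine h2.congr' ?_
    filter_upwards [h1, hpos] with n hn hn'
    have h3 : (e n : ℂ) ≠ 0 := by exact_mod_cast hn'.ne'
    rw [hn, ← he', add_div, mul_div_assoc, div_self h3, mul_one, Finset.sum_div]
    congr 1
    exact Finset.sum_congr rfl fun l _ => by rw [mul_div_assoc]
  have hr : ∀ᶠ n in uf, ∀ l, ∑ E, z E n *
      ((∏ l', (1 + ε l' n) ^ ex E l' - 1) / (e n : ℂ)) * (vec E l : ℂ) = 0 := by
    filter_upwards [hrel, hrel'] with n h1 h2 l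
    have h3 : ∑ E, z E n * ((∏ l', (1 + ε l' n) ^ ex E l' - 1) / (e n : ℂ)) * (vec E l : ℂ) =
        (∑ E, z E n * (∏ l', (1 + ε l' n) ^ ex E l') * (vec E l : ℂ) -
          ∑ E, z E n * (vec E l : ℂ)) * (e n : ℂ)⁻¹ := by
      rw [← Finset.sum_sub_distrib, Finset.sum_mul]
      refine Finset.sum_congr rfl fun E _ => ?_
      rw [div_eq_mul_inv]
      ring
    rw [h3, h1 l, h2 l, sub_zero, zero_mul]
  -- the limits depend only on the level
  have ht : ∀ j, ∃ t : ℂ, ∀ E, lev E = j → α E = t := by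
    intro j
    obtain ⟨t, ht⟩ := hU j _ (inR_of hf ha hr j)
    refine ⟨t, fun E hE => ?_⟩
    have h1 := ht E hE
    rw [mul_comm t] at h1
    exact mul_left_cancel₀ (hf.ζ0 E) h1
  choose t ht using ht
  have h0 : ∀ l, η l = 0 := by
    intro l
    obtain ⟨c, hc, hc'⟩ := hS fun l' => if l' = l then 1 else 0
    have h1 : ∑ E, (c E : ℂ) * α E = η l := by
      rw [hα]
      simp_rw [Finset.mul_sum]
      rw [Finset.sum_comm]
      have h2 : ∀ l', ∑ E, (c E : ℂ) * ((ex E l' : ℂ) * η l') = if l' = l then η l' else 0 := by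
        intro l'
        have h3 := congrArg (fun q : ℚ => (q : ℂ)) (hc' l')
        push_cast at h3
        have h4 : ∑ E, (c E : ℂ) * ((ex E l' : ℂ) * η l') =
            (∑ E, (c E : ℂ) * (ex E l' : ℂ)) * η l' := by
          rw [Finset.sum_mul]
          exact Finset.sum_congr rfl fun E _ => by ring
        rw [h4, h3]
        split_ifs <;> simp
      rw [Finset.sum_congr rfl fun l' _ => h2 l']
      simp
    have h2 : ∑ E, (c E : ℂ) * α E = 0 := by
      have h3 : ∀ E ∈ (Finset.univ : Finset Ω), (c E : ℂ) * α E =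
          ∑ j ∈ Finset.univ.image lev, t j * (if lev E = j then (c E : ℂ) else 0) := by
        intro E _
        rw [Finset.sum_eq_single (lev E)]
        · rw [if_pos rfl, ht (lev E) E rfl, mul_comm]
        · intro j _ hj
          rw [if_neg hj.symm, mul_zero]
        · intro hE
          exact absurd (Finset.mem_image_of_mem lev (Finset.mem_univ E)) hE
      rw [Finset.sum_congr rfl h3, Finset.sum_comm]
      refine Finset.sum_eq_zero fun j _ => ?_
      rw [← Finset.mul_sum]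
      have h4 := congrArg (fun q : ℚ => (q : ℂ)) (hc j)
      have h5 : ((∑ E, (if lev E = j then c E else 0) : ℚ) : ℂ) =
          ∑ E, (if lev E = j then (c E : ℂ) else 0) := by
        rw [Rat.cast_sum]
        refine Finset.sum_congr rfl fun E _ => ?_
        split_ifs <;> simp
      rw [h5] at h4
      rw [h4]
      simp
    rw [← h1, h2]
  have h1 : ∑ l, ‖η l‖ = 0 := Finset.sum_eq_zero fun l _ => by rw [h0 l, norm_zero]
  rw [hsum] at h1
  exact one_ne_zero h1

end Pool.Agent.MPb0eF
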