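import Pool.Agent.Lib.MP_b0e20b_ag_F.Ord
import Pool.Agent.Lib.MP_b0e20b_ag_F.Rel
import Pool.Agent.Lib.MP_b0e20b_ag_F.Cnt
import Pool.Agent.Lib.MP_b0e20b_ag_F.ExW
import Pool.Agent.Lib.MP_b0e20b_ag_F.Rig
import Pool.Agent.Lib.MP_b0e20b_ag_F.Rea

/-!
# MP_b0e20b_ag, project F: the abstract theorems
-/

set_option autoImplicit false

open scoped BigOperators Topology
open Filter

namespace Pool.Agent.MPb0eF

variable {Ω Λ Ρ : Type} [Fintype Ω] [Fintype Λ] [Fintype Ρ] {z : Ω → ℕ → ℂ} {vec : Ω → Ρ → ℤ}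
  {ex : Ω → Λ → ℤ} {ω : ℕ → ℝ} {h : Ω → ℝ} {x : Λ → ℕ → ℂ} {κ : Ω → ℕ → ℝ} {k : Ω → ℝ}

omit [Fintype Ω] in
/-- The elements do not vanish. -/
private theorem Abs_z0 (hm : Mon z ω h x ex κ k) (E : Ω) : ∀ᶠ n in uf, z E n ≠ 0 := by
  have h1 : ∀ᶠ n in uf, κ E n ≠ 0 := (hm.lim E).eventually_ne (hm.k0 E)
  have h2 : ∀ᶠ n in uf, ∀ l, x l n ≠ 0 := Filter.eventually_all.2 hm.x0
  filter_upwards [h1, h2, hm.eq E] with n a b e
  rw [e]
  refine mul_ne_zero (mul_ne_zero (by exact_mod_cast a) ?_) ?_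
  · exact_mod_cast (Real.rpow_pos_of_pos (hm.pos n) _).ne'
  · exact Finset.prod_ne_zero_iff.2 fun l _ => zpow_ne_zero _ (b l)

/-- There are no solutions with more relations than unknowns. Proof: `exists_flag`, `inR_self`,
`ind`, `cnt`. -/
theorem no_sol (hm : Mon z ω h x ex κ k) (hg : Gen h ex)
    (hcard : Fintype.card Λ < Fintype.card Ρ)
    (hspan : ∀ φ : Ρ → ℚ, (∀ E, dot φ (vec E) = 0) → φ = 0)
    (hrel : ∀ᶠ n in uf, ∀ l, ∑ E, z E n * (vec E l : ℂ) = 0) : False := by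
  obtain ⟨lev, ζ, hf⟩ := exists_flag z (Abs_z0 hm)
  have hR := inR_self hf hrel
  have := (cnt hcard.le hf.ζ0 hR hspan fun c hc he => ind hf hm hg hc he).1
  omega

/-- The abstract reality theorem. Proof: `exists_flag`, `inR_self`, `ind`, `cnt`, `exists_w`,
`conj_lim` and `rig` with `ε l n = conj (x l n) / x l n - 1`: `conj (z E n) = z E n * ∏ ..`. -/
theorem real_of [DecidableEq Λ] (hm : Mon z ω h x ex κ k) (hg : Gen h ex)
    (hcard : Fintype.card Λ = Fintype.card Ρ)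
    (hspan : ∀ φ : Ρ → ℚ, (∀ E, dot φ (vec E) = 0) → φ = 0)
    (hrel : ∀ᶠ n in uf, ∀ l, ∑ E, z E n * (vec E l : ℂ) = 0) (hC : CC vec ex h k) :
    ∀ᶠ n in uf, ∀ l, (x l n).im = 0 := by
  obtain ⟨lev, ζ, hf⟩ := exists_flag z (Abs_z0 hm)
  have hR := inR_self hf hrel
  obtain ⟨-, hU, hS⟩ := cnt hcard.le hf.ζ0 hR hspan fun c hc he => ind hf hm hg hc he
  obtain ⟨w, hw⟩ := exists_w hf hm hS hg
  have hlc := hC w lev ζ hw hf.ζ0 hR hU hS
  have hε : ∀ l, Tendsto (fun n => starRingEnd ℂ (x l n) / x l n - 1) uf (𝓝 0) := by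
    intro l
    have h1 := (conj_lim hf hm hU hR (hlc l)).sub_const 1
    simpa using h1
  have h2 : ∀ᶠ n in uf, ∀ l, x l n ≠ 0 := Filter.eventually_all.2 hm.x0
  have h3 : ∀ᶠ n in uf, ∀ E, z E n =
      (κ E n : ℂ) * ((ω n ^ h E : ℝ) : ℂ) * ∏ l, x l n ^ ex E l := Filter.eventually_all.2 hm.eq
  have h4 := rig (ε := fun l n => starRingEnd ℂ (x l n) / x l n - 1) hf hU hS hrel hε (by
    filter_upwards [h2, h3, hrel] with n a b e l
    have e1 : ∀ E, z E n * (∏ l', (1 + (starRingEnd ℂ (x l' n) / x l' n - 1)) ^ ex E l') =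
        starRingEnd ℂ (z E n) := by
      intro E
      rw [b E, map_mul, map_mul, map_prod, Complex.conj_ofReal, Complex.conj_ofReal, mul_assoc,
        ← Finset.prod_mul_distrib]
      congr 1
      refine Finset.prod_congr rfl fun l' _ => ?_
      rw [map_zpow₀, ← mul_zpow]
      congr 1
      have := a l'
      field_simp
      ring
    have e2 : ∑ E, starRingEnd ℂ (z E n) * (vec E l : ℂ) = 0 := by
      have := congrArg (starRingEnd ℂ) (e l)
      simpa [map_sum, map_mul] using this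
    rw [← e2]
    exact Finset.sum_congr rfl fun E _ => by rw [e1 E])
  filter_upwards [h4, h2] with n e a l
  have e1 := e l
  have e2 : starRingEnd ℂ (x l n) = x l n := by
    have := a l
    have e3 : starRingEnd ℂ (x l n) / x l n = 1 := by linear_combination e1
    rwa [div_eq_one_iff_eq this] at e3
  exact Complex.conj_eq_iff_im.1 e2

end Pool.Agent.MPb0eF
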