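import Mathlib
import Pool.Agent.Lib.MP_b0e20b_ag_Q.Fin

/-!
# MP_b0e20b_ag, project F: reduction to an open set of coefficients with real solutions
-/

set_option autoImplicit false

open scoped BigOperators Topology
open Filter

namespace Pool.Agent.MPb0eF

open MPb0eQ (Sct blk Kx toC Tensor total IsReal crit realCrit IsGenericNumber)

/-- If all solutions are real for an open set of coefficients, then all odd numbers up to the generic
number are attained.

Proof. Take `N, K, P` of `MPb0eQ.coords (blk n)`. By `MPb0eP.dense_ne_real` there is `c` near `c0` with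
`eval (toC c) P ≠ 0` such that all complex solutions are real. So there are `N` complex solutions and
`N` real ones (`MPb0eQ.G_toC`: the map `x ↦ (x : ℂ)` is a bijection from the real solutions to the complex
ones). So `N ≤ K`, hence `K = N`. The rest is the proof of `MPb0eQ.main` (in `Q/Fin.lean`), which
translates coefficients to tensors. -/
theorem attained_all {d : ℕ} (hd : 3 ≤ d) (n : Fin d → ℕ) (hn : ∀ i, 1 ≤ n i)
    (h : ∃ c0 : Sct (blk n) → ℝ, ∀ᶠ c in 𝓝 c0, ∀ x : Kx n → ℂ,
      MPb0eQ.G (blk n) (toC (blk n) c) x = 0 → ∀ l, (x l).im = 0) :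
    ∃ N : ℕ, IsGenericNumber n N ∧ Odd N ∧
      ∀ k : ℕ, (∃ T : Tensor n, total T = 1 ∧ IsReal T ∧ (crit T).encard = N ∧
        (realCrit T).encard = k) ↔ Odd k ∧ k ≤ N := by
  obtain ⟨N, K, P, hP, hN, hNo, hKo, hKN, hk, -⟩ :=
    MPb0eQ.coords (blk n) hd (fun i => ⟨⟨i, ⟨0, hn i⟩⟩, rfl⟩)
  obtain ⟨c0, hc0⟩ := h
  obtain ⟨c, hc, hcP⟩ := MPb0eP.dense_ne_real P hP c0 _ hc0
  have hcN : {x | MPb0eQ.G (blk n) (toC (blk n) c) x = 0}.encard = N := hN _ hcP
  have hre : {x | MPb0eQ.G (blk n) (toC (blk n) c) x = 0} =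
      (fun x : Kx n → ℝ => fun k => (x k : ℂ)) '' {x | MPb0eQ.G (blk n) c x = 0} := by
    ext x
    constructor
    · intro hx
      have h1 : MPb0eQ.G (blk n) (toC (blk n) c) x = 0 := hx
      have h2 := hc x h1
      have h3 : (fun k => (((x k).re : ℝ) : ℂ)) = x := by
        funext k
        exact Complex.ext (by simp) (by simp [h2 k])
      refine ⟨fun k => (x k).re, ?_, h3⟩
      change MPb0eQ.G (blk n) c (fun k => (x k).re) = 0
      funext k
      have h4 := MPb0eQ.G_toC (blk n) c (fun k => (x k).re) k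
      rw [h3, h1] at h4
      exact Complex.ofReal_injective (by simpa using h4.symm)
    · rintro ⟨y, hy, rfl⟩
      have h1 : MPb0eQ.G (blk n) c y = 0 := hy
      change MPb0eQ.G (blk n) (toC (blk n) c) (fun k => (y k : ℂ)) = 0
      funext k
      rw [MPb0eQ.G_toC, h1]
      simp
  have hinj : Function.Injective (fun x : Kx n → ℝ => fun k => (x k : ℂ)) := by
    intro x y hxy
    funext k
    exact Complex.ofReal_injective (congrFun hxy k)
  have hcR : {x | MPb0eQ.G (blk n) c x = 0}.encard = N := by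
    rw [← hinj.encard_image, ← hre, hcN]
  have hNK : N ≤ K := ((hk N).1 ⟨c, hcN, hcR⟩).2
  have hKN' : K = N := le_antisymm hKN hNK
  rw [hKN'] at hk
  refine ⟨N, MPb0eQ.generic_of P hP hN, hNo, ?_⟩
  intro k
  rw [← hk k]
  constructor
  · rintro ⟨T, _, hr, h1, h2⟩
    obtain ⟨c, hc⟩ := MPb0eQ.par_real T hr
    refine ⟨c, ?_, ?_⟩
    · rw [← hc, ← MPb0eQ.crit_encard, h1]
    · rw [← MPb0eQ.realCrit_encard T c hc, h2]
  · rintro ⟨c, h1, h2⟩
    classical
    set c' : Sct (blk n) → ℝ := fun s => if s.1 = ∅ then 1 else c s with hc'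
    have e1 : ∀ x, MPb0eQ.G (blk n) (toC (blk n) c') x = MPb0eQ.G (blk n) (toC (blk n) c) x := by
      intro x
      apply MPb0eQ.G_empty
      intro s hs
      simp [toC, hc', hs]
    have e2 : ∀ x, MPb0eQ.G (blk n) c' x = MPb0eQ.G (blk n) c x := by
      intro x
      apply MPb0eQ.G_empty
      intro s hs
      simp [hc', hs]
    refine ⟨MPb0eQ.ten (toC (blk n) c'), ?_, MPb0eQ.ten_real c', ?_, ?_⟩
    · rw [← MPb0eQ.par_empty _ (by simp), MPb0eQ.par_ten]
      simp [toC, hc']
    · rw [MPb0eQ.crit_encard, MPb0eQ.par_ten]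
      simp only [e1]
      exact h1
    · rw [MPb0eQ.realCrit_encard (MPb0eQ.ten (toC (blk n) c')) c' (MPb0eQ.par_ten _)]
      simp only [e2]
      exact h2

end Pool.Agent.MPb0eF
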