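import Pool.Agent.Lib.MP_b0e20b_ag_F.ZC

/-!
# MP_b0e20b_ag, project F: solutions with some `s i = 0`

`Z` is the set of the vanishing coordinates, `Y` the (nonempty) set of the `i` with `s i = 0`. For
`Y = {i}` the relation of the block `i` is multiplied by the product of the other `s j`. The
relations of the other blocks get generic heights `r j`.
-/

set_option autoImplicit false

open scoped BigOperators Topology
open Filter

namespace Pool.Agent.MPb0eF

open MPb0eQ (Sct dS sq PA G toC)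

variable {κ : Type} [Fintype κ] [DecidableEq κ] {d : ℕ} (bl : κ → Fin d) (Z : Finset κ)
  (Y : Finset (Fin d))

/-- The elements. -/
abbrev EA : Type := NZ bl Z ⊕ {k : κ // k ∉ Z} ⊕ Fin d ⊕ {i : Fin d // i ∉ Y}

/-- The unknowns. -/
abbrev UA : Type := {k : κ // k ∉ Z} ⊕ {i : Fin d // i ∉ Y}

/-- The vectors of the elements. -/
def vA : EA bl Z Y → Un κ d → ℤ
  | .inl S, .inl k => if k ∈ S.1.1.1 ∧ S.1.1.1 ∩ Z ⊆ {k} then 1 else 0
  | .inl _, .inr _ => 0
  | .inr (.inl k), .inl k' => if k' = k.1 ∧ Y = {bl k.1} then -1 else 0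
  | .inr (.inl k), .inr i => if i = bl k.1 then 1 else 0
  | .inr (.inr (.inl _)), .inl _ => 0
  | .inr (.inr (.inl i)), .inr j => if j = i then 1 else 0
  | .inr (.inr (.inr _)), .inl _ => 0
  | .inr (.inr (.inr i)), .inr j => if j = i.1 then -1 else 0

/-- The exponents of the elements. -/
def eA : EA bl Z Y → UA Z Y → ℤ
  | .inl S, .inl k => if k.1 ∈ S.1.1.1 then 1 else 0
  | .inl _, .inr _ => 0
  | .inr (.inl k), .inl k' => if k' = k then 2 else 0
  | .inr (.inl k), .inr _ => if Y = {bl k.1} then 1 else 0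
  | .inr (.inr (.inl _)), .inl _ => 0
  | .inr (.inr (.inl i)), .inr _ => if Y = {i} then 1 else 0
  | .inr (.inr (.inr _)), .inl _ => 0
  | .inr (.inr (.inr i)), .inr j => if j = i then 1 else 0

/-- The heights of the elements. -/
def hA (h : NS bl → ℝ) (r : Fin d → ℝ) : EA bl Z Y → ℝ
  | .inl S => h S.1
  | .inr (.inl k) => if Y = {bl k.1} then 0 else r (bl k.1)
  | .inr (.inr (.inl i)) => if Y = {i} then 0 else r i
  | .inr (.inr (.inr i)) => r i.1

/-- The values of the elements (`u i = ω ^ r i`). -/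
noncomputable def zA (u : Fin d → ℂ) (c : Sct bl → ℂ) (x : κ → ℂ) : EA bl Z Y → ℂ
  | .inl S => c S.1.1 * ∏ k ∈ S.1.1.1 \ Z, x k
  | .inr (.inl k) => x k.1 ^ 2 * if Y = {bl k.1} then ∏ j ∈ Yᶜ, sq bl x j else u (bl k.1)
  | .inr (.inr (.inl i)) => if Y = {i} then ∏ j ∈ Yᶜ, sq bl x j else u i
  | .inr (.inr (.inr i)) => sq bl x i.1 * u i.1

/-- The unknowns of a point. -/
noncomputable def yA (x : κ → ℂ) : UA Z Y → ℂ
  | .inl k => x k.1
  | .inr i => sq bl x i.1

variable {bl Z Y}

/-- Sums over the monomials in `NZ`. -/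
private theorem ZA_sum {f : Sct bl → ℂ}
    (hf : ∀ s, f s ≠ 0 → s.1.Nonempty ∧ (s.1 ∩ Z).card ≤ 1) :
    ∑ S : NZ bl Z, f S.1.1 = ∑ s, f s := by
  have e1 : ∑ S : NZ bl Z, f S.1.1 =
      ∑ S ∈ Finset.univ.filter (fun S : NS bl => (S.1.1 ∩ Z).card ≤ 1), f S.1 :=
    (Finset.sum_subtype _ (by simp) (fun S : NS bl => f S.1)).symm
  have e2 : ∑ S : NS bl, (if (S.1.1 ∩ Z).card ≤ 1 then f S.1 else 0) =
      ∑ s ∈ Finset.univ.filter (fun s : Sct bl => s.1.Nonempty),
        (if (s.1 ∩ Z).card ≤ 1 then f s else 0) :=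
    (Finset.sum_subtype _ (by simp)
      (fun s : Sct bl => if (s.1 ∩ Z).card ≤ 1 then f s else 0)).symm
  rw [e1, Finset.sum_filter, e2, Finset.sum_filter]
  apply Finset.sum_congr rfl
  intro s _
  by_cases hs : f s = 0
  · simp [hs]
  · obtain ⟨h1, h2⟩ := hf s hs
    rw [if_pos h1, if_pos h2]

/-- The sum over the monomials in the relation of `k`. -/
private theorem ZA_mono {c : Sct bl → ℂ} {x : κ → ℂ} (h0 : ∀ k, x k = 0 ↔ k ∈ Z) (k : κ) :
    ∑ S : NZ bl Z, (c S.1.1 * ∏ l ∈ S.1.1.1 \ Z, x l) *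
      (((if k ∈ S.1.1.1 ∧ S.1.1.1 ∩ Z ⊆ {k} then 1 else 0 : ℤ)) : ℂ) =
      (if k ∈ Z then 1 else x k) * dS bl c x {k} := by
  have e : ∑ S : NZ bl Z, (c S.1.1 * ∏ l ∈ S.1.1.1 \ Z, x l) *
      (((if k ∈ S.1.1.1 ∧ S.1.1.1 ∩ Z ⊆ {k} then 1 else 0 : ℤ)) : ℂ) =
      ∑ s : Sct bl, if k ∈ s.1 ∧ s.1 ∩ Z ⊆ {k} then c s * ∏ l ∈ s.1 \ Z, x l else 0 := by
    rw [← ZA_sum (Z := Z) (f := fun s : Sct bl =>
      if k ∈ s.1 ∧ s.1 ∩ Z ⊆ {k} then c s * ∏ l ∈ s.1 \ Z, x l else 0)]
    · apply Finset.sum_congr rfl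
      intro S _
      by_cases hS : k ∈ S.1.1.1 ∧ S.1.1.1 ∩ Z ⊆ {k}
      · rw [if_pos hS, if_pos hS, Int.cast_one, mul_one]
      · rw [if_neg hS, if_neg hS, Int.cast_zero, mul_zero]
    · intro s hs
      by_cases hS : k ∈ s.1 ∧ s.1 ∩ Z ⊆ {k}
      · exact ⟨⟨k, hS.1⟩, (Finset.card_le_card hS.2).trans (by simp)⟩
      · rw [if_neg hS] at hs
        exact absurd rfl hs
  rw [e, dS, Finset.mul_sum]
  apply Finset.sum_congr rfl
  intro s _
  by_cases hk : k ∈ s.1
  · have hk' : {k} ⊆ s.1 := Finset.singleton_subset_iff.2 hk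
    rw [if_pos hk']
    by_cases hZ : s.1 ∩ Z ⊆ {k}
    · rw [if_pos ⟨hk, hZ⟩]
      by_cases hkZ : k ∈ Z
      · rw [if_pos hkZ, one_mul]
        have e1 : s.1 \ Z = s.1 \ {k} := by
          ext l
          simp only [Finset.mem_sdiff, Finset.mem_singleton]
          constructor
          · rintro ⟨hl, hlZ⟩
            exact ⟨hl, fun h => hlZ (h ▸ hkZ)⟩
          · rintro ⟨hl, hlk⟩
            refine ⟨hl, fun h => hlk ?_⟩
            exact Finset.mem_singleton.1 (hZ (Finset.mem_inter.2 ⟨hl, h⟩))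
        rw [e1]
      · rw [if_neg hkZ]
        have e1 : s.1 \ Z = s.1 := by
          apply Finset.sdiff_eq_self_of_disjoint
          rw [Finset.disjoint_left]
          intro l hl hlZ
          have h2 := Finset.mem_singleton.1 (hZ (Finset.mem_inter.2 ⟨hl, hlZ⟩))
          exact hkZ (h2 ▸ hlZ)
        rw [e1, ← Finset.mul_prod_erase s.1 x hk, Finset.sdiff_singleton_eq_erase]
        ring
    · rw [if_neg (fun h => hZ h.2)]
      obtain ⟨l, hl, hlk⟩ := Finset.not_subset.1 hZ
      rw [Finset.mem_inter] at hl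
      rw [Finset.prod_eq_zero (i := l) (Finset.mem_sdiff.2 ⟨hl.1, hlk⟩) ((h0 l).2 hl.2)]
      ring
  · rw [if_neg (fun h => hk h.1), if_neg (fun h => hk (Finset.singleton_subset_iff.1 h)),
      mul_zero]

/-- The squares of the block `i`. -/
private theorem ZA_sq {x : κ → ℂ} (h0 : ∀ k, x k = 0 ↔ k ∈ Z) (i : Fin d) :
    sq bl x i = 1 + ∑ k : {k : κ // k ∉ Z}, if i = bl k.1 then x k.1 ^ 2 else 0 := by
  rw [MPb0eQ.sq]
  congr 1
  have e1 : ∑ k : {k : κ // k ∉ Z}, (if i = bl k.1 then x k.1 ^ 2 else 0) =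
      ∑ k ∈ Finset.univ.filter (fun k : κ => k ∉ Z), (if i = bl k then x k ^ 2 else 0) :=
    (Finset.sum_subtype _ (by simp) (fun k : κ => if i = bl k then x k ^ 2 else 0)).symm
  rw [e1, Finset.sum_filter]
  apply Finset.sum_congr rfl
  intro k _
  by_cases hk : k ∈ Z
  · rw [if_neg (not_not.2 hk), (h0 k).2 hk]
    simp
  · rw [if_pos hk]
    by_cases hi : i = bl k
    · rw [if_pos hi, if_pos hi.symm]
    · rw [if_neg hi, if_neg (fun h => hi h.symm)]

/-- The relations. Proof: `G bl c x k = 0`, multiplied by `x k` if `k ∉ Z`; the terms with a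
coordinate in `Z` vanish and `PA bl x {bl k} = 0` if `Y ≠ {bl k}`. -/
theorem relA {u : Fin d → ℂ} {c : Sct bl → ℂ} {x : κ → ℂ} (h : G bl c x = 0)
    (h0 : ∀ k, x k = 0 ↔ k ∈ Z) (h1 : ∀ i, sq bl x i = 0 ↔ i ∈ Y) (hY : Y.Nonempty)
    (l : Un κ d) : ∑ E, zA bl Z Y u c x E * (vA bl Z Y E l : ℂ) = 0 := by
  rw [Fintype.sum_sum_type, Fintype.sum_sum_type, Fintype.sum_sum_type]
  cases l with
  | inl k =>
    have hk : x k * PA bl x {bl k} - dS bl c x {k} = 0 := congrFun h k
    have e1 : ∑ S : NZ bl Z, zA bl Z Y u c x (.inl S) * (vA bl Z Y (.inl S) (.inl k) : ℂ) =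
        (if k ∈ Z then 1 else x k) * dS bl c x {k} := ZA_mono h0 k
    have e2 : ∑ k' : {k : κ // k ∉ Z}, zA bl Z Y u c x (.inr (.inl k')) *
        (vA bl Z Y (.inr (.inl k')) (.inl k) : ℂ) =
        - ((if k ∈ Z then 1 else x k) * (x k * PA bl x {bl k})) := by
      have e3 : ∀ k' : {k : κ // k ∉ Z}, zA bl Z Y u c x (.inr (.inl k')) *
          (vA bl Z Y (.inr (.inl k')) (.inl k) : ℂ) =
          if k = k'.1 then - (x k ^ 2 * PA bl x {bl k}) else 0 := by
        intro k'
        change x k'.1 ^ 2 * (if Y = {bl k'.1} then ∏ j ∈ Yᶜ, sq bl x j else u (bl k'.1)) *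
          ((if k = k'.1 ∧ Y = {bl k'.1} then -1 else 0 : ℤ) : ℂ) = _
        by_cases hkk : k = k'.1
        · rw [if_pos hkk, hkk]
          by_cases hYk : Y = {bl k'.1}
          · rw [if_pos hYk, if_pos ⟨rfl, hYk⟩, PA, hYk]
            push_cast
            ring
          · have hc : ¬ (k'.1 = k'.1 ∧ Y = {bl k'.1}) := fun h => hYk h.2
            rw [if_neg hc, Int.cast_zero, mul_zero]
            obtain ⟨j, hj, hjk⟩ : ∃ j ∈ Y, j ≠ bl k'.1 := by
              by_contra hcon
              push Not at hcon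
              exact hYk (Finset.eq_singleton_iff_nonempty_unique_mem.2 ⟨hY, hcon⟩)
            rw [PA, Finset.prod_eq_zero (i := j) (by simpa using hjk) ((h1 j).2 hj)]
            ring
        · have hc : ¬ (k = k'.1 ∧ Y = {bl k'.1}) := fun h => hkk h.1
          rw [if_neg hkk, if_neg hc, Int.cast_zero, mul_zero]
      rw [Finset.sum_congr rfl (fun k' _ => e3 k')]
      by_cases hkZ : k ∈ Z
      · rw [if_pos hkZ, (h0 k).2 hkZ]
        rw [Finset.sum_eq_zero]
        · ring
        · intro k' _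
          have hc : ¬ (k = k'.1) := by
            intro h
            rw [h] at hkZ
            exact k'.2 hkZ
          rw [if_neg hc]
      · rw [if_neg hkZ, Finset.sum_eq_single (⟨k, hkZ⟩ : {k : κ // k ∉ Z})]
        · rw [if_pos rfl]
          ring
        · intro k' _ hk'
          rw [if_neg (fun h => hk' (Subtype.ext h.symm))]
        · intro hcon
          exact absurd (Finset.mem_univ _) hcon
    have e4 : ∑ i : Fin d, zA bl Z Y u c x (.inr (.inr (.inl i))) *
        (vA bl Z Y (.inr (.inr (.inl i))) (.inl k) : ℂ) = 0 := by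
      apply Finset.sum_eq_zero
      intro i _
      change _ * ((0 : ℤ) : ℂ) = 0
      rw [Int.cast_zero, mul_zero]
    have e5 : ∑ i : {i : Fin d // i ∉ Y}, zA bl Z Y u c x (.inr (.inr (.inr i))) *
        (vA bl Z Y (.inr (.inr (.inr i))) (.inl k) : ℂ) = 0 := by
      apply Finset.sum_eq_zero
      intro i _
      change _ * ((0 : ℤ) : ℂ) = 0
      rw [Int.cast_zero, mul_zero]
    rw [e1, e2, e4, e5]
    linear_combination (-(if k ∈ Z then 1 else x k)) * hk
  | inr i =>
    obtain ⟨W, hW⟩ : ∃ W : Fin d → ℂ, ∀ i, W i = if Y = {i} then ∏ j ∈ Yᶜ, sq bl x j else u i :=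
      ⟨_, fun _ => rfl⟩
    have e1 : ∑ S : NZ bl Z, zA bl Z Y u c x (.inl S) * (vA bl Z Y (.inl S) (.inr i) : ℂ) = 0 := by
      apply Finset.sum_eq_zero
      intro S _
      change _ * ((0 : ℤ) : ℂ) = 0
      rw [Int.cast_zero, mul_zero]
    have e2 : ∑ k : {k : κ // k ∉ Z}, zA bl Z Y u c x (.inr (.inl k)) *
        (vA bl Z Y (.inr (.inl k)) (.inr i) : ℂ) =
        W i * ∑ k : {k : κ // k ∉ Z}, if i = bl k.1 then x k.1 ^ 2 else 0 := by
      rw [Finset.mul_sum]
      apply Finset.sum_congr rfl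
      intro k _
      change x k.1 ^ 2 * (if Y = {bl k.1} then ∏ j ∈ Yᶜ, sq bl x j else u (bl k.1)) *
          ((if i = bl k.1 then 1 else 0 : ℤ) : ℂ) = _
      by_cases hi : i = bl k.1
      · rw [if_pos hi, if_pos hi, ← hi, ← hW i]
        push_cast
        ring
      · rw [if_neg hi, if_neg hi, Int.cast_zero, mul_zero, mul_zero]
    have e4 : ∑ i' : Fin d, zA bl Z Y u c x (.inr (.inr (.inl i'))) *
        (vA bl Z Y (.inr (.inr (.inl i'))) (.inr i) : ℂ) = W i := by
      rw [Finset.sum_eq_single i]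
      · change (if Y = {i} then ∏ j ∈ Yᶜ, sq bl x j else u i) *
          ((if i = i then 1 else 0 : ℤ) : ℂ) = _
        rw [if_pos rfl, ← hW i, Int.cast_one, mul_one]
      · intro i' _ hi'
        change _ * ((if i = i' then 1 else 0 : ℤ) : ℂ) = 0
        rw [if_neg (fun h => hi' h.symm), Int.cast_zero, mul_zero]
      · intro hcon
        exact absurd (Finset.mem_univ _) hcon
    have e5 : ∑ i' : {i : Fin d // i ∉ Y}, zA bl Z Y u c x (.inr (.inr (.inr i'))) *
        (vA bl Z Y (.inr (.inr (.inr i'))) (.inr i) : ℂ) = - (W i * sq bl x i) := by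
      by_cases hi : i ∈ Y
      · rw [(h1 i).2 hi, mul_zero, neg_zero]
        apply Finset.sum_eq_zero
        intro i' _
        change _ * ((if i = i'.1 then -1 else 0 : ℤ) : ℂ) = 0
        have hc : ¬ (i = i'.1) := by
          intro h
          rw [h] at hi
          exact i'.2 hi
        rw [if_neg hc, Int.cast_zero, mul_zero]
      · have hYi : Y ≠ {i} := fun h => hi (h ▸ Finset.mem_singleton_self i)
        rw [Finset.sum_eq_single (⟨i, hi⟩ : {i : Fin d // i ∉ Y})]
        · change sq bl x i * u i * ((if i = i then -1 else 0 : ℤ) : ℂ) = _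
          rw [if_pos rfl, hW i, if_neg hYi]
          push_cast
          ring
        · intro i' _ hi'
          change _ * ((if i = i'.1 then -1 else 0 : ℤ) : ℂ) = 0
          rw [if_neg (fun h => hi' (Subtype.ext h.symm)), Int.cast_zero, mul_zero]
        · intro hcon
          exact absurd (Finset.mem_univ _) hcon
    rw [e1, e2, e4, e5, ZA_sq h0 i]
    ring

/-- The elements are monomials in the unknowns. -/
theorem monA {u : Fin d → ℂ} {c : Sct bl → ℂ} {x : κ → ℂ} (h0 : ∀ l, yA bl Z Y x l ≠ 0)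
    (E : EA bl Z Y) :
    zA bl Z Y u c x E = (match E with
      | .inl S => c S.1.1
      | .inr (.inl k) => if Y = {bl k.1} then 1 else u (bl k.1)
      | .inr (.inr (.inl i)) => if Y = {i} then 1 else u i
      | .inr (.inr (.inr i)) => u i.1) * ∏ l, yA bl Z Y x l ^ eA bl Z Y E l := by
  have hq : ∏ i : {i : Fin d // i ∉ Y}, sq bl x i.1 = ∏ j ∈ Yᶜ, sq bl x j :=
    (Finset.prod_subtype _ (by simp) (fun j => sq bl x j)).symm
  rw [Fintype.prod_sum_type]
  match E with
  | .inl S =>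
    have e1 : ∏ k : {k : κ // k ∉ Z}, yA bl Z Y x (.inl k) ^ eA bl Z Y (.inl S) (.inl k) =
        ∏ l ∈ S.1.1.1 \ Z, x l := by
      have e2 : ∏ k : {k : κ // k ∉ Z}, yA bl Z Y x (.inl k) ^ eA bl Z Y (.inl S) (.inl k) =
          ∏ k : {k : κ // k ∉ Z}, if k.1 ∈ S.1.1.1 then x k.1 else 1 := by
        apply Finset.prod_congr rfl
        intro k _
        change x k.1 ^ (if k.1 ∈ S.1.1.1 then (1 : ℤ) else 0) = _
        by_cases hk : k.1 ∈ S.1.1.1
        · rw [if_pos hk, if_pos hk, zpow_one]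
        · rw [if_neg hk, if_neg hk, zpow_zero]
      have e3 : ∏ k : {k : κ // k ∉ Z}, (if k.1 ∈ S.1.1.1 then x k.1 else 1) =
          ∏ k ∈ Zᶜ, if k ∈ S.1.1.1 then x k else 1 :=
        (Finset.prod_subtype _ (by simp) (fun k : κ => if k ∈ S.1.1.1 then x k else 1)).symm
      rw [e2, e3, ← Finset.prod_filter]
      apply Finset.prod_congr _ (fun _ _ => rfl)
      ext k
      simp [and_comm]
    have e4 : ∏ i : {i : Fin d // i ∉ Y}, yA bl Z Y x (.inr i) ^ eA bl Z Y (.inl S) (.inr i) =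
        1 := by
      apply Finset.prod_eq_one
      intro i _
      change _ ^ (0 : ℤ) = 1
      exact zpow_zero _
    rw [e1, e4, mul_one]
    rfl
  | .inr (.inl k) =>
    have e1 : ∏ k' : {k : κ // k ∉ Z}, yA bl Z Y x (.inl k') ^
        eA bl Z Y (.inr (.inl k)) (.inl k') = x k.1 ^ 2 := by
      rw [Finset.prod_eq_single k]
      · change x k.1 ^ (if k = k then (2 : ℤ) else 0) = _
        rw [if_pos rfl]
        exact zpow_ofNat _ 2
      · intro k' _ hk'
        change x k'.1 ^ (if k' = k then (2 : ℤ) else 0) = _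
        rw [if_neg hk', zpow_zero]
      · intro hcon
        exact absurd (Finset.mem_univ _) hcon
    have e4 : ∏ i : {i : Fin d // i ∉ Y}, yA bl Z Y x (.inr i) ^
        eA bl Z Y (.inr (.inl k)) (.inr i) =
        if Y = {bl k.1} then ∏ j ∈ Yᶜ, sq bl x j else 1 := by
      by_cases hY : Y = {bl k.1}
      · rw [if_pos hY, ← hq]
        apply Finset.prod_congr rfl
        intro i _
        change sq bl x i.1 ^ (if Y = {bl k.1} then (1 : ℤ) else 0) = _
        rw [if_pos hY, zpow_one]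
      · rw [if_neg hY]
        apply Finset.prod_eq_one
        intro i _
        change sq bl x i.1 ^ (if Y = {bl k.1} then (1 : ℤ) else 0) = _
        rw [if_neg hY, zpow_zero]
    rw [e1, e4]
    change x k.1 ^ 2 * (if Y = {bl k.1} then ∏ j ∈ Yᶜ, sq bl x j else u (bl k.1)) =
      (if Y = {bl k.1} then 1 else u (bl k.1)) * (x k.1 ^ 2 *
        if Y = {bl k.1} then ∏ j ∈ Yᶜ, sq bl x j else 1)
    by_cases hY : Y = {bl k.1}
    · rw [if_pos hY, if_pos hY, if_pos hY, one_mul]
    · rw [if_neg hY, if_neg hY, if_neg hY]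
      ring
  | .inr (.inr (.inl i)) =>
    have e1 : ∏ k' : {k : κ // k ∉ Z}, yA bl Z Y x (.inl k') ^
        eA bl Z Y (.inr (.inr (.inl i))) (.inl k') = 1 := by
      apply Finset.prod_eq_one
      intro k' _
      change _ ^ (0 : ℤ) = 1
      exact zpow_zero _
    have e4 : ∏ j : {i : Fin d // i ∉ Y}, yA bl Z Y x (.inr j) ^
        eA bl Z Y (.inr (.inr (.inl i))) (.inr j) =
        if Y = {i} then ∏ j ∈ Yᶜ, sq bl x j else 1 := by
      by_cases hY : Y = {i}
      · rw [if_pos hY, ← hq]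
        apply Finset.prod_congr rfl
        intro j _
        change sq bl x j.1 ^ (if Y = {i} then (1 : ℤ) else 0) = _
        rw [if_pos hY, zpow_one]
      · rw [if_neg hY]
        apply Finset.prod_eq_one
        intro j _
        change sq bl x j.1 ^ (if Y = {i} then (1 : ℤ) else 0) = _
        rw [if_neg hY, zpow_zero]
    rw [e1, e4]
    change (if Y = {i} then ∏ j ∈ Yᶜ, sq bl x j else u i) =
      (if Y = {i} then 1 else u i) * (1 * if Y = {i} then ∏ j ∈ Yᶜ, sq bl x j else 1)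
    by_cases hY : Y = {i}
    · rw [if_pos hY, if_pos hY, if_pos hY]
      ring
    · rw [if_neg hY, if_neg hY, if_neg hY]
      ring
  | .inr (.inr (.inr i)) =>
    have e1 : ∏ k' : {k : κ // k ∉ Z}, yA bl Z Y x (.inl k') ^
        eA bl Z Y (.inr (.inr (.inr i))) (.inl k') = 1 := by
      apply Finset.prod_eq_one
      intro k' _
      change _ ^ (0 : ℤ) = 1
      exact zpow_zero _
    have e4 : ∏ j : {i : Fin d // i ∉ Y}, yA bl Z Y x (.inr j) ^
        eA bl Z Y (.inr (.inr (.inr i))) (.inr j) = sq bl x i.1 := by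
      rw [Finset.prod_eq_single i]
      · change sq bl x i.1 ^ (if i = i then (1 : ℤ) else 0) = _
        rw [if_pos rfl, zpow_one]
      · intro j _ hj
        change sq bl x j.1 ^ (if j = i then (1 : ℤ) else 0) = _
        rw [if_neg hj, zpow_zero]
      · intro hcon
        exact absurd (Finset.mem_univ _) hcon
    rw [e1, e4]
    change sq bl x i.1 * u i.1 = u i.1 * (1 * sq bl x i.1)
    ring

/-- The vectors span. Proof: the monomials `{k}` and the elements `.inr (.inr (.inl i))`. -/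
theorem spanA (φ : Un κ d → ℚ) (h : ∀ E, dot φ (vA bl Z Y E) = 0) : φ = 0 := by
  have hi : ∀ i : Fin d, φ (.inr i) = 0 := by
    intro i
    have h1 := h (.inr (.inr (.inl i)))
    rw [dot, Fintype.sum_sum_type] at h1
    have e1 : ∑ k : κ, φ (.inl k) * ((vA bl Z Y (.inr (.inr (.inl i))) (.inl k) : ℤ) : ℚ) = 0 := by
      apply Finset.sum_eq_zero
      intro k _
      change _ * ((0 : ℤ) : ℚ) = 0
      rw [Int.cast_zero, mul_zero]
    have e2 : ∑ j : Fin d, φ (.inr j) * ((vA bl Z Y (.inr (.inr (.inl i))) (.inr j) : ℤ) : ℚ) =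
        φ (.inr i) := by
      rw [Finset.sum_eq_single i]
      · change _ * ((if i = i then 1 else 0 : ℤ) : ℚ) = _
        rw [if_pos rfl, Int.cast_one, mul_one]
      · intro j _ hj
        change _ * ((if j = i then 1 else 0 : ℤ) : ℚ) = _
        rw [if_neg hj, Int.cast_zero, mul_zero]
      · intro hcon
        exact absurd (Finset.mem_univ _) hcon
    rw [e1, e2, zero_add] at h1
    exact h1
  have hk : ∀ k : κ, φ (.inl k) = 0 := by
    intro k
    let s : Sct bl := ⟨{k}, fun a ha b hb _ => by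
      rw [Finset.mem_singleton.1 ha, Finset.mem_singleton.1 hb]⟩
    let S : NZ bl Z := ⟨⟨s, ⟨k, Finset.mem_singleton_self k⟩⟩,
      (Finset.card_le_card Finset.inter_subset_left).trans (by simp [s])⟩
    have h1 := h (.inl S)
    rw [dot, Fintype.sum_sum_type] at h1
    have e2 : ∑ j : Fin d, φ (.inr j) * ((vA bl Z Y (.inl S) (.inr j) : ℤ) : ℚ) = 0 := by
      apply Finset.sum_eq_zero
      intro j _
      change _ * ((0 : ℤ) : ℚ) = 0
      rw [Int.cast_zero, mul_zero]
    have e1 : ∑ k' : κ, φ (.inl k') * ((vA bl Z Y (.inl S) (.inl k') : ℤ) : ℚ) = φ (.inl k) := by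
      rw [Finset.sum_eq_single k]
      · change _ * ((if k ∈ ({k} : Finset κ) ∧ ({k} : Finset κ) ∩ Z ⊆ {k} then 1 else 0 : ℤ) : ℚ)
          = _
        rw [if_pos ⟨Finset.mem_singleton_self k, Finset.inter_subset_left⟩, Int.cast_one, mul_one]
      · intro k' _ hk'
        change _ * ((if k' ∈ ({k} : Finset κ) ∧ ({k} : Finset κ) ∩ Z ⊆ {k'} then 1 else 0 : ℤ) : ℚ)
          = _
        rw [if_neg (fun h => hk' (Finset.mem_singleton.1 h.1)), Int.cast_zero, mul_zero]
      · intro hcon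
        exact absurd (Finset.mem_univ _) hcon
    rw [e1, e2, add_zero] at h1
    exact h1
  funext l
  cases l with
  | inl k => exact hk k
  | inr i => exact hi i

/-- Generic heights. Proof: the coefficients of the monomials vanish, for `Y ≠ {i}` the sum of the
coefficients of the block `i` vanishes, hence also for `Y = {i}`. By the exponents of the
coordinates the coefficients of the `x k ^ 2` vanish, so for `Y = {i}` the coefficient of
`.inr (.inr (.inl i))` as well. By the exponents of the `s j` the coefficients of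
the `.inr (.inr (.inr j))` vanish, and so the rest. -/
theorem genA {h : NS bl → ℝ} {r : Fin d → ℝ} (hh : ∀ (c : NS bl → ℤ) (e : Fin d → ℤ),
    ∑ S, (c S : ℝ) * h S + ∑ i, (e i : ℝ) * r i = 0 → c = 0 ∧ e = 0) :
    Gen (hA bl Z Y h r) (eA bl Z Y) := by
  intro c hc1 hc2 hc3
  -- the combined coefficients
  let C : NS bl → ℤ := fun S => if hS : (S.1.1 ∩ Z).card ≤ 1 then c (.inl ⟨S, hS⟩) else 0
  let e : Fin d → ℤ := fun i =>
    (if Y = {i} then 0 else (∑ k : {k : κ // k ∉ Z}, if i = bl k.1 then c (.inr (.inl k)) else 0) +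
      c (.inr (.inr (.inl i)))) + if hi : i ∈ Y then 0 else c (.inr (.inr (.inr ⟨i, hi⟩)))
  rw [Fintype.sum_sum_type, Fintype.sum_sum_type, Fintype.sum_sum_type] at hc1 hc3
  have f1 : ∑ S : NZ bl Z, (c (.inl S) : ℝ) * hA bl Z Y h r (.inl S) = ∑ S, (C S : ℝ) * h S := by
    have e1 : ∑ S : NZ bl Z, (c (.inl S) : ℝ) * hA bl Z Y h r (.inl S) =
        ∑ S : NZ bl Z, (C S.1 : ℝ) * h S.1 := by
      apply Finset.sum_congr rfl
      intro S _
      have e2 : C S.1 = c (.inl S) := dif_pos S.2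
      rw [e2]
      rfl
    have e3 : ∑ S : NZ bl Z, (C S.1 : ℝ) * h S.1 =
        ∑ S ∈ Finset.univ.filter (fun S : NS bl => (S.1.1 ∩ Z).card ≤ 1), (C S : ℝ) * h S :=
      (Finset.sum_subtype _ (by simp) (fun S : NS bl => (C S : ℝ) * h S)).symm
    rw [e1, e3, Finset.sum_filter]
    apply Finset.sum_congr rfl
    intro S _
    by_cases hS : (S.1.1 ∩ Z).card ≤ 1
    · rw [if_pos hS]
    · rw [if_neg hS]
      have e2 : C S = 0 := dif_neg hS
      rw [e2, Int.cast_zero, zero_mul]
  have f2 : ∑ k : {k : κ // k ∉ Z}, (c (.inr (.inl k)) : ℝ) * hA bl Z Y h r (.inr (.inl k)) =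
      ∑ i : Fin d, (if Y = {i} then (0 : ℝ) else
        ∑ k : {k : κ // k ∉ Z}, if i = bl k.1 then (c (.inr (.inl k)) : ℝ) else 0) * r i := by
    have e1 : ∀ i : Fin d, (if Y = {i} then (0 : ℝ) else
        ∑ k : {k : κ // k ∉ Z}, if i = bl k.1 then (c (.inr (.inl k)) : ℝ) else 0) * r i =
        ∑ k : {k : κ // k ∉ Z}, if i = bl k.1 then
          (c (.inr (.inl k)) : ℝ) * (if Y = {bl k.1} then 0 else r (bl k.1)) else 0 := by
      intro i
      by_cases hY : Y = {i}
      · rw [if_pos hY, zero_mul]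
        symm
        apply Finset.sum_eq_zero
        intro k _
        by_cases hk : i = bl k.1
        · rw [if_pos hk, ← hk, if_pos hY, mul_zero]
        · rw [if_neg hk]
      · rw [if_neg hY, Finset.sum_mul]
        apply Finset.sum_congr rfl
        intro k _
        by_cases hk : i = bl k.1
        · rw [if_pos hk, if_pos hk, ← hk, if_neg hY]
        · rw [if_neg hk, if_neg hk, zero_mul]
    rw [Finset.sum_congr rfl (fun i _ => e1 i), Finset.sum_comm]
    apply Finset.sum_congr rfl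
    intro k _
    rw [Finset.sum_ite_eq']
    simp only [Finset.mem_univ, if_true]
    rfl
  have f3 : ∑ i : Fin d, (c (.inr (.inr (.inl i))) : ℝ) * hA bl Z Y h r (.inr (.inr (.inl i))) =
      ∑ i : Fin d, (if Y = {i} then (0 : ℝ) else (c (.inr (.inr (.inl i))) : ℝ)) * r i := by
    apply Finset.sum_congr rfl
    intro i _
    change (c (.inr (.inr (.inl i))) : ℝ) * (if Y = {i} then 0 else r i) = _
    by_cases hY : Y = {i}
    · rw [if_pos hY, if_pos hY, mul_zero, zero_mul]
    · rw [if_neg hY, if_neg hY]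
  have f4 : ∑ i : {i : Fin d // i ∉ Y}, (c (.inr (.inr (.inr i))) : ℝ) *
      hA bl Z Y h r (.inr (.inr (.inr i))) = ∑ i : Fin d,
        ((if hi : i ∈ Y then 0 else c (.inr (.inr (.inr ⟨i, hi⟩))) : ℤ) : ℝ) * r i := by
    have e1 : ∑ i : {i : Fin d // i ∉ Y}, (c (.inr (.inr (.inr i))) : ℝ) *
        hA bl Z Y h r (.inr (.inr (.inr i))) = ∑ i : {i : Fin d // i ∉ Y},
        ((if hi : i.1 ∈ Y then 0 else c (.inr (.inr (.inr ⟨i.1, hi⟩))) : ℤ) : ℝ) * r i.1 := by
      apply Finset.sum_congr rfl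
      intro i _
      rw [dif_neg i.2]
      rfl
    have e3 : ∑ i : {i : Fin d // i ∉ Y},
        ((if hi : i.1 ∈ Y then 0 else c (.inr (.inr (.inr ⟨i.1, hi⟩))) : ℤ) : ℝ) * r i.1 =
        ∑ i ∈ Yᶜ, ((if hi : i ∈ Y then 0 else c (.inr (.inr (.inr ⟨i, hi⟩))) : ℤ) : ℝ) * r i :=
      (Finset.sum_subtype _ (by simp) (fun i : Fin d =>
        ((if hi : i ∈ Y then 0 else c (.inr (.inr (.inr ⟨i, hi⟩))) : ℤ) : ℝ) * r i)).symm
    rw [e1, e3]
    apply Finset.sum_subset (Finset.subset_univ _)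
    intro i _ hi
    rw [Finset.mem_compl, not_not] at hi
    rw [dif_pos hi, Int.cast_zero, zero_mul]
  have hCe : C = 0 ∧ e = 0 := by
    apply hh
    rw [← hc3, f1, f2, f3, f4, ← Finset.sum_add_distrib, ← Finset.sum_add_distrib]
    congr 1
    apply Finset.sum_congr rfl
    intro i _
    have e5 : (e i : ℝ) = ((if Y = {i} then (0 : ℝ) else
        ∑ k : {k : κ // k ∉ Z}, if i = bl k.1 then (c (.inr (.inl k)) : ℝ) else 0) +
        (if Y = {i} then (0 : ℝ) else (c (.inr (.inr (.inl i))) : ℝ))) +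
        ((if hi : i ∈ Y then 0 else c (.inr (.inr (.inr ⟨i, hi⟩))) : ℤ) : ℝ) := by
      change ((((if Y = {i} then 0 else
        (∑ k : {k : κ // k ∉ Z}, if i = bl k.1 then c (.inr (.inl k)) else 0) +
        c (.inr (.inr (.inl i)))) +
        if hi : i ∈ Y then 0 else c (.inr (.inr (.inr ⟨i, hi⟩))) : ℤ)) : ℝ) = _
      rw [Int.cast_add]
      congr 1
      by_cases hY : Y = {i}
      · rw [if_pos hY, if_pos hY, if_pos hY, Int.cast_zero, add_zero]
      · rw [if_neg hY, if_neg hY, if_neg hY, Int.cast_add, Int.cast_sum]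
        congr 1
        apply Finset.sum_congr rfl
        intro k _
        by_cases hk : i = bl k.1
        · rw [if_pos hk, if_pos hk]
        · rw [if_neg hk, if_neg hk, Int.cast_zero]
    rw [e5]
    ring
  obtain ⟨hC, he⟩ := hCe
  have g1 : ∀ S : NZ bl Z, c (.inl S) = 0 := by
    intro S
    have e2 : C S.1 = c (.inl S) := dif_pos S.2
    rw [← e2, hC]
    rfl
  have g2 : ∀ k : {k : κ // k ∉ Z}, c (.inr (.inl k)) = 0 := by
    intro k
    have e1 := hc2 (.inl k)
    rw [Fintype.sum_sum_type, Fintype.sum_sum_type, Fintype.sum_sum_type] at e1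
    have e2 : ∑ S : NZ bl Z, c (.inl S) * eA bl Z Y (.inl S) (.inl k) = 0 := by
      apply Finset.sum_eq_zero
      intro S _
      rw [g1 S, zero_mul]
    have e3 : ∑ k' : {k : κ // k ∉ Z}, c (.inr (.inl k')) * eA bl Z Y (.inr (.inl k')) (.inl k) =
        2 * c (.inr (.inl k)) := by
      rw [Finset.sum_eq_single k]
      · change _ * (if k = k then (2 : ℤ) else 0) = _
        rw [if_pos rfl]
        ring
      · intro k' _ hk'
        change _ * (if k = k' then (2 : ℤ) else 0) = _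
        rw [if_neg (fun h => hk' h.symm), mul_zero]
      · intro hcon
        exact absurd (Finset.mem_univ _) hcon
    have e4 : ∑ i : Fin d, c (.inr (.inr (.inl i))) *
        eA bl Z Y (.inr (.inr (.inl i))) (.inl k) = 0 := by
      apply Finset.sum_eq_zero
      intro i _
      exact mul_zero _
    have e5 : ∑ i : {i : Fin d // i ∉ Y}, c (.inr (.inr (.inr i))) *
        eA bl Z Y (.inr (.inr (.inr i))) (.inl k) = 0 := by
      apply Finset.sum_eq_zero
      intro i _
      exact mul_zero _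
    rw [e2, e3, e4, e5] at e1
    omega
  -- the exponents of the `s j`
  have g3 : ∀ j : {i : Fin d // i ∉ Y},
      (∑ i : Fin d, if Y = {i} then c (.inr (.inr (.inl i))) else 0) +
        c (.inr (.inr (.inr j))) = 0 := by
    intro j
    have e1 := hc2 (.inr j)
    rw [Fintype.sum_sum_type, Fintype.sum_sum_type, Fintype.sum_sum_type] at e1
    have e2 : ∑ S : NZ bl Z, c (.inl S) * eA bl Z Y (.inl S) (.inr j) = 0 := by
      apply Finset.sum_eq_zero
      intro S _
      rw [g1 S, zero_mul]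
    have e3 : ∑ k' : {k : κ // k ∉ Z}, c (.inr (.inl k')) *
        eA bl Z Y (.inr (.inl k')) (.inr j) = 0 := by
      apply Finset.sum_eq_zero
      intro k' _
      rw [g2 k', zero_mul]
    have e4 : ∑ i : Fin d, c (.inr (.inr (.inl i))) *
        eA bl Z Y (.inr (.inr (.inl i))) (.inr j) =
        ∑ i : Fin d, if Y = {i} then c (.inr (.inr (.inl i))) else 0 := by
      apply Finset.sum_congr rfl
      intro i _
      change _ * (if Y = {i} then (1 : ℤ) else 0) = _
      by_cases hY : Y = {i}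
      · rw [if_pos hY, if_pos hY, mul_one]
      · rw [if_neg hY, if_neg hY, mul_zero]
    have e5 : ∑ i : {i : Fin d // i ∉ Y}, c (.inr (.inr (.inr i))) *
        eA bl Z Y (.inr (.inr (.inr i))) (.inr j) = c (.inr (.inr (.inr j))) := by
      rw [Finset.sum_eq_single j]
      · change _ * (if j = j then (1 : ℤ) else 0) = _
        rw [if_pos rfl, mul_one]
      · intro j' _ hj'
        change _ * (if j = j' then (1 : ℤ) else 0) = _
        rw [if_neg (fun h => hj' h.symm), mul_zero]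
      · intro hcon
        exact absurd (Finset.mem_univ _) hcon
    rw [e2, e3, e4, e5, zero_add, zero_add] at e1
    exact e1
  have g4 : ∀ i : Fin d, Y ≠ {i} → c (.inr (.inr (.inl i))) +
      (if hi : i ∈ Y then 0 else c (.inr (.inr (.inr ⟨i, hi⟩)))) = 0 := by
    intro i hY
    have e1 : e i = 0 := by rw [he]; rfl
    have e2 : e i = (0 + c (.inr (.inr (.inl i)))) +
        (if hi : i ∈ Y then 0 else c (.inr (.inr (.inr ⟨i, hi⟩)))) := by
      change (if Y = {i} then 0 else
        (∑ k : {k : κ // k ∉ Z}, if i = bl k.1 then c (.inr (.inl k)) else 0) +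
        c (.inr (.inr (.inl i)))) + _ = _
      rw [if_neg hY]
      congr 2
      apply Finset.sum_eq_zero
      intro k _
      rw [g2 k, ite_self]
    rw [e2, zero_add] at e1
    exact e1
  have g5 : ∑ i : Fin d, c (.inr (.inr (.inl i))) +
      ∑ i : {i : Fin d // i ∉ Y}, c (.inr (.inr (.inr i))) = 0 := by
    have e2 : ∑ S : NZ bl Z, c (.inl S) = 0 := Finset.sum_eq_zero fun S _ => g1 S
    have e3 : ∑ k : {k : κ // k ∉ Z}, c (.inr (.inl k)) = 0 := Finset.sum_eq_zero fun k _ => g2 k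
    rw [e2, e3, zero_add, zero_add] at hc1
    exact hc1
  have g6 : ∑ i : {i : Fin d // i ∉ Y}, c (.inr (.inr (.inr i))) =
      ∑ i : Fin d, if hi : i ∈ Y then 0 else c (.inr (.inr (.inr ⟨i, hi⟩))) := by
    have e1 : ∑ i : {i : Fin d // i ∉ Y}, c (.inr (.inr (.inr i))) =
        ∑ i : {i : Fin d // i ∉ Y},
        (if hi : i.1 ∈ Y then 0 else c (.inr (.inr (.inr ⟨i.1, hi⟩)))) := by
      apply Finset.sum_congr rfl
      intro i _
      rw [dif_neg i.2]
    have e3 : ∑ i : {i : Fin d // i ∉ Y},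
        (if hi : i.1 ∈ Y then 0 else c (.inr (.inr (.inr ⟨i.1, hi⟩)))) =
        ∑ i ∈ Yᶜ, (if hi : i ∈ Y then 0 else c (.inr (.inr (.inr ⟨i, hi⟩)))) :=
      (Finset.sum_subtype _ (by simp) (fun i : Fin d =>
        (if hi : i ∈ Y then 0 else c (.inr (.inr (.inr ⟨i, hi⟩)))))).symm
    rw [e1, e3]
    apply Finset.sum_subset (Finset.subset_univ _)
    intro i _ hi
    rw [Finset.mem_compl, not_not] at hi
    rw [dif_pos hi]
  -- the coefficient of the block in `Y`
  have g7 : ∑ i : Fin d, (if Y = {i} then c (.inr (.inr (.inl i))) else 0) = 0 := by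
    rw [g6, ← Finset.sum_add_distrib] at g5
    refine Eq.trans ?_ g5
    apply Finset.sum_congr rfl
    intro i _
    by_cases hY : Y = {i}
    · rw [if_pos hY, dif_pos (by rw [hY]; exact Finset.mem_singleton_self i), add_zero]
    · rw [if_neg hY, g4 i hY]
  have g8 : ∀ j : {i : Fin d // i ∉ Y}, c (.inr (.inr (.inr j))) = 0 := by
    intro j
    have e1 := g3 j
    rwa [g7, zero_add] at e1
  have g9 : ∀ i : Fin d, c (.inr (.inr (.inl i))) = 0 := by
    intro i
    by_cases hY : Y = {i}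
    · have e1 : ∑ i' : Fin d, (if Y = {i'} then c (.inr (.inr (.inl i'))) else 0) =
          c (.inr (.inr (.inl i))) := by
        rw [Finset.sum_eq_single i]
        · rw [if_pos hY]
        · intro i' _ hi'
          rw [if_neg]
          intro h
          rw [hY] at h
          exact hi' (Finset.singleton_injective h).symm
        · intro hcon
          exact absurd (Finset.mem_univ _) hcon
      rw [← e1, g7]
    · have e1 := g4 i hY
      by_cases hi : i ∈ Y
      · rwa [dif_pos hi, add_zero] at e1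
      · rwa [dif_neg hi, g8 ⟨i, hi⟩, add_zero] at e1
  funext E
  match E with
  | .inl S => exact g1 S
  | .inr (.inl k) => exact g2 k
  | .inr (.inr (.inl i)) => exact g9 i
  | .inr (.inr (.inr i)) => exact g8 i

/-- No solutions. Proof: `no_sol`. -/
theorem noA {h sg : NS bl → ℝ} {r : Fin d → ℝ} (hh : ∀ (c : NS bl → ℤ) (e : Fin d → ℤ),
      ∑ S, (c S : ℝ) * h S + ∑ i, (e i : ℝ) * r i = 0 → c = 0 ∧ e = 0)
    {c : ℕ → Sct bl → ℝ} {a : NS bl → ℕ → ℝ} {x : ℕ → κ → ℂ} (hD : SD h sg c a x)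
    (hY : Y.Nonempty)
    (h0 : ∀ᶠ n in uf, (∀ k, x n k = 0 ↔ k ∈ Z) ∧ ∀ i, sq bl (x n) i = 0 ↔ i ∈ Y) :
    False := by
  let u : ℕ → Fin d → ℂ := fun n i => ((((n : ℝ) + 1) ^ r i : ℝ) : ℂ)
  let kk : EA bl Z Y → ℕ → ℝ := fun E n => match E with
    | .inl S => a S.1 n
    | .inr _ => 1
  let k0 : EA bl Z Y → ℝ := fun E => match E with
    | .inl S => sg S.1
    | .inr _ => 1
  have hy : ∀ᶠ n in uf, ∀ l, yA bl Z Y (x n) l ≠ 0 := by
    filter_upwards [h0] with n hn l
    cases l with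
    | inl k => exact fun h => k.2 ((hn.1 k.1).1 h)
    | inr i => exact fun h => i.2 ((hn.2 i.1).1 h)
  have hm : Mon (fun E n => zA bl Z Y (u n) (toC bl (c n)) (x n) E) (fun n => (n : ℝ) + 1)
      (hA bl Z Y h r) (fun l n => yA bl Z Y (x n) l) (eA bl Z Y) kk k0 := by
    refine ⟨fun n => by positivity, ?_, ?_, ?_, ?_, ?_⟩
    · have h1 : Tendsto (fun n : ℕ => (n : ℝ) + 1) atTop atTop :=
        tendsto_atTop_add_const_right _ _ tendsto_natCast_atTop_atTop
      exact h1.mono_left Nat.hyperfilter_le_atTop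
    · intro l
      filter_upwards [hy] with n hn
      exact hn l
    · intro E
      match E with
      | .inl S => exact hD.s0 S.1
      | .inr _ => exact one_ne_zero
    · intro E
      match E with
      | .inl S => exact hD.lim S.1
      | .inr _ => exact tendsto_const_nhds
    · intro E
      filter_upwards [hy] with n hn
      rw [monA hn E]
      congr 1
      match E with
      | .inl S =>
        change ((c n S.1.1 : ℝ) : ℂ) = ((a S.1 n : ℝ) : ℂ) * ((((n : ℝ) + 1) ^ h S.1 : ℝ) : ℂ)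
        rw [hD.ceq S.1 n, Complex.ofReal_mul]
      | .inr (.inl k) =>
        change (if Y = {bl k.1} then 1 else u n (bl k.1)) = ((1 : ℝ) : ℂ) *
          ((((n : ℝ) + 1) ^ (if Y = {bl k.1} then 0 else r (bl k.1)) : ℝ) : ℂ)
        by_cases hY : Y = {bl k.1}
        · rw [if_pos hY, if_pos hY, Real.rpow_zero, Complex.ofReal_one, one_mul]
        · rw [if_neg hY, if_neg hY, Complex.ofReal_one, one_mul]
      | .inr (.inr (.inl i)) =>
        change (if Y = {i} then 1 else u n i) = ((1 : ℝ) : ℂ) *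
          ((((n : ℝ) + 1) ^ (if Y = {i} then 0 else r i) : ℝ) : ℂ)
        by_cases hY : Y = {i}
        · rw [if_pos hY, if_pos hY, Real.rpow_zero, Complex.ofReal_one, one_mul]
        · rw [if_neg hY, if_neg hY, Complex.ofReal_one, one_mul]
      | .inr (.inr (.inr i)) =>
        change u n i.1 = ((1 : ℝ) : ℂ) * ((((n : ℝ) + 1) ^ r i.1 : ℝ) : ℂ)
        rw [Complex.ofReal_one, one_mul]
  have hcard : Fintype.card (UA Z Y) < Fintype.card (Un κ d) := by
    rw [Fintype.card_sum, Fintype.card_sum]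
    have h1 : Fintype.card {k : κ // k ∉ Z} ≤ Fintype.card κ := Fintype.card_subtype_le _
    obtain ⟨i, hi⟩ := hY
    have h2 : Fintype.card {i : Fin d // i ∉ Y} < Fintype.card (Fin d) :=
      Fintype.card_subtype_lt (x := i) (fun h => h hi)
    omega
  have hrel : ∀ᶠ n in uf, ∀ l, ∑ E, zA bl Z Y (u n) (toC bl (c n)) (x n) E *
      (vA bl Z Y E l : ℂ) = 0 := by
    filter_upwards [h0] with n hn l
    exact relA (hD.sol n) hn.1 hn.2 hY l
  exact no_sol hm (genA hh) hcard spanA hrel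

end Pool.Agent.MPb0eF
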