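import Pool.Agent.Lib.MP_b0e20b_ag_F.Att
import Pool.Agent.Lib.MP_b0e20b_ag_F.ZA

/-!
# MP_b0e20b_ag, project F: assembly
-/

set_option autoImplicit false

open scoped BigOperators Topology
open Filter

namespace Pool.Agent.MPb0eF

open MPb0eQ (Sct dS sq PA G blk Kx toC Tensor total IsReal crit realCrit IsGenericNumber)

/-- Reality of the solutions of a sequence. Proof: the sets `Z` of the vanishing coordinates and `Y`
of the vanishing `s i` are constant along the ultrafilter. `noA` and `noC` show that they are empty.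
Then `real_of` for `vF`, `eF`, `hF`. -/
theorem seq {κ : Type} [Fintype κ] [DecidableEq κ] {d : ℕ} {bl : κ → Fin d}
    {h sg : NS bl → ℝ} {r : Fin d → ℝ} (hh : ∀ (c : NS bl → ℤ) (e : Fin d → ℤ),
      ∑ S, (c S : ℝ) * h S + ∑ i, (e i : ℝ) * r i = 0 → c = 0 ∧ e = 0)
    (hC : CC (vF bl) (eF bl) (hF bl h) (kF bl sg))
    {c : ℕ → Sct bl → ℝ} {a : NS bl → ℕ → ℝ} {x : ℕ → κ → ℂ} (hD : SD h sg c a x) :
    ∀ᶠ n in uf, ∀ k, (x n k).im = 0 := by
  classical
  have hh' : ∀ c : NS bl → ℤ, ∑ S, (c S : ℝ) * h S = 0 → c = 0 := by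
    intro c hc
    exact (hh c 0 (by simpa using hc)).1
  obtain ⟨p, hp⟩ : ∃ p : Finset κ × Finset (Fin d), ∀ᶠ n in uf,
      ((Finset.univ.filter fun k => x n k = 0, Finset.univ.filter fun i => sq bl (x n) i = 0) :
        Finset κ × Finset (Fin d)) = p := by
    by_contra hcon
    simp only [not_exists] at hcon
    have h1 : ∀ p : Finset κ × Finset (Fin d), ∀ᶠ n in uf,
        ¬ ((Finset.univ.filter fun k => x n k = 0,
          Finset.univ.filter fun i => sq bl (x n) i = 0) : Finset κ × Finset (Fin d)) = p :=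
      fun p => Ultrafilter.eventually_not.2 (hcon p)
    obtain ⟨n, hn⟩ := (Filter.eventually_all.2 h1).exists
    exact hn _ rfl
  obtain ⟨Z, Y⟩ := p
  have h0 : ∀ᶠ n in uf, (∀ k, x n k = 0 ↔ k ∈ Z) ∧ ∀ i, sq bl (x n) i = 0 ↔ i ∈ Y := by
    filter_upwards [hp] with n hn
    rw [Prod.mk.injEq] at hn
    exact ⟨fun k => by rw [← hn.1]; simp, fun i => by rw [← hn.2]; simp⟩
  rcases Y.eq_empty_or_nonempty with rfl | hY
  swap
  · exact (noA hh hD hY h0).elim
  have h1 : ∀ᶠ n in uf, (∀ k, x n k = 0 ↔ k ∈ Z) ∧ ∀ i, sq bl (x n) i ≠ 0 := by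
    filter_upwards [h0] with n hn
    exact ⟨hn.1, fun i hi => by simpa using (hn.2 i).1 hi⟩
  rcases Z.eq_empty_or_nonempty with rfl | hZ
  swap
  · exact (noC hh' hD hZ h1).elim
  have hm : Mon (fun E n => zF bl (toC bl (c n)) (x n) E) (fun n : ℕ => (n : ℝ) + 1) (hF bl h)
      (fun l n => yF bl (x n) l) (eF bl)
      (fun E n => match E with
        | .inl S => a S n
        | .inr _ => 1) (kF bl sg) := by
    refine ⟨fun n => by positivity, ?_, ?_, ?_, ?_, ?_⟩
    · have hle : uf ≤ atTop := by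
        rw [← Nat.cofinite_eq_atTop]
        exact Filter.hyperfilter_le_cofinite
      exact (tendsto_atTop_add_const_right _ _ tendsto_natCast_atTop_atTop).mono_left hle
    · rintro (k | i)
      · filter_upwards [h1] with n hn h2
        simpa using (hn.1 k).1 h2
      · filter_upwards [h1] with n hn
        exact hn.2 i
    · rintro (S | E)
      · exact hD.s0 S
      · exact one_ne_zero
    · rintro (S | E)
      · exact hD.lim S
      · exact tendsto_const_nhds
    · intro E
      filter_upwards [h1] with n hn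
      have hy : ∀ l, yF bl (x n) l ≠ 0 := by
        rintro (k | i)
        · intro h2
          simpa using (hn.1 k).1 h2
        · exact hn.2 i
      rw [monF hy E]
      rcases E with S | E
      · congr 1
        change ((c n S.1 : ℝ) : ℂ) = _
        rw [hD.ceq S n]
        simp [hF]
      · simp [hF]
  have h2 := real_of hm (genF hh') (by simp) spanF
    (Filter.Eventually.of_forall fun n l => relF (hD.sol n) l) hC
  filter_upwards [h2] with n hn k
  exact hn (.inl k)

/-- The condition on the heights and signs. -/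
theorem main {d : ℕ} (hd : 3 ≤ d) (n : Fin d → ℕ) (hn : ∀ i, 1 ≤ n i)
    (h : ∃ (h sg : NS (blk n) → ℝ) (r : Fin d → ℝ), (∀ S, sg S ≠ 0) ∧
      (∀ (c : NS (blk n) → ℤ) (e : Fin d → ℤ),
        ∑ S, (c S : ℝ) * h S + ∑ i, (e i : ℝ) * r i = 0 → c = 0 ∧ e = 0) ∧
      CC (vF (blk n)) (eF (blk n)) (hF (blk n) h) (kF (blk n) sg)) :
    ∃ N : ℕ, IsGenericNumber n N ∧ Odd N ∧
      ∀ k : ℕ, (∃ T : Tensor n, total T = 1 ∧ IsReal T ∧ (crit T).encard = N ∧
        (realCrit T).encard = k) ↔ Odd k ∧ k ≤ N := by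
  obtain ⟨h, sg, r, h0, hh, hC⟩ := h
  exact attained_all hd n hn (tra h0 fun c a x hD => seq hh hC hD)

end Pool.Agent.MPb0eF
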