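import Pool.Agent.Lib.MP_b0e20b_ag_F.Defs

/-!
# MP_b0e20b_ag, project F: independence of the ties
-/

set_option autoImplicit false

open scoped BigOperators Topology
open Filter

namespace Pool.Agent.MPb0eF

variable {Ω Λ : Type} [Fintype Ω] [Fintype Λ] {z : Ω → ℕ → ℂ} {lev : Ω → ℕ} {ζ : Ω → ℂ}
  {ω : ℕ → ℝ} {h : Ω → ℝ} {x : Λ → ℕ → ℂ} {ex : Ω → Λ → ℤ} {κ : Ω → ℕ → ℝ} {k : Ω → ℝ}

private theorem ind_zsum {ι : Type} (s : Finset ι) {a : ℂ} (ha : a ≠ 0) (c : ι → ℤ) :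
    ∏ i ∈ s, a ^ c i = a ^ (∑ i ∈ s, c i) := by
  classical
  induction s using Finset.induction_on with
  | empty => simp
  | insert i s hi ih =>
    rw [Finset.prod_insert hi, Finset.sum_insert hi, ih, zpow_add₀ ha]

/-- functions which are constant on the levels -/
private theorem ind_const {f : Ω → ℂ} (hf0 : ∀ E, f E ≠ 0)
    (hf : ∀ E E', lev E = lev E' → f E = f E') {c : Ω → ℤ} (hc : BSum lev c) :
    ∏ E, f E ^ c E = 1 := by
  classical
  rw [← Finset.prod_fiberwise_of_maps_to (t := Finset.univ.image lev)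
    (fun E _ => Finset.mem_image_of_mem lev (Finset.mem_univ E)) (fun E => f E ^ c E)]
  refine Finset.prod_eq_one fun j hj => ?_
  obtain ⟨E₀, -, hE₀⟩ := Finset.mem_image.1 hj
  have h1 : ∀ E ∈ Finset.univ.filter (fun E => lev E = j), f E ^ c E = f E₀ ^ c E := by
    intro E hE
    rw [hf E E₀ ((Finset.mem_filter.1 hE).2.trans hE₀.symm)]
  rw [Finset.prod_congr rfl h1, ind_zsum _ (hf0 E₀), Finset.sum_filter, hc j, zpow_zero]

private theorem ind_sum {c : Ω → ℤ} (hc : BSum lev c) : ∑ E, c E = 0 := by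
  classical
  rw [← Finset.sum_fiberwise_of_maps_to (t := Finset.univ.image lev)
    (fun E _ => Finset.mem_image_of_mem lev (Finset.mem_univ E)) c]
  refine Finset.sum_eq_zero fun j _ => ?_
  rw [Finset.sum_filter, hc j]

/-- a representative of the level -/
private noncomputable def ind_rep (lev : Ω → ℕ) (E : Ω) : Ω :=
  Classical.choose (⟨E, rfl⟩ : ∃ E', lev E' = lev E)

omit [Fintype Ω] in
private theorem ind_rep_lev (E : Ω) : lev (ind_rep lev E) = lev E :=
  Classical.choose_spec (⟨E, rfl⟩ : ∃ E', lev E' = lev E)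

omit [Fintype Ω] in
private theorem ind_rep_eq {E E' : Ω} (h : lev E = lev E') : ind_rep lev E = ind_rep lev E' := by
  unfold ind_rep
  congr 1
  funext F
  rw [h]

/-- The products with coefficients of sum zero in every level converge. -/
theorem prod_lim (hf : IsFlag z lev ζ) {c : Ω → ℤ} (hc : BSum lev c) :
    Tendsto (fun n => ∏ E, z E n ^ c E) uf (𝓝 (∏ E, ζ E ^ c E)) := by
  have h1 : Tendsto (fun n => ∏ E, (z E n / z (ind_rep lev E) n) ^ c E) uf
      (𝓝 (∏ E, (ζ E / ζ (ind_rep lev E)) ^ c E)) := by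
    refine tendsto_finsetProd _ fun E _ => ?_
    exact (hf.sim (ind_rep lev E) E (ind_rep_lev E)).zpow₀ (c E)
      (Or.inl (div_ne_zero (hf.ζ0 E) (hf.ζ0 _)))
  have h2 : ∏ E, (ζ E / ζ (ind_rep lev E)) ^ c E = ∏ E, ζ E ^ c E := by
    have h3 := ind_const (f := fun E => ζ (ind_rep lev E)) (fun E => hf.ζ0 _)
      (fun E E' he => by rw [ind_rep_eq he]) hc
    simp only [div_zpow]
    rw [Finset.prod_div_distrib, h3, div_one]
  rw [h2] at h1
  refine h1.congr' ?_
  filter_upwards [eventually_all.2 hf.z0] with n hn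
  have h3 := ind_const (f := fun E => z (ind_rep lev E) n) (fun E => hn _)
    (fun E E' he => by rw [ind_rep_eq he]) hc
  simp only [div_zpow]
  rw [Finset.prod_div_distrib, h3, div_one]

/-- The same for the monomials in the unknowns. Proof: `prod_lim`, `Mon.eq`, `Mon.lim`. -/
theorem mon_lim (hf : IsFlag z lev ζ) (hm : Mon z ω h x ex κ k) {c : Ω → ℤ} (hc : BSum lev c) :
    Tendsto (fun n => ((ω n ^ (∑ E, (c E : ℝ) * h E) : ℝ) : ℂ) * ∏ l, x l n ^ (∑ E, c E * ex E l))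
      uf (𝓝 (∏ E, (ζ E / (k E : ℂ)) ^ c E)) := by
  have hk : ∀ E, (k E : ℂ) ≠ 0 := fun E => Complex.ofReal_ne_zero.2 (hm.k0 E)
  have hκ : ∀ E, Tendsto (fun n => (κ E n : ℂ)) uf (𝓝 (k E : ℂ)) := fun E =>
    (Complex.continuous_ofReal.tendsto (k E)).comp (hm.lim E)
  have h1 : Tendsto (fun n => ∏ E, (κ E n : ℂ) ^ c E) uf (𝓝 (∏ E, (k E : ℂ) ^ c E)) :=
    tendsto_finsetProd _ fun E _ => (hκ E).zpow₀ (c E) (Or.inl (hk E))
  have h0 : (∏ E, (k E : ℂ) ^ c E) ≠ 0 :=
    Finset.prod_ne_zero_iff.2 fun E _ => zpow_ne_zero _ (hk E)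
  have h2 := (prod_lim hf hc).div h1 h0
  have h3 : (∏ E, ζ E ^ c E) / ∏ E, (k E : ℂ) ^ c E = ∏ E, (ζ E / (k E : ℂ)) ^ c E := by
    simp only [div_zpow]
    rw [Finset.prod_div_distrib]
  rw [h3] at h2
  refine h2.congr' ?_
  have hκ0 : ∀ᶠ n in uf, ∀ E, (κ E n : ℂ) ≠ 0 :=
    eventually_all.2 fun E => (hκ E).eventually_ne (hk E)
  filter_upwards [eventually_all.2 hm.eq, eventually_all.2 hm.x0, hκ0] with n he hx hκn
  show (∏ E, z E n ^ c E) / ∏ E, (κ E n : ℂ) ^ c E = _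
  have hP : (∏ E, (κ E n : ℂ) ^ c E) ≠ 0 :=
    Finset.prod_ne_zero_iff.2 fun E _ => zpow_ne_zero _ (hκn E)
  rw [div_eq_iff hP]
  have e1 : ∀ E, z E n ^ c E = (κ E n : ℂ) ^ c E *
      (((ω n ^ ((c E : ℝ) * h E) : ℝ) : ℂ) * ∏ l, x l n ^ (c E * ex E l)) := by
    intro E
    rw [he E, mul_zpow, mul_zpow, mul_assoc, ← Finset.prod_zpow]
    congr 2
    · rw [mul_comm (c E : ℝ), Real.rpow_mul (hm.pos n).le, Real.rpow_intCast,
        Complex.ofReal_zpow]
    · refine Finset.prod_congr rfl fun l _ => ?_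
      rw [← zpow_mul, mul_comm (ex E l)]
  rw [Finset.prod_congr rfl fun E _ => e1 E, Finset.prod_mul_distrib, Finset.prod_mul_distrib,
    mul_comm]
  congr 2
  · rw [Real.rpow_sum_of_pos (hm.pos n), Complex.ofReal_prod]
  · rw [Finset.prod_comm]
    exact Finset.prod_congr rfl fun l _ => ind_zsum _ (hx l) _

/-- The independence. Proof: `mon_lim`; if `∑ E, c E * ex E l = 0` for all `l` then a power of `ω`
converges to a nonzero number, so its exponent is zero. -/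
theorem ind (hf : IsFlag z lev ζ) (hm : Mon z ω h x ex κ k) (hg : Gen h ex) {c : Ω → ℤ}
    (hc : BSum lev c) (he : ∀ l, ∑ E, c E * ex E l = 0) : c = 0 := by
  have h1 := mon_lim hf hm hc
  simp only [he, zpow_zero, Finset.prod_const_one, mul_one] at h1
  have h0 : (∏ E, (ζ E / (k E : ℂ)) ^ c E) ≠ 0 :=
    Finset.prod_ne_zero_iff.2 fun E _ => zpow_ne_zero _
      (div_ne_zero (hf.ζ0 E) (Complex.ofReal_ne_zero.2 (hm.k0 E)))
  refine hg c (ind_sum hc) he ?_
  have h2 := h1.norm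
  have h3 : ∀ n, ‖((ω n ^ (∑ E, (c E : ℝ) * h E) : ℝ) : ℂ)‖ = ω n ^ (∑ E, (c E : ℝ) * h E) :=
    fun n => by
      rw [Complex.norm_real, Real.norm_of_nonneg (Real.rpow_nonneg (hm.pos n).le _)]
  simp only [h3] at h2
  rcases lt_trichotomy (∑ E, (c E : ℝ) * h E) 0 with hs | hs | hs
  · exfalso
    have h4 : Tendsto (fun n => ω n ^ (∑ E, (c E : ℝ) * h E)) uf (𝓝 0) := by
      have h5 := (tendsto_rpow_neg_atTop (neg_pos.2 hs)).comp hm.top
      rw [neg_neg] at h5
      exact h5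
    exact h0 (norm_eq_zero.1 (tendsto_nhds_unique h2 h4))
  · exact hs
  · exfalso
    exact not_tendsto_nhds_of_tendsto_atTop ((tendsto_rpow_atTop hs).comp hm.top) _ h2

end Pool.Agent.MPb0eF
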