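import Pool.Agent.Lib.MP_b0e20b_ag_F.Defs

/-!
# MP_b0e20b_ag, project F: existence of the flag
-/

set_option autoImplicit false

open scoped BigOperators Topology
open Filter

namespace Pool.Agent.MPb0eF

/-- A bounded sequence converges along the ultrafilter. -/
theorem bdd_lim {a : ℕ → ℂ} {C : ℝ} (h : ∀ᶠ n in uf, ‖a n‖ ≤ C) : ∃ c : ℂ, Tendsto a uf (𝓝 c) := by
  have hc : IsCompact (Metric.closedBall (0 : ℂ) C) := isCompact_closedBall _ _
  have hle : (((Filter.hyperfilter ℕ).map a : Ultrafilter ℂ) : Filter ℂ) ≤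
      𝓟 (Metric.closedBall (0 : ℂ) C) := by
    rw [Filter.le_principal_iff, Ultrafilter.mem_coe, Ultrafilter.mem_map]
    have h2 : {n | ‖a n‖ ≤ C} ∈ (Filter.hyperfilter ℕ : Filter ℕ) := h
    refine Filter.mem_of_superset h2 ?_
    intro n hn
    have hn' : ‖a n‖ ≤ C := hn
    simpa [Set.mem_preimage] using hn'
  obtain ⟨c, -, hc2⟩ := isCompact_iff_ultrafilter_le_nhds.1 hc _ hle
  exact ⟨c, hc2⟩

/-- Two sequences of nonzero numbers can be compared. Proof: the norm of the quotient converges in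
`[0, ∞]`. -/
theorem tri {a b : ℕ → ℂ} (ha : ∀ᶠ n in uf, a n ≠ 0) (hb : ∀ᶠ n in uf, b n ≠ 0) :
    Tendsto (fun n => b n / a n) uf (𝓝 0) ∨ Tendsto (fun n => a n / b n) uf (𝓝 0) ∨
      ∃ c : ℂ, c ≠ 0 ∧ Tendsto (fun n => b n / a n) uf (𝓝 c) := by
  have key : (∀ᶠ n in uf, ‖b n / a n‖ ≤ 1) ∨ (∀ᶠ n in uf, ‖a n / b n‖ ≤ 1) := by
    rcases Ultrafilter.em (Filter.hyperfilter ℕ) (fun n => ‖b n / a n‖ ≤ 1) with h | h
    · exact Or.inl h
    · right
      have h' : ∀ᶠ n in uf, ¬ ‖b n / a n‖ ≤ 1 := h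
      filter_upwards [h', ha, hb] with n h1 h2 h3
      have h4 : 1 < ‖b n / a n‖ := not_le.1 h1
      have h5 : a n / b n = (b n / a n)⁻¹ := by rw [inv_div]
      rw [h5, norm_inv]
      exact inv_le_one_of_one_le₀ h4.le
  rcases key with h | h
  · obtain ⟨c, hc⟩ := bdd_lim h
    by_cases h0 : c = 0
    · left; rw [h0] at hc; exact hc
    · right; right; exact ⟨c, h0, hc⟩
  · obtain ⟨c, hc⟩ := bdd_lim h
    by_cases h0 : c = 0
    · right; left; rw [h0] at hc; exact hc
    · right; right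
      refine ⟨c⁻¹, inv_ne_zero h0, ?_⟩
      have h1 := hc.inv₀ h0
      refine h1.congr ?_
      intro n
      rw [inv_div]

/-- Existence of the flag. Proof: `lev E` is the number of the elements `E'` with
`z E / z E' → 0`; in every level choose an element `E₀` and let `ζ E` be the limit of
`z E / z E₀`. -/
theorem exists_flag {Ω : Type} [Fintype Ω] (z : Ω → ℕ → ℂ) (hz : ∀ E, ∀ᶠ n in uf, z E n ≠ 0) :
    ∃ (lev : Ω → ℕ) (ζ : Ω → ℂ), IsFlag z lev ζ := by
  classical
  rcases isEmpty_or_nonempty Ω with hE | hN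
  · exact ⟨fun _ => 0, fun _ => 1, ⟨fun E => hE.elim E, fun E => hE.elim E, fun E => hE.elim E,
      fun E => hE.elim E⟩⟩
  -- `bg E` is the set of the elements which are much larger than `E`
  let bg : Ω → Finset Ω := fun E =>
    Finset.univ.filter (fun E' => Tendsto (fun n => z E n / z E' n) uf (𝓝 0))
  have hbg : ∀ E E', E' ∈ bg E ↔ Tendsto (fun n => z E n / z E' n) uf (𝓝 0) := by
    intro E E'
    simp [bg]
  have hself : ∀ E, E ∉ bg E := by
    intro E hE
    have h1 := (hbg E E).1 hE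
    have h2 : Tendsto (fun n => z E n / z E n) uf (𝓝 1) := by
      refine (tendsto_const_nhds (x := (1 : ℂ))).congr' ?_
      filter_upwards [hz E] with n hn
      rw [div_self hn]
    exact zero_ne_one (tendsto_nhds_unique h1 h2)
  -- a bounded factor does not matter
  have hmul : ∀ E E' E'' : Ω, ∀ c d : ℂ, Tendsto (fun n => z E n / z E' n) uf (𝓝 c) →
      Tendsto (fun n => z E' n / z E'' n) uf (𝓝 d) →
      Tendsto (fun n => z E n / z E'' n) uf (𝓝 (c * d)) := by
    intro E E' E'' c d h1 h2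
    refine (h1.mul h2).congr' ?_
    filter_upwards [hz E'] with n hn
    rw [div_mul_div_cancel₀ hn]
  have hlt : ∀ E E', Tendsto (fun n => z E' n / z E n) uf (𝓝 0) → (bg E).card < (bg E').card := by
    intro E E' h
    apply Finset.card_lt_card
    refine ⟨?_, ?_⟩
    · intro F hF
      rw [hbg] at hF ⊢
      have h2 := hmul E' E F 0 0 h hF
      rwa [mul_zero] at h2
    · intro hsub
      exact hself E (hsub ((hbg E' E).2 h))
  have hsub : ∀ E E', (∃ c : ℂ, Tendsto (fun n => z E' n / z E n) uf (𝓝 c)) → bg E ⊆ bg E' := by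
    rintro E E' ⟨c, h⟩ F hF
    rw [hbg] at hF ⊢
    have h2 := hmul E' E F c 0 h hF
    rwa [mul_zero] at h2
  have hinv : ∀ E E' (c : ℂ), c ≠ 0 → Tendsto (fun n => z E' n / z E n) uf (𝓝 c) →
      Tendsto (fun n => z E n / z E' n) uf (𝓝 c⁻¹) := by
    intro E E' c hc h
    refine (h.inv₀ hc).congr ?_
    intro n
    rw [inv_div]
  have heq : ∀ E E' (c : ℂ), c ≠ 0 → Tendsto (fun n => z E' n / z E n) uf (𝓝 c) →
      (bg E).card = (bg E').card := by
    intro E E' c hc h
    have h1 := hsub E E' ⟨c, h⟩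
    have h2 := hsub E' E ⟨c⁻¹, hinv E E' c hc h⟩
    rw [Finset.Subset.antisymm h1 h2]
  have hs : ∀ E E', (bg E).card = (bg E').card →
      ∃ c : ℂ, c ≠ 0 ∧ Tendsto (fun n => z E' n / z E n) uf (𝓝 c) := by
    intro E E' h
    rcases tri (hz E) (hz E') with h1 | h1 | h1
    · exact absurd h (hlt E E' h1).ne
    · exact absurd h (hlt E' E h1).ne'
    · exact h1
  have hd : ∀ E E', (bg E).card < (bg E').card → Tendsto (fun n => z E' n / z E n) uf (𝓝 0) := by
    intro E E' h
    rcases tri (hz E) (hz E') with h1 | h1 | ⟨c, hc, h1⟩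
    · exact h1
    · exact absurd (hlt E' E h1) h.not_gt
    · exact absurd (heq E E' c hc h1) h.ne
  let lev : Ω → ℕ := fun E => (bg E).card
  let rep : Ω → Ω := fun E => Function.invFun lev (lev E)
  have hrep : ∀ E, lev (rep E) = lev E := fun E => Function.invFun_eq ⟨E, rfl⟩
  have hex : ∀ E, ∃ c : ℂ, c ≠ 0 ∧ Tendsto (fun n => z E n / z (rep E) n) uf (𝓝 c) :=
    fun E => hs (rep E) E (hrep E)
  choose ζ hζ0 hζ using hex
  refine ⟨lev, ζ, ⟨hz, hζ0, ?_, hd⟩⟩
  intro E E' h
  have hr : rep E' = rep E := by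
    change Function.invFun lev (lev E') = Function.invFun lev (lev E)
    rw [h]
  have h1 := hζ E'
  rw [hr] at h1
  refine (h1.div (hζ E) (hζ0 E)).congr' ?_
  filter_upwards [hz (rep E)] with n hn
  change z E' n / z (rep E) n / (z E n / z (rep E) n) = z E' n / z E n
  rw [div_div_div_cancel_right₀ hn]

end Pool.Agent.MPb0eF
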