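import Pool.Agent.Lib.MP_b0e20b_ag_F.Sys

/-!
# MP_b0e20b_ag, project F: sequences of solutions
-/

set_option autoImplicit false

open scoped BigOperators Topology
open Filter

namespace Pool.Agent.MPb0eF

open MPb0eQ (Sct dS sq PA G toC)

variable {κ : Type} [Fintype κ] [DecidableEq κ] {d : ℕ} {bl : κ → Fin d}

/-- A sequence of solutions for coefficients which are close to `sg S * (n + 1) ^ h S`. -/
structure SD (h sg : NS bl → ℝ) (c : ℕ → Sct bl → ℝ) (a : NS bl → ℕ → ℝ) (x : ℕ → κ → ℂ) :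
    Prop where
  s0 : ∀ S, sg S ≠ 0
  lim : ∀ S, Tendsto (a S) uf (𝓝 (sg S))
  ceq : ∀ S n, c n S.1 = a S n * ((n : ℝ) + 1) ^ h S
  sol : ∀ n, G bl (toC bl (c n)) (x n) = 0

/-- Reduction to sequences. Proof: otherwise for every `n` there are `c n` with
`|c n S / (n + 1) ^ h S - sg S| < 1 / (n + 1)` and a non real solution `x n`. -/
theorem tra {h sg : NS bl → ℝ} (s0 : ∀ S, sg S ≠ 0)
    (hS : ∀ (c : ℕ → Sct bl → ℝ) (a : NS bl → ℕ → ℝ) (x : ℕ → κ → ℂ), SD h sg c a x →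
      ∀ᶠ n in uf, ∀ k, (x n k).im = 0) :
    ∃ c0 : Sct bl → ℝ, ∀ᶠ c in 𝓝 c0, ∀ x : κ → ℂ, G bl (toC bl c) x = 0 → ∀ k, (x k).im = 0 := by
  classical
  by_contra hcon
  simp only [not_exists] at hcon
  have key : ∀ n : ℕ, ∃ (c : Sct bl → ℝ) (x : κ → ℂ),
      (∀ S : NS bl, |c S.1 / ((n : ℝ) + 1) ^ h S - sg S| < 1 / ((n : ℝ) + 1)) ∧
        G bl (toC bl c) x = 0 ∧ ¬ ∀ k, (x k).im = 0 := by
    intro n
    have hn : (0 : ℝ) < (n : ℝ) + 1 := by positivity
    set c0 : Sct bl → ℝ :=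
      fun T => if hT : T.1.Nonempty then sg ⟨T, hT⟩ * ((n : ℝ) + 1) ^ h ⟨T, hT⟩ else 0 with hc0
    have h1 : ∀ S : NS bl, ∀ᶠ c in 𝓝 c0,
        |c S.1 / ((n : ℝ) + 1) ^ h S - sg S| < 1 / ((n : ℝ) + 1) := by
      intro S
      have hcont : Continuous fun c : Sct bl → ℝ =>
          |c S.1 / ((n : ℝ) + 1) ^ h S - sg S| := by fun_prop
      have hp : (0 : ℝ) < ((n : ℝ) + 1) ^ h S := Real.rpow_pos_of_pos hn _
      have h0 : |c0 S.1 / ((n : ℝ) + 1) ^ h S - sg S| = 0 := by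
        have e1 : c0 S.1 = sg S * ((n : ℝ) + 1) ^ h S := by
          simp only [hc0]
          rw [dif_pos S.2]
        rw [e1, mul_div_assoc, div_self hp.ne', mul_one, sub_self, abs_zero]
      have h2 := hcont.tendsto c0
      rw [h0] at h2
      exact h2.eventually_lt_const (by positivity)
    have h2 := (Filter.not_eventually.1 (hcon c0)).and_eventually (Filter.eventually_all.2 h1)
    obtain ⟨c, hc, hc1⟩ := h2.exists
    push Not at hc
    obtain ⟨x, hx, k, hk⟩ := hc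
    exact ⟨c, x, hc1, hx, fun hall => hk (hall k)⟩
  choose c x h1 h2 h3 using key
  have hD : SD h sg c (fun S n => c n S.1 / ((n : ℝ) + 1) ^ h S) x := by
    refine ⟨s0, ?_, ?_, h2⟩
    · intro S
      have hle : uf ≤ atTop := by
        rw [← Nat.cofinite_eq_atTop]
        exact Filter.hyperfilter_le_cofinite
      have e1 : Tendsto (fun n : ℕ => 1 / ((n : ℝ) + 1)) atTop (𝓝 0) :=
        tendsto_one_div_add_atTop_nhds_zero_nat
      have e2 : Tendsto (fun n : ℕ => c n S.1 / ((n : ℝ) + 1) ^ h S - sg S) atTop (𝓝 0) :=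
        squeeze_zero_norm (fun n => by rw [Real.norm_eq_abs]; exact (h1 n S).le) e1
      have e3 := (e2.mono_left hle).add_const (sg S)
      simpa using e3
    · intro S n
      have hp : (0 : ℝ) < ((n : ℝ) + 1) ^ h S := Real.rpow_pos_of_pos (by positivity) _
      field_simp
  obtain ⟨n, hn⟩ := (hS c _ x hD).exists
  exact h3 n hn

end Pool.Agent.MPb0eF
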