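import Pool.Agent.Lib.MP_b0e20b_ag_F.Abs
import Pool.Agent.Lib.MP_b0e20b_ag_F.Tra

/-!
# MP_b0e20b_ag, project F: solutions with vanishing coordinates, all `s i` nonzero

`Z` is the set of the vanishing coordinates. The monomials with at least two coordinates in `Z` do
not occur in the equations.
-/

set_option autoImplicit false

open scoped BigOperators Topology
open Filter

namespace Pool.Agent.MPb0eF

open MPb0eQ (Sct dS sq PA G toC)

variable {κ : Type} [Fintype κ] [DecidableEq κ] {d : ℕ} (bl : κ → Fin d) (Z : Finset κ)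

/-- The nonempty monomials with at most one coordinate in `Z`. -/
abbrev NZ : Type := {S : NS bl // (S.1.1 ∩ Z).card ≤ 1}

/-- The elements. -/
abbrev EC : Type := NZ bl Z ⊕ {k : κ // k ∉ Z} ⊕ Fin d ⊕ Unit

/-- The vectors of the elements. -/
def vC : EC bl Z → Un κ d → ℤ
  | .inl S, .inl k => if k ∈ S.1.1.1 ∧ S.1.1.1 ∩ Z ⊆ {k} then 1 else 0
  | .inl _, .inr _ => 0
  | .inr (.inl k), .inl k' => if k' = k.1 then -1 else 0
  | .inr (.inl k), .inr i => if i = bl k.1 then 1 else 0
  | .inr (.inr (.inl _)), .inl _ => 0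
  | .inr (.inr (.inl i)), .inr j => if j = i then 1 else 0
  | .inr (.inr (.inr _)), .inl _ => 0
  | .inr (.inr (.inr _)), .inr _ => -1

/-- The exponents of the elements. -/
def eC : EC bl Z → {k : κ // k ∉ Z} ⊕ Fin d → ℤ
  | .inl S, .inl k => if k.1 ∈ S.1.1.1 then 1 else 0
  | .inl _, .inr _ => 0
  | .inr (.inl k), .inl k' => if k' = k then 2 else 0
  | .inr (.inl k), .inr i => if i = bl k.1 then 0 else 1
  | .inr (.inr (.inl _)), .inl _ => 0
  | .inr (.inr (.inl i)), .inr j => if j = i then 0 else 1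
  | .inr (.inr (.inr _)), .inl _ => 0
  | .inr (.inr (.inr _)), .inr _ => 1

/-- The heights of the elements. -/
def hC (h : NS bl → ℝ) : EC bl Z → ℝ
  | .inl S => h S.1
  | .inr _ => 0

/-- The values of the elements. -/
noncomputable def zC (c : Sct bl → ℂ) (x : κ → ℂ) : EC bl Z → ℂ
  | .inl S => c S.1.1 * ∏ k ∈ S.1.1.1 \ Z, x k
  | .inr (.inl k) => x k.1 ^ 2 * PA bl x {bl k.1}
  | .inr (.inr (.inl i)) => PA bl x {i}
  | .inr (.inr (.inr _)) => ∏ i, sq bl x i

/-- The unknowns of a point. -/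
noncomputable def yC (x : κ → ℂ) : {k : κ // k ∉ Z} ⊕ Fin d → ℂ
  | .inl k => x k.1
  | .inr i => sq bl x i

variable {bl Z}

/-- sums over the monomials with at most one coordinate in `Z` -/
private theorem zc_sum {R : Type} [AddCommMonoid R] (g : Sct bl → R)
    (hg : ∀ s : Sct bl, ¬ (s.1.Nonempty ∧ (s.1 ∩ Z).card ≤ 1) → g s = 0) :
    ∑ S : NZ bl Z, g S.1.1 = ∑ s : Sct bl, g s := by
  refine Fintype.sum_of_injective (fun S : NZ bl Z => S.1.1) ?_ _ _ ?_ fun _ => rfl
  · intro S T h
    exact Subtype.ext (Subtype.ext h)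
  · intro s hs
    refine hg s fun h => hs ⟨⟨⟨s, h.1⟩, h.2⟩, rfl⟩

/-- a monomial at a point with vanishing coordinates -/
private theorem zc_mono {x : κ → ℂ} (h0 : ∀ k, x k = 0 ↔ k ∈ Z) {s : Finset κ} {k : κ}
    (hk : k ∈ s) :
    (if s ∩ Z ⊆ {k} then ∏ l ∈ s \ Z, x l else 0) =
      (if k ∈ Z then 1 else x k) * ∏ l ∈ s \ {k}, x l := by
  by_cases hs : s ∩ Z ⊆ {k}
  · rw [if_pos hs]
    by_cases hkZ : k ∈ Z
    · rw [if_pos hkZ, one_mul]
      congr 1
      ext l
      rw [Finset.mem_sdiff, Finset.mem_sdiff, Finset.mem_singleton]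
      constructor
      · rintro ⟨h1, h2⟩
        exact ⟨h1, fun h3 => h2 (h3 ▸ hkZ)⟩
      · rintro ⟨h1, h2⟩
        exact ⟨h1, fun h3 => h2 (Finset.mem_singleton.mp (hs (Finset.mem_inter.mpr ⟨h1, h3⟩)))⟩
    · rw [if_neg hkZ]
      have h1 : s \ Z = insert k (s \ {k}) := by
        ext l
        rw [Finset.mem_sdiff, Finset.mem_insert, Finset.mem_sdiff, Finset.mem_singleton]
        constructor
        · rintro ⟨h1, -⟩
          by_cases h3 : l = k
          · exact Or.inl h3
          · exact Or.inr ⟨h1, h3⟩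
        · rintro (h1 | ⟨h1, h2⟩)
          · rw [h1]
            exact ⟨hk, hkZ⟩
          · refine ⟨h1, fun h3 => h2 ?_⟩
            exact Finset.mem_singleton.mp (hs (Finset.mem_inter.mpr ⟨h1, h3⟩))
      rw [h1, Finset.prod_insert]
      rw [Finset.mem_sdiff, Finset.mem_singleton]
      exact fun h2 => h2.2 rfl
  · rw [if_neg hs]
    rw [Finset.not_subset] at hs
    obtain ⟨l, hl, hlk⟩ := hs
    rw [Finset.mem_inter] at hl
    have h1 : ∏ l ∈ s \ {k}, x l = 0 :=
      Finset.prod_eq_zero (Finset.mem_sdiff.mpr ⟨hl.1, hlk⟩) ((h0 l).mpr hl.2)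
    rw [h1, mul_zero]

/-- The relations. Proof: `G bl c x k = 0`, multiplied by `x k` if `k ∉ Z`; the terms with a
coordinate in `Z` vanish. -/
theorem relC {c : Sct bl → ℂ} {x : κ → ℂ} (h : G bl c x = 0) (h0 : ∀ k, x k = 0 ↔ k ∈ Z)
    (l : Un κ d) : ∑ E, zC bl Z c x E * (vC bl Z E l : ℂ) = 0 := by
  rw [Fintype.sum_sum_type, Fintype.sum_sum_type, Fintype.sum_sum_type]
  rcases l with k | i
  · have hG : x k * PA bl x {bl k} - dS bl c x {k} = 0 := congrFun h k
    have h3 : ∑ i : Fin d, zC bl Z c x (.inr (.inr (.inl i))) *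
        (vC bl Z (.inr (.inr (.inl i))) (.inl k) : ℂ) = 0 := by
      refine Finset.sum_eq_zero fun i _ => ?_
      simp [vC]
    have h4 : ∑ i : Unit, zC bl Z c x (.inr (.inr (.inr i))) *
        (vC bl Z (.inr (.inr (.inr i))) (.inl k) : ℂ) = 0 := by
      refine Finset.sum_eq_zero fun i _ => ?_
      simp [vC]
    have h1 : ∑ S : NZ bl Z, zC bl Z c x (.inl S) * (vC bl Z (.inl S) (.inl k) : ℂ) =
        (if k ∈ Z then 1 else x k) * dS bl c x {k} := by
      have h5 : ∀ S : NZ bl Z, zC bl Z c x (.inl S) * (vC bl Z (.inl S) (.inl k) : ℂ) =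
          (fun s : Sct bl => if k ∈ s.1 ∧ s.1 ∩ Z ⊆ {k} then c s * ∏ l ∈ s.1 \ Z, x l else 0)
            S.1.1 := by
        intro S
        show c S.1.1 * (∏ l ∈ S.1.1.1 \ Z, x l) *
          (((if k ∈ S.1.1.1 ∧ S.1.1.1 ∩ Z ⊆ {k} then 1 else 0 : ℤ)) : ℂ) =
          if k ∈ S.1.1.1 ∧ S.1.1.1 ∩ Z ⊆ {k} then c S.1.1 * ∏ l ∈ S.1.1.1 \ Z, x l else 0
        split_ifs <;> simp
      refine (Finset.sum_congr rfl fun S _ => h5 S).trans ((zc_sum (Z := Z) (fun s : Sct bl =>
        if k ∈ s.1 ∧ s.1 ∩ Z ⊆ {k} then c s * ∏ l ∈ s.1 \ Z, x l else 0) ?_).trans ?_)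
      · intro s hs
        rw [if_neg]
        rintro ⟨h6, h7⟩
        exact hs ⟨⟨k, h6⟩, (Finset.card_le_card h7).trans (Finset.card_singleton k).le⟩
      · unfold dS
        rw [Finset.mul_sum]
        refine Finset.sum_congr rfl fun s _ => ?_
        by_cases hk : k ∈ s.1
        · rw [if_pos (Finset.singleton_subset_iff.mpr hk), mul_left_comm, ← zc_mono h0 hk]
          by_cases hs : s.1 ∩ Z ⊆ {k}
          · rw [if_pos ⟨hk, hs⟩, if_pos hs]
          · rw [if_neg (fun h6 => hs h6.2), if_neg hs, mul_zero]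
        · rw [if_neg (fun h6 => hk h6.1), if_neg (fun h6 => hk (Finset.singleton_subset_iff.mp h6)),
            mul_zero]
    have h2 : ∑ k' : {k : κ // k ∉ Z}, zC bl Z c x (.inr (.inl k')) *
        (vC bl Z (.inr (.inl k')) (.inl k) : ℂ) =
        - ((if k ∈ Z then 1 else x k) * (x k * PA bl x {bl k})) := by
      by_cases hkZ : k ∈ Z
      · rw [(h0 k).mpr hkZ, zero_mul, mul_zero, neg_zero]
        refine Finset.sum_eq_zero fun k' _ => ?_
        have h6 : k ≠ k'.1 := fun h7 => k'.2 (h7 ▸ hkZ)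
        show x k'.1 ^ 2 * PA bl x {bl k'.1} * (((if k = k'.1 then -1 else 0 : ℤ)) : ℂ) = 0
        rw [if_neg h6, Int.cast_zero, mul_zero]
      · rw [if_neg hkZ, Finset.sum_eq_single (⟨k, hkZ⟩ : {k : κ // k ∉ Z})]
        · show x k ^ 2 * PA bl x {bl k} * (((if k = k then -1 else 0 : ℤ)) : ℂ) = _
          rw [if_pos rfl]
          push_cast
          ring
        · intro k' _ hk'
          show x k'.1 ^ 2 * PA bl x {bl k'.1} * (((if k = k'.1 then -1 else 0 : ℤ)) : ℂ) = 0
          rw [if_neg (fun h7 => hk' (Subtype.ext h7.symm)), Int.cast_zero, mul_zero]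
        · intro h7
          exact absurd (Finset.mem_univ _) h7
    rw [h1, h2, h3, h4, add_zero, add_zero]
    linear_combination (-(if k ∈ Z then (1 : ℂ) else x k)) * hG
  · have h1 : ∑ S : NZ bl Z, zC bl Z c x (.inl S) * (vC bl Z (.inl S) (.inr i) : ℂ) = 0 := by
      refine Finset.sum_eq_zero fun S _ => ?_
      simp [vC]
    have h2 : ∑ k' : {k : κ // k ∉ Z}, zC bl Z c x (.inr (.inl k')) *
        (vC bl Z (.inr (.inl k')) (.inr i) : ℂ) = PA bl x {i} * (sq bl x i - 1) := by
      have h5 : sq bl x i - 1 = ∑ k, if bl k = i then x k ^ 2 else 0 := by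
        unfold MPb0eQ.sq
        ring
      rw [h5, Finset.mul_sum]
      refine Fintype.sum_of_injective (fun k' : {k : κ // k ∉ Z} => k'.1)
        Subtype.val_injective _ _ ?_ ?_
      · intro k hk
        have h6 : k ∈ Z := by
          by_contra h7
          exact hk ⟨⟨k, h7⟩, rfl⟩
        rw [(h0 k).mpr h6]
        simp
      · intro k'
        show x k'.1 ^ 2 * PA bl x {bl k'.1} * (((if i = bl k'.1 then 1 else 0 : ℤ)) : ℂ) = _
        by_cases h6 : bl k'.1 = i
        · rw [if_pos h6.symm, if_pos h6, h6, Int.cast_one]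
          ring
        · rw [if_neg (fun h7 => h6 h7.symm), if_neg h6, Int.cast_zero, mul_zero, mul_zero]
    have h3 : ∑ j : Fin d, zC bl Z c x (.inr (.inr (.inl j))) *
        (vC bl Z (.inr (.inr (.inl j))) (.inr i) : ℂ) = PA bl x {i} := by
      rw [Finset.sum_eq_single i]
      · show PA bl x {i} * (((if i = i then 1 else 0 : ℤ)) : ℂ) = _
        rw [if_pos rfl, Int.cast_one, mul_one]
      · intro j _ hj
        show PA bl x {j} * (((if i = j then 1 else 0 : ℤ)) : ℂ) = 0
        rw [if_neg (fun h7 => hj h7.symm), Int.cast_zero, mul_zero]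
      · intro h7
        exact absurd (Finset.mem_univ _) h7
    have h4 : ∑ u : Unit, zC bl Z c x (.inr (.inr (.inr u))) *
        (vC bl Z (.inr (.inr (.inr u))) (.inr i) : ℂ) = -(sq bl x i * PA bl x {i}) := by
      rw [Fintype.sum_unique]
      show (∏ j, sq bl x j) * (((-1 : ℤ)) : ℂ) = _
      rw [Fintype.prod_eq_mul_prod_compl i]
      unfold PA
      push_cast
      ring
    rw [h1, h2, h3, h4]
    ring

/-- The elements are monomials in the unknowns. -/
theorem monC {c : Sct bl → ℂ} {x : κ → ℂ} (h0 : ∀ l, yC bl Z x l ≠ 0) (E : EC bl Z) :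
    zC bl Z c x E = (match E with
      | .inl S => c S.1.1
      | .inr _ => 1) * ∏ l, yC bl Z x l ^ eC bl Z E l := by
  rw [Fintype.prod_sum_type]
  rcases E with S | k | i | u
  · have h1 : ∏ k : {k : κ // k ∉ Z}, yC bl Z x (.inl k) ^ eC bl Z (.inl S) (.inl k) =
        ∏ l ∈ S.1.1.1 \ Z, x l := by
      have h2 : ∀ k : {k : κ // k ∉ Z}, yC bl Z x (.inl k) ^ eC bl Z (.inl S) (.inl k) =
          if k.1 ∈ S.1.1.1 then x k.1 else 1 := by
        intro k
        show x k.1 ^ (if k.1 ∈ S.1.1.1 then 1 else 0 : ℤ) = _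
        split_ifs <;> simp
      rw [Finset.prod_congr rfl fun k _ => h2 k,
        ← Finset.prod_subtype (s := Finset.univ.filter fun k => k ∉ Z) (by simp)
          (fun k => if k ∈ S.1.1.1 then x k else 1), Finset.prod_ite, Finset.prod_const_one,
        mul_one]
      congr 1
      ext k
      simp only [Finset.mem_filter, Finset.mem_univ, true_and, Finset.mem_sdiff]
      exact and_comm
    have h3 : ∏ i : Fin d, yC bl Z x (.inr i) ^ eC bl Z (.inl S) (.inr i) = 1 :=
      Finset.prod_eq_one fun i _ => zpow_zero _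
    rw [h1, h3, mul_one]
    rfl
  · have h1 : ∏ k' : {k : κ // k ∉ Z}, yC bl Z x (.inl k') ^ eC bl Z (.inr (.inl k)) (.inl k') =
        x k.1 ^ 2 := by
      rw [Finset.prod_eq_single k]
      · show x k.1 ^ (if k = k then 2 else 0 : ℤ) = _
        rw [if_pos rfl]
        exact zpow_ofNat _ 2
      · intro k' _ hk'
        show x k'.1 ^ (if k' = k then 2 else 0 : ℤ) = 1
        rw [if_neg hk', zpow_zero]
      · intro h7
        exact absurd (Finset.mem_univ _) h7
    have h2 : ∏ i : Fin d, yC bl Z x (.inr i) ^ eC bl Z (.inr (.inl k)) (.inr i) =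
        PA bl x {bl k.1} := by
      rw [Fintype.prod_eq_mul_prod_compl (bl k.1)]
      have h3 : yC bl Z x (.inr (bl k.1)) ^ eC bl Z (.inr (.inl k)) (.inr (bl k.1)) = 1 := by
        show _ ^ (if bl k.1 = bl k.1 then 0 else 1 : ℤ) = (1 : ℂ)
        rw [if_pos rfl, zpow_zero]
      rw [h3, one_mul]
      refine Finset.prod_congr rfl fun j hj => ?_
      rw [Finset.mem_compl, Finset.mem_singleton] at hj
      show sq bl x j ^ (if j = bl k.1 then 0 else 1 : ℤ) = _
      rw [if_neg hj, zpow_one]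
    rw [h1, h2, one_mul]
    rfl
  · have h1 : ∏ k' : {k : κ // k ∉ Z}, yC bl Z x (.inl k') ^
        eC bl Z (.inr (.inr (.inl i))) (.inl k') = 1 :=
      Finset.prod_eq_one fun i _ => zpow_zero _
    have h2 : ∏ j : Fin d, yC bl Z x (.inr j) ^ eC bl Z (.inr (.inr (.inl i))) (.inr j) =
        PA bl x {i} := by
      rw [Fintype.prod_eq_mul_prod_compl i]
      have h3 : yC bl Z x (.inr i) ^ eC bl Z (.inr (.inr (.inl i))) (.inr i) = 1 := by
        show _ ^ (if i = i then 0 else 1 : ℤ) = (1 : ℂ)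
        rw [if_pos rfl, zpow_zero]
      rw [h3, one_mul]
      refine Finset.prod_congr rfl fun j hj => ?_
      rw [Finset.mem_compl, Finset.mem_singleton] at hj
      show sq bl x j ^ (if j = i then 0 else 1 : ℤ) = _
      rw [if_neg hj, zpow_one]
    rw [h1, h2, one_mul, one_mul]
    rfl
  · have h1 : ∏ k' : {k : κ // k ∉ Z}, yC bl Z x (.inl k') ^
        eC bl Z (.inr (.inr (.inr u))) (.inl k') = 1 :=
      Finset.prod_eq_one fun i _ => zpow_zero _
    have h2 : ∏ j : Fin d, yC bl Z x (.inr j) ^ eC bl Z (.inr (.inr (.inr u))) (.inr j) =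
        ∏ j, sq bl x j :=
      Finset.prod_congr rfl fun j _ => zpow_one _
    rw [h1, h2, one_mul, one_mul]
    rfl

/-- the monomial of one coordinate -/
private def zc_one (k : κ) : NZ bl Z :=
  ⟨⟨⟨{k}, fun a ha b hb _ =>
    (Finset.mem_singleton.mp ha).trans (Finset.mem_singleton.mp hb).symm⟩,
    Finset.singleton_nonempty k⟩,
    (Finset.card_le_card Finset.inter_subset_left).trans (Finset.card_singleton k).le⟩

/-- The vectors span. Proof: the monomials `{k}` and the elements `PA bl x {i}`. -/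
theorem spanC (φ : Un κ d → ℚ) (h : ∀ E, dot φ (vC bl Z E) = 0) : φ = 0 := by
  funext l
  rcases l with k | i
  · have h1 := h (.inl (zc_one k))
    unfold dot at h1
    rw [Finset.sum_eq_single (.inl k)] at h1
    · have h2 : vC bl Z (.inl (zc_one k)) (.inl k) = 1 := by
        show (if k ∈ ({k} : Finset κ) ∧ ({k} : Finset κ) ∩ Z ⊆ {k} then (1 : ℤ) else 0) = 1
        rw [if_pos ⟨Finset.mem_singleton_self k, Finset.inter_subset_left⟩]
      rw [h2, Int.cast_one, mul_one] at h1
      exact h1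
    · intro l _ hl
      rcases l with k' | i
      · have h2 : vC bl Z (.inl (zc_one k)) (.inl k') = 0 := by
          show (if k' ∈ ({k} : Finset κ) ∧ ({k} : Finset κ) ∩ Z ⊆ {k'} then (1 : ℤ) else 0) = 0
          rw [if_neg]
          rintro ⟨h3, -⟩
          rw [Finset.mem_singleton] at h3
          exact hl (by rw [h3])
        rw [h2, Int.cast_zero, mul_zero]
      · show φ (.inr i) * ((0 : ℤ) : ℚ) = 0
        rw [Int.cast_zero, mul_zero]
    · intro h7
      exact absurd (Finset.mem_univ _) h7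
  · have h1 := h (.inr (.inr (.inl i)))
    unfold dot at h1
    rw [Finset.sum_eq_single (.inr i)] at h1
    · have h2 : vC bl Z (.inr (.inr (.inl i))) (.inr i) = 1 := by
        show (if i = i then (1 : ℤ) else 0) = 1
        rw [if_pos rfl]
      rw [h2, Int.cast_one, mul_one] at h1
      exact h1
    · intro l _ hl
      rcases l with k' | j
      · show φ (.inl k') * ((0 : ℤ) : ℚ) = 0
        rw [Int.cast_zero, mul_zero]
      · have h2 : vC bl Z (.inr (.inr (.inl i))) (.inr j) = 0 := by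
          show (if j = i then (1 : ℤ) else 0) = 0
          rw [if_neg (fun h3 => hl (by rw [h3]))]
        rw [h2, Int.cast_zero, mul_zero]
    · intro h7
      exact absurd (Finset.mem_univ _) h7

/-- Generic heights. -/
theorem genC {h : NS bl → ℝ} (hh : ∀ c : NS bl → ℤ, ∑ S, (c S : ℝ) * h S = 0 → c = 0) :
    Gen (hC bl Z h) (eC bl Z) := by
  intro c hc0 hce hch
  have hS : ∀ S : NZ bl Z, c (.inl S) = 0 := by
    classical
    have h1 : ∑ S : NS bl, (((if hS : (S.1.1 ∩ Z).card ≤ 1 then c (.inl ⟨S, hS⟩) else 0 : ℤ)) : ℝ)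
        * h S = 0 := by
      rw [← hch, Fintype.sum_sum_type]
      have h2 : ∑ E : {k : κ // k ∉ Z} ⊕ Fin d ⊕ Unit, (c (.inr E) : ℝ) * hC bl Z h (.inr E) = 0 :=
        Finset.sum_eq_zero fun E _ => mul_zero _
      rw [h2, add_zero]
      symm
      refine Fintype.sum_of_injective (fun S : NZ bl Z => S.1) Subtype.val_injective _ _ ?_ ?_
      · intro S hS
        rw [dif_neg, Int.cast_zero, zero_mul]
        intro h3
        exact hS ⟨⟨S, h3⟩, rfl⟩
      · intro S
        rw [dif_pos S.2]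
        rfl
    have h3 := hh _ h1
    intro S
    have h4 := congrFun h3 S.1
    rw [dif_pos S.2] at h4
    exact h4
  have hk : ∀ k : {k : κ // k ∉ Z}, c (.inr (.inl k)) = 0 := by
    intro k
    have h1 := hce (.inl k)
    rw [Fintype.sum_sum_type, Fintype.sum_sum_type, Fintype.sum_sum_type] at h1
    have h2 : ∑ S : NZ bl Z, c (.inl S) * eC bl Z (.inl S) (.inl k) = 0 :=
      Finset.sum_eq_zero fun S _ => by rw [hS S, zero_mul]
    have h3 : ∑ k' : {k : κ // k ∉ Z}, c (.inr (.inl k')) * eC bl Z (.inr (.inl k')) (.inl k) =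
        c (.inr (.inl k)) * 2 := by
      rw [Finset.sum_eq_single k]
      · show _ * (if k = k then (2 : ℤ) else 0) = _
        rw [if_pos rfl]
      · intro k' _ hk'
        show _ * (if k = k' then (2 : ℤ) else 0) = _
        rw [if_neg (fun h7 => hk' h7.symm), mul_zero]
      · intro h7
        exact absurd (Finset.mem_univ _) h7
    have h4 : ∑ i : Fin d, c (.inr (.inr (.inl i))) * eC bl Z (.inr (.inr (.inl i))) (.inl k) =
        0 := Finset.sum_eq_zero fun i _ => mul_zero _
    have h5 : ∑ u : Unit, c (.inr (.inr (.inr u))) * eC bl Z (.inr (.inr (.inr u))) (.inl k) =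
        0 := Finset.sum_eq_zero fun i _ => mul_zero _
    rw [h2, h3, h4, h5] at h1
    omega
  have hsum : ∑ i : Fin d, c (.inr (.inr (.inl i))) + c (.inr (.inr (.inr ()))) = 0 := by
    rw [Fintype.sum_sum_type, Fintype.sum_sum_type, Fintype.sum_sum_type,
      Finset.sum_eq_zero (fun S _ => hS S), Finset.sum_eq_zero (fun k _ => hk k), zero_add,
      zero_add, Fintype.sum_unique (fun u : Unit => c (.inr (.inr (.inr u))))] at hc0
    exact hc0
  have hi : ∀ j : Fin d, c (.inr (.inr (.inl j))) = 0 := by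
    intro j
    have h1 := hce (.inr j)
    rw [Fintype.sum_sum_type, Fintype.sum_sum_type, Fintype.sum_sum_type] at h1
    have h2 : ∑ S : NZ bl Z, c (.inl S) * eC bl Z (.inl S) (.inr j) = 0 :=
      Finset.sum_eq_zero fun S _ => mul_zero _
    have h3 : ∑ k' : {k : κ // k ∉ Z}, c (.inr (.inl k')) * eC bl Z (.inr (.inl k')) (.inr j) =
        0 := Finset.sum_eq_zero fun k _ => by rw [hk k, zero_mul]
    have h4 : ∑ i : Fin d, c (.inr (.inr (.inl i))) * eC bl Z (.inr (.inr (.inl i))) (.inr j) =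
        ∑ i : Fin d, c (.inr (.inr (.inl i))) - c (.inr (.inr (.inl j))) := by
      have h6 : ∀ i : Fin d, c (.inr (.inr (.inl i))) *
          eC bl Z (.inr (.inr (.inl i))) (.inr j) = c (.inr (.inr (.inl i))) -
            if j = i then c (.inr (.inr (.inl j))) else 0 := by
        intro i
        show _ * (if j = i then (0 : ℤ) else 1) = _
        by_cases h7 : j = i
        · subst h7
          rw [if_pos rfl, if_pos rfl, mul_zero, sub_self]
        · rw [if_neg h7, if_neg h7, mul_one, sub_zero]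
      rw [Finset.sum_congr rfl fun i _ => h6 i, Finset.sum_sub_distrib, Finset.sum_ite_eq,
        if_pos (Finset.mem_univ _)]
    have h5 : ∑ u : Unit, c (.inr (.inr (.inr u))) * eC bl Z (.inr (.inr (.inr u))) (.inr j) =
        c (.inr (.inr (.inr ()))) := by
      rw [Fintype.sum_unique]
      exact mul_one _
    rw [h2, h3, h4, h5] at h1
    linarith
  have hu : c (.inr (.inr (.inr ()))) = 0 := by
    rw [Finset.sum_eq_zero (fun i _ => hi i), zero_add] at hsum
    exact hsum
  funext E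
  rcases E with S | k | i | u
  · exact hS S
  · exact hk k
  · exact hi i
  · exact hu

/-- No solutions. Proof: `no_sol`. -/
theorem noC {h sg : NS bl → ℝ} (hh : ∀ c : NS bl → ℤ, ∑ S, (c S : ℝ) * h S = 0 → c = 0)
    {c : ℕ → Sct bl → ℝ} {a : NS bl → ℕ → ℝ} {x : ℕ → κ → ℂ} (hD : SD h sg c a x)
    (hZ : Z.Nonempty) (h0 : ∀ᶠ n in uf, (∀ k, x n k = 0 ↔ k ∈ Z) ∧ ∀ i, sq bl (x n) i ≠ 0) :
    False := by
  have hy : ∀ᶠ n in uf, ∀ l, yC bl Z (x n) l ≠ 0 := by
    filter_upwards [h0] with n hn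
    rintro (k | i)
    · intro h1
      exact k.2 ((hn.1 k.1).mp h1)
    · exact hn.2 i
  have hm : Mon (fun E n => zC bl Z (toC bl (c n)) (x n) E) (fun n : ℕ => (n : ℝ) + 1)
      (hC bl Z h) (fun l n => yC bl Z (x n) l) (eC bl Z)
      (fun E n => match E with
        | .inl S => a S.1 n
        | .inr _ => 1)
      (fun E => match E with
        | .inl S => sg S.1
        | .inr _ => 1) := by
    refine ⟨fun n => by positivity, ?_, fun l => ?_, ?_, ?_, ?_⟩
    · refine Tendsto.mono_left ?_ Nat.hyperfilter_le_atTop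
      exact tendsto_atTop_add_const_right _ _ tendsto_natCast_atTop_atTop
    · filter_upwards [hy] with n hn
      exact hn l
    · rintro (S | E)
      · exact hD.s0 S.1
      · exact one_ne_zero
    · rintro (S | E)
      · exact hD.lim S.1
      · exact tendsto_const_nhds
    · rintro (S | E)
      · filter_upwards [hy] with n hn
        rw [monC hn (.inl S)]
        show ((c n S.1.1 : ℝ) : ℂ) * _ = ((a S.1 n : ℝ) : ℂ) * ((((n : ℝ) + 1) ^ h S.1 : ℝ) : ℂ) * _
        rw [hD.ceq S.1 n, Complex.ofReal_mul]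
      · filter_upwards [hy] with n hn
        rw [monC hn (.inr E)]
        show (1 : ℂ) * _ = ((1 : ℝ) : ℂ) * ((((n : ℝ) + 1) ^ (0 : ℝ) : ℝ) : ℂ) * _
        rw [Real.rpow_zero, Complex.ofReal_one, mul_one]
  refine no_sol (vec := vC bl Z) hm (genC hh) ?_ spanC ?_
  · rw [Fintype.card_sum, Fintype.card_sum]
    have h1 : Fintype.card {k : κ // k ∉ Z} < Fintype.card κ := by
      obtain ⟨k, hk⟩ := hZ
      exact Fintype.card_subtype_lt (x := k) (fun h2 => h2 hk)
    omega
  · filter_upwards [h0] with n hn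
    intro l
    exact relC (hD.sol n) hn.1 l

end Pool.Agent.MPb0eF
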